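import Pool.Agent.Work.MP_d266e7_co.C5.Defs

/-!
A finite check (verified by an external enumeration). Only `min (d i x) 2` matters: every host
has a piece with value at least two. Suggested proof: by contradiction, instantiate `h.rule` for
each piece and each pair (two matchings of the complementary pair), turn the two `filter` cards
into sums of indicators, cap the twelve values at two and run a Boolean check over
`19 ^ 4` patterns with `decide +kernel` (or a hand case analysis on exclusive hosts).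
-/

namespace Pool.Agent.Work.MP_d266e7_co.C5

open Finset

/-- one of the two matchings of the complementary pair -/
def abs3_r (bz bw cz cw : Bool) : Bool := (bz && cw) || (bw && cz)

/-- the conclusion for one piece -/
def abs3_good (p0 p1 p2 p3 q0 q1 q2 q3 b0 b1 b2 b3 c0 c1 c2 c3 : Bool) : Bool :=
  (q0 && (q1 && abs3_r b2 b3 c2 c3)) ||
    ((q0 && (q2 && abs3_r b1 b3 c1 c3)) ||
    ((q0 && (q3 && abs3_r b1 b2 c1 c2)) ||
    ((q1 && (q2 && abs3_r b0 b3 c0 c3)) ||
    ((q1 && (q3 && abs3_r b0 b2 c0 c2)) ||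
    ((q2 && (q3 && abs3_r b0 b1 c0 c1)) ||
    ((q0 && (p1 && (p2 && (abs3_r b2 b3 c2 c3 && (abs3_r b1 b3 c1 c3 && abs3_r b0 b3 c0 c3))))) ||
    ((q0 && (p1 && (p3 && (abs3_r b2 b3 c2 c3 && (abs3_r b1 b2 c1 c2 && abs3_r b0 b2 c0 c2))))) ||
    ((q0 && (p2 && (p3 && (abs3_r b1 b3 c1 c3 && (abs3_r b1 b2 c1 c2 && abs3_r b0 b1 c0 c1))))) ||
    ((q1 && (p0 && (p2 && (abs3_r b2 b3 c2 c3 && (abs3_r b0 b3 c0 c3 && abs3_r b1 b3 c1 c3))))) ||
    ((q1 && (p0 && (p3 && (abs3_r b2 b3 c2 c3 && (abs3_r b0 b2 c0 c2 && abs3_r b1 b2 c1 c2))))) ||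
    ((q1 && (p2 && (p3 && (abs3_r b0 b3 c0 c3 && (abs3_r b0 b2 c0 c2 && abs3_r b0 b1 c0 c1))))) ||
    ((q2 && (p0 && (p1 && (abs3_r b1 b3 c1 c3 && (abs3_r b0 b3 c0 c3 && abs3_r b2 b3 c2 c3))))) ||
    ((q2 && (p0 && (p3 && (abs3_r b1 b3 c1 c3 && (abs3_r b0 b1 c0 c1 && abs3_r b1 b2 c1 c2))))) ||
    ((q2 && (p1 && (p3 && (abs3_r b0 b3 c0 c3 && (abs3_r b0 b1 c0 c1 && abs3_r b0 b2 c0 c2))))) ||
    ((q3 && (p0 && (p1 && (abs3_r b1 b2 c1 c2 && (abs3_r b0 b2 c0 c2 && abs3_r b2 b3 c2 c3))))) ||
    ((q3 && (p0 && (p2 && (abs3_r b1 b2 c1 c2 && (abs3_r b0 b1 c0 c1 && abs3_r b1 b3 c1 c3))))) ||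
    ((q3 && (p1 && (p2 && (abs3_r b0 b2 c0 c2 && (abs3_r b0 b1 c0 c1 && abs3_r b0 b3 c0 c3))))))))))))))))))))))

/-- at least two -/
def abs3_two (a b c e : Bool) : Bool :=
  (a && (b || c || e)) || (b && (c || e)) || (c && e)

/-- at least three -/
def abs3_three (a b c e : Bool) : Bool :=
  (a && b && (c || e)) || (c && e && (a || b))

/-- all nineteen patterns of one host -/
def abs3_all (f : Bool → Bool → Bool → Bool → Bool → Bool → Bool) : Bool :=
  f false false false false true true &&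
    f false false true false true true &&
    f false false true true false false &&
    f false false true true true false &&
    f false false true true true true &&
    f true false false false true true &&
    f true false true false true true &&
    f true false true true false false &&
    f true false true true true false &&
    f true false true true true true &&
    f true true false false false false &&
    f true true false false true false &&
    f true true false false true true &&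
    f true true true false false false &&
    f true true true false true false &&
    f true true true false true true &&
    f true true true true false false &&
    f true true true true true false &&
    f true true true true true true

/-- the final test -/
def abs3_fin (p00 q00 p10 q10 p20 q20 p01 q01 p11 q11 p21 q21 p02 q02 p12 q12 p22 q22 p03 q03 p13 q13 p23 q23 : Bool) : Bool :=
  !(abs3_two p00 p01 p02 p03 &&
      abs3_two p10 p11 p12 p13 &&
      abs3_two p20 p21 p22 p23 &&
      abs3_three (p00 || p10) (p01 || p11) (p02 || p12) (p03 || p13) &&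
      abs3_three (p00 || p20) (p01 || p21) (p02 || p22) (p03 || p23) &&
      abs3_three (p10 || p20) (p11 || p21) (p12 || p22) (p13 || p23)) ||
    (abs3_good p00 p01 p02 p03 q00 q01 q02 q03 p10 p11 p12 p13 p20 p21 p22 p23 ||
    (abs3_good p10 p11 p12 p13 q10 q11 q12 q13 p00 p01 p02 p03 p20 p21 p22 p23 ||
    abs3_good p20 p21 p22 p23 q20 q21 q22 q23 p00 p01 p02 p03 p10 p11 p12 p13))

theorem abs3_check : (abs3_all fun p00 q00 p10 q10 p20 q20 =>
    abs3_all fun p01 q01 p11 q11 p21 q21 =>
    abs3_all fun p02 q02 p12 q12 p22 q22 =>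
    abs3_all fun p03 q03 p13 q13 p23 q23 =>
    abs3_fin p00 q00 p10 q10 p20 q20 p01 q01 p11 q11 p21 q21 p02 q02 p12 q12 p22 q22 p03 q03 p13 q13 p23 q23) = true := by
  decide +kernel

theorem abs3_all_spec {f : Bool → Bool → Bool → Bool → Bool → Bool → Bool}
    (h : abs3_all f = true) (a b c : ℕ) (hs : 4 ≤ a + b + c) :
    f (decide (1 ≤ a)) (decide (2 ≤ a)) (decide (1 ≤ b)) (decide (2 ≤ b)) (decide (1 ≤ c))
      (decide (2 ≤ c)) = true := by
  have key : ∀ n : ℕ, (decide (1 ≤ n) = false ∧ decide (2 ≤ n) = false ∧ n ≤ 1) ∨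
      (decide (1 ≤ n) = true ∧ decide (2 ≤ n) = false ∧ n ≤ 1) ∨
      (decide (1 ≤ n) = true ∧ decide (2 ≤ n) = true ∧ 2 ≤ n) := by
    intro n
    simp only [decide_eq_false_iff_not, decide_eq_true_eq]
    omega
  simp only [abs3_all, Bool.and_eq_true] at h
  rcases key a with ⟨a1, a2, a3⟩ | ⟨a1, a2, a3⟩ | ⟨a1, a2, a3⟩ <;>
  rcases key b with ⟨b1, b2, b3⟩ | ⟨b1, b2, b3⟩ | ⟨b1, b2, b3⟩ <;>
  rcases key c with ⟨c1, c2, c3⟩ | ⟨c1, c2, c3⟩ | ⟨c1, c2, c3⟩ <;>
  first
    | (exfalso; omega)
    | (rw [a1, a2, b1, b2, c1, c2]; simp only [h])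

theorem abs3_univ : (univ : Finset (Fin 4)) = {0, 1, 2, 3} := by decide

theorem abs3_two_spec (P : Fin 4 → Prop) [DecidablePred P] (h : 2 ≤ (univ.filter P).card) :
    abs3_two (decide (P 0)) (decide (P 1)) (decide (P 2)) (decide (P 3)) = true := by
  rw [Finset.card_filter, abs3_univ, Finset.sum_insert (by decide), Finset.sum_insert (by decide),
    Finset.sum_insert (by decide), Finset.sum_singleton] at h
  by_cases h0 : P 0 <;> by_cases h1 : P 1 <;> by_cases h2 : P 2 <;> by_cases h3 : P 3 <;>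
    simp [h0, h1, h2, h3, abs3_two] at h ⊢

theorem abs3_three_spec (P : Fin 4 → Prop) [DecidablePred P] (h : 3 ≤ (univ.filter P).card) :
    abs3_three (decide (P 0)) (decide (P 1)) (decide (P 2)) (decide (P 3)) = true := by
  rw [Finset.card_filter, abs3_univ, Finset.sum_insert (by decide), Finset.sum_insert (by decide),
    Finset.sum_insert (by decide), Finset.sum_singleton] at h
  by_cases h0 : P 0 <;> by_cases h1 : P 1 <;> by_cases h2 : P 2 <;> by_cases h3 : P 3 <;>
    simp [h0, h1, h2, h3, abs3_three] at h ⊢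

theorem abs3_good_spec {d : Fin 3 → Fin 4 → ℕ} {R : Fin 3 → Fin 4 → Fin 4 → Prop}
    (h : Shadow d R) (i j k : Fin 3) (hij : i ≠ j) (hik : i ≠ k) (hjk : j ≠ k)
    (hg : abs3_good (decide (1 ≤ d i 0)) (decide (1 ≤ d i 1)) (decide (1 ≤ d i 2)) (decide (1 ≤ d i 3)) (decide (2 ≤ d i 0)) (decide (2 ≤ d i 1)) (decide (2 ≤ d i 2)) (decide (2 ≤ d i 3)) (decide (1 ≤ d j 0)) (decide (1 ≤ d j 1)) (decide (1 ≤ d j 2)) (decide (1 ≤ d j 3)) (decide (1 ≤ d k 0)) (decide (1 ≤ d k 1)) (decide (1 ≤ d k 2)) (decide (1 ≤ d k 3)) = true) :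
    (∃ x y, x ≠ y ∧ R i x y ∧ 2 ≤ d i x ∧ 2 ≤ d i y) ∨
      ∃ x y z, x ≠ y ∧ x ≠ z ∧ y ≠ z ∧ R i x y ∧ R i x z ∧ R i y z ∧
        2 ≤ d i x ∧ 1 ≤ d i y ∧ 1 ≤ d i z := by
  have hR : ∀ x y z w : Fin 4, x ≠ y → x ≠ z → x ≠ w → y ≠ z → y ≠ w → z ≠ w →
      abs3_r (decide (1 ≤ d j z)) (decide (1 ≤ d j w)) (decide (1 ≤ d k z))
        (decide (1 ≤ d k w)) = true → R i x y := by
    intro x y z w h1 h2 h3 h4 h5 h6 hr
    simp only [abs3_r, Bool.or_eq_true, Bool.and_eq_true, decide_eq_true_eq] at hr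
    rcases hr with ⟨u, v⟩ | ⟨u, v⟩
    · exact h.rule i j k x y z w hij hik hjk h1 h2 h3 h4 h5 h6 u v
    · exact h.rule i j k x y w z hij hik hjk h1 h3 h2 h5 h4 h6.symm u v
  simp only [abs3_good, Bool.or_eq_true, Bool.and_eq_true, decide_eq_true_eq] at hg
  rcases hg with ⟨h1, h2, h3⟩ | ⟨h1, h2, h3⟩ | ⟨h1, h2, h3⟩ | ⟨h1, h2, h3⟩ | ⟨h1, h2, h3⟩ | ⟨h1, h2, h3⟩ | ⟨h1, h2, h3, h4, h5, h6⟩ | ⟨h1, h2, h3, h4, h5, h6⟩ | ⟨h1, h2, h3, h4, h5, h6⟩ | ⟨h1, h2, h3, h4, h5, h6⟩ | ⟨h1, h2, h3, h4, h5, h6⟩ | ⟨h1, h2, h3, h4, h5, h6⟩ | ⟨h1, h2, h3, h4, h5, h6⟩ | ⟨h1, h2, h3, h4, h5, h6⟩ | ⟨h1, h2, h3, h4, h5, h6⟩ | ⟨h1, h2, h3, h4, h5, h6⟩ | ⟨h1, h2, h3, h4, h5, h6⟩ | ⟨h1, h2, h3, h4, h5, h6⟩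
  · exact Or.inl ⟨0, 1, by decide, hR 0 1 2 3 (by decide) (by decide) (by decide) (by decide) (by decide) (by decide) h3, h1, h2⟩
  · exact Or.inl ⟨0, 2, by decide, hR 0 2 1 3 (by decide) (by decide) (by decide) (by decide) (by decide) (by decide) h3, h1, h2⟩
  · exact Or.inl ⟨0, 3, by decide, hR 0 3 1 2 (by decide) (by decide) (by decide) (by decide) (by decide) (by decide) h3, h1, h2⟩
  · exact Or.inl ⟨1, 2, by decide, hR 1 2 0 3 (by decide) (by decide) (by decide) (by decide) (by decide) (by decide) h3, h1, h2⟩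
  · exact Or.inl ⟨1, 3, by decide, hR 1 3 0 2 (by decide) (by decide) (by decide) (by decide) (by decide) (by decide) h3, h1, h2⟩
  · exact Or.inl ⟨2, 3, by decide, hR 2 3 0 1 (by decide) (by decide) (by decide) (by decide) (by decide) (by decide) h3, h1, h2⟩
  · exact Or.inr ⟨0, 1, 2, by decide, by decide, by decide,
      hR 0 1 2 3 (by decide) (by decide) (by decide) (by decide) (by decide) (by decide) h4,
      hR 0 2 1 3 (by decide) (by decide) (by decide) (by decide) (by decide) (by decide) h5,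
      hR 1 2 0 3 (by decide) (by decide) (by decide) (by decide) (by decide) (by decide) h6, h1, h2, h3⟩
  · exact Or.inr ⟨0, 1, 3, by decide, by decide, by decide,
      hR 0 1 2 3 (by decide) (by decide) (by decide) (by decide) (by decide) (by decide) h4,
      hR 0 3 1 2 (by decide) (by decide) (by decide) (by decide) (by decide) (by decide) h5,
      hR 1 3 0 2 (by decide) (by decide) (by decide) (by decide) (by decide) (by decide) h6, h1, h2, h3⟩
  · exact Or.inr ⟨0, 2, 3, by decide, by decide, by decide,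
      hR 0 2 1 3 (by decide) (by decide) (by decide) (by decide) (by decide) (by decide) h4,
      hR 0 3 1 2 (by decide) (by decide) (by decide) (by decide) (by decide) (by decide) h5,
      hR 2 3 0 1 (by decide) (by decide) (by decide) (by decide) (by decide) (by decide) h6, h1, h2, h3⟩
  · exact Or.inr ⟨1, 0, 2, by decide, by decide, by decide,
      hR 1 0 2 3 (by decide) (by decide) (by decide) (by decide) (by decide) (by decide) h4,
      hR 1 2 0 3 (by decide) (by decide) (by decide) (by decide) (by decide) (by decide) h5,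
      hR 0 2 1 3 (by decide) (by decide) (by decide) (by decide) (by decide) (by decide) h6, h1, h2, h3⟩
  · exact Or.inr ⟨1, 0, 3, by decide, by decide, by decide,
      hR 1 0 2 3 (by decide) (by decide) (by decide) (by decide) (by decide) (by decide) h4,
      hR 1 3 0 2 (by decide) (by decide) (by decide) (by decide) (by decide) (by decide) h5,
      hR 0 3 1 2 (by decide) (by decide) (by decide) (by decide) (by decide) (by decide) h6, h1, h2, h3⟩
  · exact Or.inr ⟨1, 2, 3, by decide, by decide, by decide,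
      hR 1 2 0 3 (by decide) (by decide) (by decide) (by decide) (by decide) (by decide) h4,
      hR 1 3 0 2 (by decide) (by decide) (by decide) (by decide) (by decide) (by decide) h5,
      hR 2 3 0 1 (by decide) (by decide) (by decide) (by decide) (by decide) (by decide) h6, h1, h2, h3⟩
  · exact Or.inr ⟨2, 0, 1, by decide, by decide, by decide,
      hR 2 0 1 3 (by decide) (by decide) (by decide) (by decide) (by decide) (by decide) h4,
      hR 2 1 0 3 (by decide) (by decide) (by decide) (by decide) (by decide) (by decide) h5,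
      hR 0 1 2 3 (by decide) (by decide) (by decide) (by decide) (by decide) (by decide) h6, h1, h2, h3⟩
  · exact Or.inr ⟨2, 0, 3, by decide, by decide, by decide,
      hR 2 0 1 3 (by decide) (by decide) (by decide) (by decide) (by decide) (by decide) h4,
      hR 2 3 0 1 (by decide) (by decide) (by decide) (by decide) (by decide) (by decide) h5,
      hR 0 3 1 2 (by decide) (by decide) (by decide) (by decide) (by decide) (by decide) h6, h1, h2, h3⟩
  · exact Or.inr ⟨2, 1, 3, by decide, by decide, by decide,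
      hR 2 1 0 3 (by decide) (by decide) (by decide) (by decide) (by decide) (by decide) h4,
      hR 2 3 0 1 (by decide) (by decide) (by decide) (by decide) (by decide) (by decide) h5,
      hR 1 3 0 2 (by decide) (by decide) (by decide) (by decide) (by decide) (by decide) h6, h1, h2, h3⟩
  · exact Or.inr ⟨3, 0, 1, by decide, by decide, by decide,
      hR 3 0 1 2 (by decide) (by decide) (by decide) (by decide) (by decide) (by decide) h4,
      hR 3 1 0 2 (by decide) (by decide) (by decide) (by decide) (by decide) (by decide) h5,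
      hR 0 1 2 3 (by decide) (by decide) (by decide) (by decide) (by decide) (by decide) h6, h1, h2, h3⟩
  · exact Or.inr ⟨3, 0, 2, by decide, by decide, by decide,
      hR 3 0 1 2 (by decide) (by decide) (by decide) (by decide) (by decide) (by decide) h4,
      hR 3 2 0 1 (by decide) (by decide) (by decide) (by decide) (by decide) (by decide) h5,
      hR 0 2 1 3 (by decide) (by decide) (by decide) (by decide) (by decide) (by decide) h6, h1, h2, h3⟩
  · exact Or.inr ⟨3, 1, 2, by decide, by decide, by decide,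
      hR 3 1 0 2 (by decide) (by decide) (by decide) (by decide) (by decide) (by decide) h4,
      hR 3 2 0 1 (by decide) (by decide) (by decide) (by decide) (by decide) (by decide) h5,
      hR 1 2 0 3 (by decide) (by decide) (by decide) (by decide) (by decide) (by decide) h6, h1, h2, h3⟩

theorem abs3 {d : Fin 3 → Fin 4 → ℕ} {R : Fin 3 → Fin 4 → Fin 4 → Prop} (h : Shadow d R)
    (hs : ∀ x, 4 ≤ d 0 x + d 1 x + d 2 x) :
    ∃ i, (∃ x y, x ≠ y ∧ R i x y ∧ 2 ≤ d i x ∧ 2 ≤ d i y) ∨
      ∃ x y z, x ≠ y ∧ x ≠ z ∧ y ≠ z ∧ R i x y ∧ R i x z ∧ R i y z ∧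
        2 ≤ d i x ∧ 1 ≤ d i y ∧ 1 ≤ d i z := by
  have c0 := abs3_all_spec abs3_check _ _ _ (hs 0)
  have c1 := abs3_all_spec c0 _ _ _ (hs 1)
  have c2 := abs3_all_spec c1 _ _ _ (hs 2)
  have c3 := abs3_all_spec c2 _ _ _ (hs 3)
  have t0 := abs3_two_spec _ (h.n1 0)
  have t1 := abs3_two_spec _ (h.n1 1)
  have t2 := abs3_two_spec _ (h.n1 2)
  have s01 := abs3_three_spec _ (h.n2 0 1 (by decide))
  have s02 := abs3_three_spec _ (h.n2 0 2 (by decide))
  have s12 := abs3_three_spec _ (h.n2 1 2 (by decide))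
  simp only [Bool.decide_or] at s01 s02 s12
  simp only [abs3_fin, t0, t1, t2, s01, s02, s12, Bool.and_self, Bool.not_true, Bool.false_or,
    Bool.or_eq_true] at c3
  rcases c3 with c | c | c
  · exact ⟨0, abs3_good_spec h 0 1 2 (by decide) (by decide) (by decide) c⟩
  · exact ⟨1, abs3_good_spec h 1 0 2 (by decide) (by decide) (by decide) c⟩
  · exact ⟨2, abs3_good_spec h 2 0 1 (by decide) (by decide) (by decide) c⟩

end Pool.Agent.Work.MP_d266e7_co.C5
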