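import Pool.Agent.Work.MP_d266e7_co.C5.AbsSideK
import Mathlib.Tactic.IntervalCases

/-!
Soundness of the finite check of `AbsSideK`.
-/

namespace Pool.Agent.Work.MP_d266e7_co.C5

open Finset

theorem abss_mem_v {a b c : ℕ} (h : a + b + c = 4) : (a, b, c) ∈ abss_v := by
  have ha : a ≤ 4 := by omega
  have hb : b ≤ 4 - a := by omega
  obtain rfl : c = 4 - a - b := by omega
  interval_cases a <;> interval_cases b <;> decide

theorem abss_rule {d : Fin 3 → Fin 4 → ℕ} {R : Fin 3 → Fin 4 → Fin 4 → Prop} (h : Shadow d R)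
    (i j k : Fin 3) (x y z w : Fin 4) (h1 : i ≠ j) (h2 : i ≠ k) (h3 : j ≠ k) (h4 : x ≠ y)
    (h5 : x ≠ z) (h6 : x ≠ w) (h7 : y ≠ z) (h8 : y ≠ w) (h9 : z ≠ w)
    (hm : abss_m (d j z) (d k z) (d j w) (d k w) = true) : R i x y := by
  simp only [abss_m, abss_p, Bool.or_eq_true, Bool.and_eq_true, decide_eq_true_eq] at hm
  rcases hm with ⟨m1, m2⟩ | ⟨m1, m2⟩
  · exact h.rule i j k x y z w h1 h2 h3 h4 h5 h6 h7 h8 h9 m1 m2
  · exact h.rule i k j x y z w h2 h1 h3.symm h4 h5 h6 h7 h8 h9 m1 m2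

theorem abss_imp {n : Bool} {c : Bool} (h : n = true → c = true) : (!n || c) = true := by
  cases n <;> simp_all

theorem abss_six_spec {d : Fin 3 → Fin 4 → ℕ} {R : Fin 3 → Fin 4 → Fin 4 → Prop} (h : Shadow d R)
    (i j k : Fin 3) (h1 : i ≠ j) (h2 : i ≠ k) (h3 : j ≠ k)
    (f : Bool → Bool → Bool → Bool → Bool → Bool → Bool)
    (hf : ∀ n01 n02 n03 n12 n13 n23 : Bool, (∀ x y : Fin 4, (x = 0 ∧ y = 1 ∧ n01 = true) ∨
      (x = 0 ∧ y = 2 ∧ n02 = true) ∨ (x = 0 ∧ y = 3 ∧ n03 = true) ∨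
      (x = 1 ∧ y = 2 ∧ n12 = true) ∨ (x = 1 ∧ y = 3 ∧ n13 = true) ∨
      (x = 2 ∧ y = 3 ∧ n23 = true) → R i x y ∧ R i y x) → f n01 n02 n03 n12 n13 n23 = true) :
    abss_six f (d j 0) (d j 1) (d j 2) (d j 3) (d k 0) (d k 1) (d k 2) (d k 3) = true := by
  unfold abss_six
  apply hf
  rintro x y (⟨rfl, rfl, hn⟩ | ⟨rfl, rfl, hn⟩ | ⟨rfl, rfl, hn⟩ | ⟨rfl, rfl, hn⟩ | ⟨rfl, rfl, hn⟩ |
    ⟨rfl, rfl, hn⟩) <;>
  exact ⟨abss_rule h i j k _ _ _ _ h1 h2 h3 (by decide) (by decide) (by decide) (by decide)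
      (by decide) (by decide) hn,
    abss_rule h i j k _ _ _ _ h1 h2 h3 (by decide) (by decide) (by decide) (by decide)
      (by decide) (by decide) hn⟩

theorem abss_g_spec (x : Fin 4 → ℕ) (Q : Fin 4 → Fin 4 → Prop) (g : ℕ)
    (a11 : ∀ u v, u ≠ v → Q u v → gainT (x u) (x v) ≤ g)
    (a12 : ∀ u v w, u ≠ v → u ≠ w → v ≠ w → Q u v → Q u w → Q v w → gainT (x u) (x v + x w) ≤ g)
    (n01 n02 n03 n12 n13 n23 : Bool)
    (hn : ∀ x y : Fin 4, (x = 0 ∧ y = 1 ∧ n01 = true) ∨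
      (x = 0 ∧ y = 2 ∧ n02 = true) ∨ (x = 0 ∧ y = 3 ∧ n03 = true) ∨
      (x = 1 ∧ y = 2 ∧ n12 = true) ∨ (x = 1 ∧ y = 3 ∧ n13 = true) ∨
      (x = 2 ∧ y = 3 ∧ n23 = true) → Q x y ∧ Q y x) :
    abss_g g (x 0) (x 1) (x 2) (x 3) n01 n02 n03 n12 n13 n23 = true := by
  have q01 : n01 = true → Q 0 1 ∧ Q 1 0 := fun h => hn 0 1 (by simp [h])
  have q02 : n02 = true → Q 0 2 ∧ Q 2 0 := fun h => hn 0 2 (by simp [h])
  have q03 : n03 = true → Q 0 3 ∧ Q 3 0 := fun h => hn 0 3 (by simp [h])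
  have q12 : n12 = true → Q 1 2 ∧ Q 2 1 := fun h => hn 1 2 (by simp [h])
  have q13 : n13 = true → Q 1 3 ∧ Q 3 1 := fun h => hn 1 3 (by simp [h])
  have q23 : n23 = true → Q 2 3 ∧ Q 3 2 := fun h => hn 2 3 (by simp [h])
  have tri : ∀ u v w : Fin 4, u ≠ v → u ≠ w → v ≠ w → (Q u v ∧ Q v u) → (Q u w ∧ Q w u) →
      (Q v w ∧ Q w v) → abss_t g (x u) (x v) (x w) = true := by
    intro u v w h1 h2 h3 p1 p2 p3
    simp only [abss_t, Bool.and_eq_true, decide_eq_true_eq]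
    exact ⟨a12 u v w h1 h2 h3 p1.1 p2.1 p3.1, a12 v u w h1.symm h3 h2 p1.2 p3.1 p2.1,
      a12 w u v h2.symm h3.symm h1 p2.2 p3.2 p1.1⟩
  simp only [abss_g, Bool.and_eq_true]
  refine ⟨abss_imp fun h => ?_, abss_imp fun h => ?_, abss_imp fun h => ?_,
    abss_imp fun h => ?_, abss_imp fun h => ?_, abss_imp fun h => ?_, abss_imp fun h => ?_,
    abss_imp fun h => ?_, abss_imp fun h => ?_, abss_imp fun h => ?_⟩
  · exact decide_eq_true (a11 _ _ (by decide) (q01 h).1)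
  · exact decide_eq_true (a11 _ _ (by decide) (q02 h).1)
  · exact decide_eq_true (a11 _ _ (by decide) (q03 h).1)
  · exact decide_eq_true (a11 _ _ (by decide) (q12 h).1)
  · exact decide_eq_true (a11 _ _ (by decide) (q13 h).1)
  · exact decide_eq_true (a11 _ _ (by decide) (q23 h).1)
  · simp only [Bool.and_eq_true] at h
    exact tri 0 1 2 (by decide) (by decide) (by decide) (q01 h.1) (q02 h.2.1) (q12 h.2.2)
  · simp only [Bool.and_eq_true] at h
    exact tri 0 1 3 (by decide) (by decide) (by decide) (q01 h.1) (q03 h.2.1) (q13 h.2.2)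
  · simp only [Bool.and_eq_true] at h
    exact tri 0 2 3 (by decide) (by decide) (by decide) (q02 h.1) (q03 h.2.1) (q23 h.2.2)
  · simp only [Bool.and_eq_true] at h
    exact tri 1 2 3 (by decide) (by decide) (by decide) (q12 h.1) (q13 h.2.1) (q23 h.2.2)

theorem abss_u_spec (x : Fin 4 → ℕ) (Q : Fin 4 → Fin 4 → Prop)
    (a11 : ∀ u v, u ≠ v → Q u v → x u + x v ≤ 5)
    (a12 : ∀ u v w, u ≠ v → u ≠ w → v ≠ w → Q u v → Q u w → Q v w → x u + x v + x w ≤ 5)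
    (n01 n02 n03 n12 n13 n23 : Bool)
    (hn : ∀ x y : Fin 4, (x = 0 ∧ y = 1 ∧ n01 = true) ∨
      (x = 0 ∧ y = 2 ∧ n02 = true) ∨ (x = 0 ∧ y = 3 ∧ n03 = true) ∨
      (x = 1 ∧ y = 2 ∧ n12 = true) ∨ (x = 1 ∧ y = 3 ∧ n13 = true) ∨
      (x = 2 ∧ y = 3 ∧ n23 = true) → Q x y ∧ Q y x) :
    abss_u (x 0) (x 1) (x 2) (x 3) n01 n02 n03 n12 n13 n23 = true := by
  have q01 : n01 = true → Q 0 1 := fun h => (hn 0 1 (by simp [h])).1
  have q02 : n02 = true → Q 0 2 := fun h => (hn 0 2 (by simp [h])).1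
  have q03 : n03 = true → Q 0 3 := fun h => (hn 0 3 (by simp [h])).1
  have q12 : n12 = true → Q 1 2 := fun h => (hn 1 2 (by simp [h])).1
  have q13 : n13 = true → Q 1 3 := fun h => (hn 1 3 (by simp [h])).1
  have q23 : n23 = true → Q 2 3 := fun h => (hn 2 3 (by simp [h])).1
  simp only [abss_u, Bool.and_eq_true]
  refine ⟨abss_imp fun h => ?_, abss_imp fun h => ?_, abss_imp fun h => ?_,
    abss_imp fun h => ?_, abss_imp fun h => ?_, abss_imp fun h => ?_, abss_imp fun h => ?_,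
    abss_imp fun h => ?_, abss_imp fun h => ?_, abss_imp fun h => ?_⟩
  · exact decide_eq_true (a11 _ _ (by decide) (q01 h))
  · exact decide_eq_true (a11 _ _ (by decide) (q02 h))
  · exact decide_eq_true (a11 _ _ (by decide) (q03 h))
  · exact decide_eq_true (a11 _ _ (by decide) (q12 h))
  · exact decide_eq_true (a11 _ _ (by decide) (q13 h))
  · exact decide_eq_true (a11 _ _ (by decide) (q23 h))
  · simp only [Bool.and_eq_true] at h
    exact decide_eq_true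
      (a12 0 1 2 (by decide) (by decide) (by decide) (q01 h.1) (q02 h.2.1) (q12 h.2.2))
  · simp only [Bool.and_eq_true] at h
    exact decide_eq_true
      (a12 0 1 3 (by decide) (by decide) (by decide) (q01 h.1) (q03 h.2.1) (q13 h.2.2))
  · simp only [Bool.and_eq_true] at h
    exact decide_eq_true
      (a12 0 2 3 (by decide) (by decide) (by decide) (q02 h.1) (q03 h.2.1) (q23 h.2.2))
  · simp only [Bool.and_eq_true] at h
    exact decide_eq_true
      (a12 1 2 3 (by decide) (by decide) (by decide) (q12 h.1) (q13 h.2.1) (q23 h.2.2))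

theorem abss_feas_of {d : Fin 3 → Fin 4 → ℕ} {R : Fin 3 → Fin 4 → Fin 4 → Prop} {g1 g2 : ℕ}
    (h : SideHyp d R g1 g2) :
    abss_feas g1 g2 (d 0 0) (d 0 1) (d 0 2) (d 0 3) (d 1 0) (d 1 1) (d 1 2) (d 1 3)
      (d 2 0) (d 2 1) (d 2 2) (d 2 3) = true := by
  have t2 : ∀ i, abss_two (d i 0) (d i 1) (d i 2) (d i 3) = true := fun i =>
    abs3_two_spec (fun x => 1 ≤ d i x) (h.sh.n1 i)
  have t3 : ∀ i j, i ≠ j → abss_three (d i 0) (d i 1) (d i 2) (d i 3)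
      (d j 0) (d j 1) (d j 2) (d j 3) = true := fun i j hij => by
    have := abs3_three_spec (fun x => 1 ≤ d i x ∨ 1 ≤ d j x) (h.sh.n2 i j hij)
    simpa only [abss_three, abss_p, Bool.decide_or] using this
  simp only [abss_feas, Bool.and_eq_true]
  exact ⟨t2 0, t2 1, t2 2, t3 0 1 (by decide), t3 0 2 (by decide), t3 1 2 (by decide),
    abss_six_spec h.sh 0 1 2 (by decide) (by decide) (by decide) _
      (abss_u_spec (d 0) (R 0) h.u2 h.u3),
    abss_six_spec h.sh 1 0 2 (by decide) (by decide) (by decide) _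
      (abss_g_spec (d 1) (R 1) g1 h.a11 h.a12),
    abss_six_spec h.sh 2 0 1 (by decide) (by decide) (by decide) _
      (abss_g_spec (d 2) (R 2) g2 h.b11 h.b12)⟩

theorem abss_mem_S {d : Fin 3 → Fin 4 → ℕ} {R : Fin 3 → Fin 4 → Fin 4 → Prop} {g1 g2 : ℕ}
    (h : SideHyp d R g1 g2) :
    (d 0 0 + d 0 1 + d 0 2, d 1 0 + d 1 1 + d 1 2, d 2 0 + d 2 1 + d 2 2) ∈
      abss_S g1 g2 (d 0 3) (d 1 3) (d 2 3) := by
  unfold abss_S
  refine List.mem_flatMap.2 ⟨_, abss_mem_v h.s0, List.mem_flatMap.2 ⟨_, abss_mem_v h.s1,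
    List.mem_filterMap.2 ⟨_, abss_mem_v h.s2, ?_⟩⟩⟩
  simp only [abss_feas_of h, if_true]

theorem abss_caseI {d : Fin 3 → Fin 4 → ℕ} {R : Fin 3 → Fin 4 → Fin 4 → Prop} {g1 g2 : ℕ}
    (h : SideHyp d R g1 g2) (hg : (g1, g2) ∈ abss_gs) (hf : (d 0 3, d 1 3, d 2 3) ∈ abss_fI) :
    ∀ x, x ≠ 3 → 1 ≤ d 2 x → R 2 3 x := by
  have c := abss_checkI
  simp only [abss_chkI, List.all_eq_true] at c
  have c1 := c _ hg _ hf _ (abss_mem_v h.s0) _ (abss_mem_v h.s1) _ (abss_mem_v h.s2)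
  simp only [abss_feas_of h, Bool.not_true, Bool.false_or, Bool.and_eq_true, Bool.or_eq_true,
    Bool.not_eq_true', abss_p, decide_eq_false_iff_not] at c1
  obtain ⟨c0, c1, c2⟩ := c1
  intro x hx hd
  have hx' : x = 0 ∨ x = 1 ∨ x = 2 := by clear hd; revert x; decide
  rcases hx' with rfl | rfl | rfl
  · exact abss_rule h.sh 2 0 1 3 0 1 2 (by decide) (by decide) (by decide) (by decide)
      (by decide) (by decide) (by decide) (by decide) (by decide) (c0.resolve_left (fun h => h hd))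
  · exact abss_rule h.sh 2 0 1 3 1 0 2 (by decide) (by decide) (by decide) (by decide)
      (by decide) (by decide) (by decide) (by decide) (by decide) (c1.resolve_left (fun h => h hd))
  · exact abss_rule h.sh 2 0 1 3 2 0 1 (by decide) (by decide) (by decide) (by decide)
      (by decide) (by decide) (by decide) (by decide) (by decide) (c2.resolve_left (fun h => h hd))

theorem absSide2 {d d' : Fin 3 → Fin 4 → ℕ} {R R' : Fin 3 → Fin 4 → Fin 4 → Prop}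
    {g1 g2 eu e1 e2 : ℕ} (h : SideHyp d R g1 g2) (h' : SideHyp d' R' g1 g2)
    (f0 : d' 0 3 = d 0 3) (f1 : d' 1 3 = d 1 3) (f2 : d' 2 3 = d 2 3) (hle : d 1 3 ≤ d 2 3)
    (hg : g1 + g2 ≤ 1) (he : eu + e1 + e2 ≤ 2) (he2 : eu + e1 + e2 = 2 → g1 + g2 = 0)
    (hu : d 0 0 + d 0 1 + d 0 2 + (d' 0 0 + d' 0 1 + d' 0 2) + d 0 3 + eu = 10)
    (h1 : 9 + g1 ≤ d 1 0 + d 1 1 + d 1 2 + (d' 1 0 + d' 1 1 + d' 1 2) + d 1 3 + e1)
    (h2 : 9 + g2 ≤ d 2 0 + d 2 1 + d 2 2 + (d' 2 0 + d' 2 1 + d' 2 2) + d 2 3 + e2) :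
    d 0 3 = 0 ∧ 4 ≤ d 2 3 ∧ (∀ x, x ≠ 3 → 1 ≤ d 2 x → R 2 3 x) ∧
      ∀ x, x ≠ 3 → 1 ≤ d' 2 x → R' 2 3 x := by
  have hgs : (g1, g2) ∈ abss_gs := by
    have a1 : g1 ≤ 1 := by omega
    have a2 : g2 ≤ 1 - g1 := by omega
    interval_cases g1 <;> interval_cases g2 <;> decide
  have s3 := h.s3
  have hf : (d 0 3, d 1 3, d 2 3) ∈ abss_fI ∨ (d 0 3, d 1 3, d 2 3) ∈ abss_fII := by
    generalize d 0 3 = a at s3
    generalize d 1 3 = b at s3 hle
    generalize d 2 3 = c at s3 hle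
    have a1 : a ≤ 5 := by omega
    have a2 : b ≤ 2 := by omega
    obtain rfl : c = 5 - a - b := by omega
    interval_cases a <;> interval_cases b <;> first | decide | omega
  rcases hf with hf | hf
  · refine ⟨?_, ?_, abss_caseI h hgs hf, abss_caseI h' hgs (by rw [f0, f1, f2]; exact hf)⟩
    · simp only [abss_fI, List.mem_cons, Prod.mk.injEq, List.not_mem_nil, or_false] at hf
      omega
    · simp only [abss_fI, List.mem_cons, Prod.mk.injEq, List.not_mem_nil, or_false] at hf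
      omega
  · exfalso
    have c := abss_checkII
    simp only [abss_chkII, abss_two_sides, List.all_eq_true] at c
    have m1 := abss_mem_S h
    have m2 := abss_mem_S h'
    rw [f0, f1, f2] at m2
    have c1 := c _ hgs _ hf _ (List.mem_eraseDups.2 m1) _ (List.mem_eraseDups.2 m2)
    simp only [abss_bad, Bool.or_eq_true, decide_eq_true_eq] at c1
    omega

end Pool.Agent.Work.MP_d266e7_co.C5
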