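import Pool.Agent.Work.MP_d266e7_co.C5.Abs3

/-!
A finite check. One side has `15 ^ 3 * 21` patterns. `abss_feas` is a Boolean shadow of
`SideHyp`. Check 1: if `d 0 3 = 0` and `4 ≤ d 2 3`, feasibility implies the matching rule for the
pairs `(3, x)` with `1 ≤ d 2 x`. Check 2: otherwise no two feasible sides fit the counting.
-/

namespace Pool.Agent.Work.MP_d266e7_co.C5

open Finset

/-- positivity -/
def abss_p (a : ℕ) : Bool := decide (1 ≤ a)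

/-- one of the two matchings of the complementary pair -/
def abss_m (pz rz pw rw : ℕ) : Bool := (abss_p pz && abss_p rw) || (abss_p rz && abss_p pw)

/-- a triple -/
def abss_t (g x y z : ℕ) : Bool :=
  decide (gainT x (y + z) ≤ g) && (decide (gainT y (x + z) ≤ g) && decide (gainT z (x + y) ≤ g))

/-- gains are at most `g` -/
def abss_g (g x0 x1 x2 x3 : ℕ) (n01 n02 n03 n12 n13 n23 : Bool) : Bool :=
  (!n01 || decide (gainT x0 x1 ≤ g)) && ((!n02 || decide (gainT x0 x2 ≤ g)) &&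
  ((!n03 || decide (gainT x0 x3 ≤ g)) && ((!n12 || decide (gainT x1 x2 ≤ g)) &&
  ((!n13 || decide (gainT x1 x3 ≤ g)) && ((!n23 || decide (gainT x2 x3 ≤ g)) &&
  ((!(n01 && (n02 && n12)) || abss_t g x0 x1 x2) &&
  ((!(n01 && (n03 && n13)) || abss_t g x0 x1 x3) &&
  ((!(n02 && (n03 && n23)) || abss_t g x0 x2 x3) &&
  (!(n12 && (n13 && n23)) || abss_t g x1 x2 x3)))))))))

/-- sums at the single node are at most five -/
def abss_u (x0 x1 x2 x3 : ℕ) (n01 n02 n03 n12 n13 n23 : Bool) : Bool :=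
  (!n01 || decide (x0 + x1 ≤ 5)) && ((!n02 || decide (x0 + x2 ≤ 5)) &&
  ((!n03 || decide (x0 + x3 ≤ 5)) && ((!n12 || decide (x1 + x2 ≤ 5)) &&
  ((!n13 || decide (x1 + x3 ≤ 5)) && ((!n23 || decide (x2 + x3 ≤ 5)) &&
  ((!(n01 && (n02 && n12)) || decide (x0 + x1 + x2 ≤ 5)) &&
  ((!(n01 && (n03 && n13)) || decide (x0 + x1 + x3 ≤ 5)) &&
  ((!(n02 && (n03 && n23)) || decide (x0 + x2 + x3 ≤ 5)) &&
  (!(n12 && (n13 && n23)) || decide (x1 + x2 + x3 ≤ 5))))))))))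

/-- apply a test to the six matching rules given by two other pieces -/
def abss_six (f : Bool → Bool → Bool → Bool → Bool → Bool → Bool)
    (p0 p1 p2 p3 r0 r1 r2 r3 : ℕ) : Bool :=
  f (abss_m p2 r2 p3 r3) (abss_m p1 r1 p3 r3) (abss_m p1 r1 p2 r2) (abss_m p0 r0 p3 r3)
    (abss_m p0 r0 p2 r2) (abss_m p0 r0 p1 r1)

def abss_two (a b c e : ℕ) : Bool := abs3_two (abss_p a) (abss_p b) (abss_p c) (abss_p e)

def abss_three (a b c e a' b' c' e' : ℕ) : Bool :=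
  abs3_three (abss_p a || abss_p a') (abss_p b || abss_p b') (abss_p c || abss_p c')
    (abss_p e || abss_p e')

/-- Boolean shadow of `SideHyp` -/
def abss_feas (g1 g2 a0 a1 a2 a3 b0 b1 b2 b3 c0 c1 c2 c3 : ℕ) : Bool :=
  abss_two a0 a1 a2 a3 && (abss_two b0 b1 b2 b3 && (abss_two c0 c1 c2 c3 &&
  (abss_three a0 a1 a2 a3 b0 b1 b2 b3 && (abss_three a0 a1 a2 a3 c0 c1 c2 c3 &&
  (abss_three b0 b1 b2 b3 c0 c1 c2 c3 &&
  (abss_six (abss_u a0 a1 a2 a3) b0 b1 b2 b3 c0 c1 c2 c3 &&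
  (abss_six (abss_g g1 b0 b1 b2 b3) a0 a1 a2 a3 c0 c1 c2 c3 &&
  abss_six (abss_g g2 c0 c1 c2 c3) a0 a1 a2 a3 b0 b1 b2 b3)))))))

/-- the fifteen vectors with sum four -/
def abss_v : List (ℕ × ℕ × ℕ) :=
  [(0,0,4), (0,1,3), (0,2,2), (0,3,1), (0,4,0), (1,0,3), (1,1,2), (1,2,1), (1,3,0),
   (2,0,2), (2,1,1), (2,2,0), (3,0,1), (3,1,0), (4,0,0)]

/-- summaries of the feasible sides -/
def abss_S (g1 g2 a3 b3 c3 : ℕ) : List (ℕ × ℕ × ℕ) :=
  abss_v.flatMap fun x => abss_v.flatMap fun y => abss_v.filterMap fun z =>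
    if abss_feas g1 g2 x.1 y.1 z.1 a3 x.2.1 y.2.1 z.2.1 b3 x.2.2 y.2.2 z.2.2 c3 then
      some (x.1 + y.1 + z.1, x.2.1 + y.2.1 + z.2.1, x.2.2 + y.2.2 + z.2.2) else none

def abss_bad (g1 g2 a3 b3 c3 : ℕ) (p r : ℕ × ℕ × ℕ) : Bool :=
  decide (10 < p.1 + r.1 + a3) ||
    decide (2 - (g1 + g2) < (10 - (p.1 + r.1 + a3)) + (9 + g1 - (p.2.1 + r.2.1 + b3)) +
      (9 + g2 - (p.2.2 + r.2.2 + c3)))

def abss_two_sides (g1 g2 a3 b3 c3 : ℕ) (S : List (ℕ × ℕ × ℕ)) : Bool :=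
  S.all fun p => S.all fun r => abss_bad g1 g2 a3 b3 c3 p r

def abss_gs : List (ℕ × ℕ) := [(0, 0), (1, 0), (0, 1)]

def abss_fII : List (ℕ × ℕ × ℕ) :=
  [(0,2,3), (1,0,4), (1,1,3), (1,2,2), (2,0,3), (2,1,2), (3,0,2), (3,1,1), (4,0,1), (5,0,0)]

def abss_fI : List (ℕ × ℕ × ℕ) := [(0,0,5), (0,1,4)]

def abss_chkII : Bool :=
  abss_gs.all fun g => abss_fII.all fun f =>
    abss_two_sides g.1 g.2 f.1 f.2.1 f.2.2 (abss_S g.1 g.2 f.1 f.2.1 f.2.2).eraseDups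

def abss_chkI : Bool :=
  abss_gs.all fun g => abss_fI.all fun f =>
    abss_v.all fun x => abss_v.all fun y => abss_v.all fun z =>
      !(abss_feas g.1 g.2 x.1 y.1 z.1 f.1 x.2.1 y.2.1 z.2.1 f.2.1 x.2.2 y.2.2 z.2.2 f.2.2) ||
        ((!abss_p x.2.2 || abss_m y.1 y.2.1 z.1 z.2.1) &&
        ((!abss_p y.2.2 || abss_m x.1 x.2.1 z.1 z.2.1) &&
        (!abss_p z.2.2 || abss_m x.1 x.2.1 y.1 y.2.1)))

/-- all fifteen vectors, as numerals -/
private def abssk_v (f : ℕ → ℕ → ℕ → Bool) : Bool :=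
  f 0 0 4 && (f 0 1 3 && (f 0 2 2 && (f 0 3 1 && (f 0 4 0 &&
    (f 1 0 3 && (f 1 1 2 && (f 1 2 1 && (f 1 3 0 && (f 2 0 2 &&
    (f 2 1 1 && (f 2 2 0 && (f 3 0 1 && (f 3 1 0 && f 4 0 0)))))))))))))

private theorem abssk_v_spec {f : ℕ → ℕ → ℕ → Bool} (h : abssk_v f = true) :
    ∀ x ∈ abss_v, f x.1 x.2.1 x.2.2 = true := by
  simpa only [abssk_v, abss_v, Bool.and_eq_true, List.forall_mem_cons, List.not_mem_nil,
    false_imp_iff, implies_true, and_true] using h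

/-- the ten last columns of check two, as numerals -/
private def abssk_f (f : ℕ → ℕ → ℕ → Bool) : Bool :=
  f 0 2 3 && (f 1 0 4 && (f 1 1 3 && (f 1 2 2 && (f 2 0 3 &&
    (f 2 1 2 && (f 3 0 2 && (f 3 1 1 && (f 4 0 1 && f 5 0 0))))))))

private theorem abssk_f_spec {f : ℕ → ℕ → ℕ → Bool} (h : abssk_f f = true) :
    ∀ x ∈ abss_fII, f x.1 x.2.1 x.2.2 = true := by
  simpa only [abssk_f, abss_fII, Bool.and_eq_true, List.forall_mem_cons, List.not_mem_nil,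
    false_imp_iff, implies_true, and_true] using h

private theorem abssk_mono {g x0 x1 x2 x3 : ℕ} {n01 n02 n03 n12 n13 n23 : Bool} (h : g ≤ 1) :
    abss_g g x0 x1 x2 x3 n01 n02 n03 n12 n13 n23 = true →
      abss_g 1 x0 x1 x2 x3 n01 n02 n03 n12 n13 n23 = true := by
  simp only [abss_g, abss_t, Bool.and_eq_true, Bool.or_eq_true, decide_eq_true_eq]
  rintro ⟨h1, h2, h3, h4, h5, h6, h7, h8, h9, h10⟩
  exact ⟨h1.imp_right (·.trans h), h2.imp_right (·.trans h), h3.imp_right (·.trans h),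
    h4.imp_right (·.trans h), h5.imp_right (·.trans h), h6.imp_right (·.trans h),
    h7.imp_right fun k => ⟨k.1.trans h, k.2.1.trans h, k.2.2.trans h⟩,
    h8.imp_right fun k => ⟨k.1.trans h, k.2.1.trans h, k.2.2.trans h⟩,
    h9.imp_right fun k => ⟨k.1.trans h, k.2.1.trans h, k.2.2.trans h⟩,
    h10.imp_right fun k => ⟨k.1.trans h, k.2.1.trans h, k.2.2.trans h⟩⟩

/-- evaluate the argument first -/
private def abssk_b (b : Bool) (f : Bool → Bool) : Bool := cond b (f true) (f false)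

/-- `abss_six` with evaluated rules -/
private def abssk_six (f : Bool → Bool → Bool → Bool → Bool → Bool → Bool)
    (p0 p1 p2 p3 r0 r1 r2 r3 : ℕ) : Bool :=
  abssk_b (abss_m p2 r2 p3 r3) fun n1 => abssk_b (abss_m p1 r1 p3 r3) fun n2 =>
  abssk_b (abss_m p1 r1 p2 r2) fun n3 => abssk_b (abss_m p0 r0 p3 r3) fun n4 =>
  abssk_b (abss_m p0 r0 p2 r2) fun n5 => abssk_b (abss_m p0 r0 p1 r1) fun n6 =>
  !f n1 n2 n3 n4 n5 n6

private theorem abssk_six_eq (f : Bool → Bool → Bool → Bool → Bool → Bool → Bool)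
    (p0 p1 p2 p3 r0 r1 r2 r3 : ℕ) :
    abssk_six f p0 p1 p2 p3 r0 r1 r2 r3 = !abss_six f p0 p1 p2 p3 r0 r1 r2 r3 := by
  have e : ∀ b g, abssk_b b g = g b := fun b g => by cases b <;> rfl
  simp only [abssk_six, e, abss_six]

/-- one pass for the three gain vectors: the tests with both gains at most one come first -/
private def abssk_pre (a0 a1 a2 a3 b0 b1 b2 b3 c0 c1 c2 c3 : ℕ) (k : ℕ × ℕ → Bool) : Bool :=
  abssk_six (abss_u a0 a1 a2 a3) b0 b1 b2 b3 c0 c1 c2 c3 ||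
    (abssk_six (abss_g 1 c0 c1 c2 c3) a0 a1 a2 a3 b0 b1 b2 b3 ||
    (abssk_six (abss_g 1 b0 b1 b2 b3) a0 a1 a2 a3 c0 c1 c2 c3 ||
    abss_gs.all fun g => !(abss_feas g.1 g.2 a0 a1 a2 a3 b0 b1 b2 b3 c0 c1 c2 c3) || k g))

private theorem abssk_pre_spec {a0 a1 a2 a3 b0 b1 b2 b3 c0 c1 c2 c3 : ℕ} {k : ℕ × ℕ → Bool}
    (h : abssk_pre a0 a1 a2 a3 b0 b1 b2 b3 c0 c1 c2 c3 k = true) {g : ℕ × ℕ} (hg : g ∈ abss_gs)
    (hf : abss_feas g.1 g.2 a0 a1 a2 a3 b0 b1 b2 b3 c0 c1 c2 c3 = true) : k g = true := by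
  have hg' : g.1 ≤ 1 ∧ g.2 ≤ 1 := by
    simp only [abss_gs, List.mem_cons, List.not_mem_nil, or_false] at hg
    rcases hg with rfl | rfl | rfl <;> decide
  have hf' := hf
  simp only [abss_feas, Bool.and_eq_true] at hf'
  obtain ⟨-, -, -, -, -, -, h1, h2, h3⟩ := hf'
  have h2' : abss_six (abss_g 1 b0 b1 b2 b3) a0 a1 a2 a3 c0 c1 c2 c3 = true := abssk_mono hg'.1 h2
  have h3' : abss_six (abss_g 1 c0 c1 c2 c3) a0 a1 a2 a3 b0 b1 b2 b3 = true := abssk_mono hg'.2 h3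
  rw [abssk_pre, abssk_six_eq, abssk_six_eq, abssk_six_eq, h1, h2', h3'] at h
  simp only [Bool.not_true, Bool.false_or, List.all_eq_true] at h
  have := h g hg
  rwa [hf, Bool.not_true, Bool.false_or] at this

/-- the summaries of the feasible sides -/
private def abssk_T (g1 g2 a3 b3 : ℕ) : List (ℕ × ℕ × ℕ) :=
  (List.lookup (g1 + 2 * g2 + 4 * a3 + 32 * b3)
  [(4, [(5,6,1)]),
   (36, [(5,6,1)]),
   (8, [(5,6,1)]),
   (40, [(5,6,1)]),
   (44, [(2,4,6), (2,5,5), (2,6,4)]),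
   (65, [(4,7,1), (5,6,1), (6,5,1)]),
   (5, [(5,5,2), (5,6,1), (6,4,2), (6,5,1), (7,4,1)]),
   (37, [(5,6,1), (6,5,1)]),
   (69, [(6,5,1)]),
   (9, [(5,6,1), (6,5,1), (7,4,1)]),
   (41, [(5,6,1)]),
   (13, [(6,5,1), (7,4,1)]),
   (45, [(1,5,6), (2,4,6), (2,5,5), (2,6,4)]),
   (17, [(1,5,6), (2,4,6), (2,5,5)]),
   (66, [(4,1,7), (5,1,6)]),
   (6, [(5,6,1)]),
   (38, [(4,6,2), (5,5,2), (5,6,1), (6,4,2)]),
   (70, [(6,1,5)]),
   (10, [(4,6,2), (5,5,2), (5,6,1), (6,4,2), (7,3,2), (8,2,2)]),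
   (42, [(1,6,5), (2,5,5), (2,6,4), (3,5,4), (3,6,3), (4,5,3), (4,6,2), (5,5,2), (5,6,1)]),
   (14, [(1,6,5), (2,2,8), (2,3,7), (2,4,6), (2,5,5), (2,6,4)]),
   (46, [(1,6,5), (2,4,6), (2,5,5), (2,6,4)]),
   (18, [(1,6,5)])]).getD []

private theorem abssk_I : (abssk_v fun a0 b0 c0 => abssk_v fun a1 b1 c1 => abssk_v fun a2 b2 c2 =>
    abssk_pre a0 a1 a2 0 b0 b1 b2 0 c0 c1 c2 5 (fun _ => (!abss_p c0 || abss_m a1 b1 a2 b2) &&
        ((!abss_p c1 || abss_m a0 b0 a2 b2) && (!abss_p c2 || abss_m a0 b0 a1 b1))) &&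
    abssk_pre a0 a1 a2 0 b0 b1 b2 1 c0 c1 c2 4 (fun _ => (!abss_p c0 || abss_m a1 b1 a2 b2) &&
        ((!abss_p c1 || abss_m a0 b0 a2 b2) && (!abss_p c2 || abss_m a0 b0 a1 b1)))) = true := by
  decide +kernel

private theorem abssk_II : (abssk_f fun a3 b3 c3 => abssk_v fun a0 b0 c0 =>
    abssk_v fun a1 b1 c1 => abssk_v fun a2 b2 c2 =>
    abssk_pre a0 a1 a2 a3 b0 b1 b2 b3 c0 c1 c2 c3 fun g =>
      decide ((a0 + a1 + a2, b0 + b1 + b2, c0 + c1 + c2) ∈ abssk_T g.1 g.2 a3 b3)) = true := by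
  decide +kernel

private theorem abssk_III : (abss_gs.all fun g => abss_fII.all fun f =>
    abss_two_sides g.1 g.2 f.1 f.2.1 f.2.2 (abssk_T g.1 g.2 f.1 f.2.1)) = true := by
  decide +kernel

theorem abss_checkI : abss_chkI = true := by
  simp only [abss_chkI, List.all_eq_true]
  intro g hg f hf x hx y hy z hz
  have h := abssk_v_spec (abssk_v_spec (abssk_v_spec abssk_I x hx) y hy) z hz
  rw [Bool.and_eq_true] at h
  cases e : abss_feas g.1 g.2 x.1 y.1 z.1 f.1 x.2.1 y.2.1 z.2.1 f.2.1 x.2.2 y.2.2 z.2.2 f.2.2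
  · rfl
  · simp only [abss_fI, List.mem_cons, List.not_mem_nil, or_false] at hf
    rw [Bool.not_true, Bool.false_or]
    rcases hf with rfl | rfl
    · exact abssk_pre_spec h.1 hg e
    · exact abssk_pre_spec h.2 hg e

theorem abss_checkII : abss_chkII = true := by
  have h3 := abssk_III
  simp only [abss_chkII, abss_two_sides, List.all_eq_true] at h3 ⊢
  intro g hg f hf
  have key : ∀ p ∈ (abss_S g.1 g.2 f.1 f.2.1 f.2.2).eraseDups, p ∈ abssk_T g.1 g.2 f.1 f.2.1 := by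
    intro p hp
    obtain ⟨x, hx, hp⟩ := List.mem_flatMap.1 (List.mem_eraseDups.1 hp)
    obtain ⟨y, hy, hp⟩ := List.mem_flatMap.1 hp
    obtain ⟨z, hz, hp⟩ := List.mem_filterMap.1 hp
    split_ifs at hp with e
    obtain rfl := Option.some.inj hp
    exact of_decide_eq_true (abssk_pre_spec
      (abssk_v_spec (abssk_v_spec (abssk_v_spec (abssk_f_spec abssk_II f hf) x hx) y hy) z hz) hg e)
  exact fun p hp r hr => h3 g hg f hf p (key p hp) r (key r hr)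

end Pool.Agent.Work.MP_d266e7_co.C5
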