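import Pool.Agent.Work.MP_d266e7_co.C5.Defs

/-!
A finite check (verified by a separate enumeration: 7866 patterns survive `r1`, `r4`, all are
killed by `d12`). `c x y` is the number of blocks of the node `u` through the hosts `x`, `y`,
`s x` the number of blocks of `u` through `x` alone. Note `∑ s ≤ 2` and the fifteen values
`c x y` (`x < y`) are bits with `∑ c + ∑ s = 5`. Suggested proof: name the fifteen bits, six `s`,
six `δ`; a Boolean check with pruning (sum first, then `hsip`, then `δ`), `decide +kernel`.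
Take `g` out by checking that the maximum of the 18 + 18 instances of `d12` is large enough.
-/

namespace Pool.Agent.Work.MP_d266e7_co.C5

open Finset

/-- both bits -/
def absu_b (f : ℕ → Bool) : Bool := f 0 && f 1

/-- both bits, with a running sum which is at most five -/
def absu_p (a : ℕ) (f : ℕ → ℕ → Bool) : Bool := f 0 a && (Nat.blt 4 a || f 1 (a + 1))

/-- evaluate the argument first -/
def absu_v (n : ℕ) (f : ℕ → Bool) : Bool :=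
  cond (Nat.beq n 0) (f 0) (cond (Nat.beq n 1) (f 1) (cond (Nat.beq n 2) (f 2)
    (cond (Nat.beq n 3) (f 3) (cond (Nat.beq n 4) (f 4) (cond (Nat.beq n 5) (f 5) (f n))))))

/-- all values of `s`, with the running sum -/
def absu_s (a r : ℕ) (f : ℕ → ℕ → Bool) : Bool :=
  f 0 a && (Nat.blt 0 r || ((Nat.blt 4 a || f 1 (a + 1)) && (Nat.blt 3 a || f 2 (a + 2))))

/-- the value of `dw` -/
def absu_w (t m : ℕ) (f : ℕ → Bool) : Bool :=
  Nat.blt 4 t || cond (Nat.blt 0 m) (Nat.blt t 4 || f 0) (absu_v (4 - t) f)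

/-- all values of `δ` -/
def absu_d (σ u m : ℕ) (f : ℕ → ℕ → Bool) : Bool :=
  absu_w u m (f 0) && (Nat.blt σ 1 || absu_w (u + 1) m (f 1))

/-- three instances of `r4` -/
def absu_t (da db de cxy cxz cyz wx wy wz : ℕ) : Bool :=
  Nat.beq da 1 && (Nat.beq db 1 && (Nat.beq de 1 && ((Nat.blt 0 cxy && Nat.blt 0 wz) ||
    ((Nat.blt 0 cxz && Nat.blt 0 wy) || (Nat.blt 0 cyz && Nat.blt 0 wx)))))

/-- one instance of `d12` -/
def absu_e (G u c1 c2 a b p q r : ℕ) : Bool :=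
  Nat.blt 0 c1 && (Nat.blt 0 c2 && (Nat.blt 0 u && Nat.blt G (gainT a b + gainT p (q + r))))

/-- all instances of `r4` -/
def absu_r (c01 c02 c03 c04 c05 c12 c13 c14 c15 c23 c24 c25 c34 c35 c45 d0 d1 d2 d3 d4 d5 w0 w1 w2
    w3 w4 w5 : ℕ) : Bool :=
  absu_t d2 d4 d5 c01 c03 c13 w0 w1 w3 ||
    (absu_t d2 d3 d5 c01 c04 c14 w0 w1 w4 ||
    (absu_t d2 d3 d4 c01 c05 c15 w0 w1 w5 ||
    (absu_t d1 d4 d5 c02 c03 c23 w0 w2 w3 ||
    (absu_t d1 d3 d5 c02 c04 c24 w0 w2 w4 ||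
    (absu_t d1 d3 d4 c02 c05 c25 w0 w2 w5 ||
    (absu_t d1 d2 d5 c03 c04 c34 w0 w3 w4 ||
    (absu_t d1 d2 d4 c03 c05 c35 w0 w3 w5 ||
    (absu_t d1 d2 d3 c04 c05 c45 w0 w4 w5 ||
    (absu_t d0 d4 d5 c12 c13 c23 w1 w2 w3 ||
    (absu_t d0 d3 d5 c12 c14 c24 w1 w2 w4 ||
    (absu_t d0 d3 d4 c12 c15 c25 w1 w2 w5 ||
    (absu_t d0 d2 d5 c13 c14 c34 w1 w3 w4 ||
    (absu_t d0 d2 d4 c13 c15 c35 w1 w3 w5 ||
    (absu_t d0 d2 d3 c14 c15 c45 w1 w4 w5 ||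
    (absu_t d0 d1 d5 c23 c24 c34 w2 w3 w4 ||
    (absu_t d0 d1 d4 c23 c25 c35 w2 w3 w5 ||
    (absu_t d0 d1 d3 c24 c25 c45 w2 w4 w5)))))))))))))))))

/-- all instances of `d12` -/
def absu_g (G c01 c02 c03 c04 c05 c12 c13 c14 c15 c23 c24 c25 c34 c35 c45 u0 u1 u2 u3 u4 u5 w0 w1
    w2 w3 w4 w5 : ℕ) : Bool :=
  absu_e G u3 c04 c05 w1 w2 w3 w4 w5 ||
    (absu_e G u4 c03 c05 w1 w2 w4 w3 w5 ||
    (absu_e G u5 c03 c04 w1 w2 w5 w3 w4 ||
    (absu_e G u3 c14 c15 w0 w2 w3 w4 w5 ||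
    (absu_e G u4 c13 c15 w0 w2 w4 w3 w5 ||
    (absu_e G u5 c13 c14 w0 w2 w5 w3 w4 ||
    (absu_e G u3 c24 c25 w0 w1 w3 w4 w5 ||
    (absu_e G u4 c23 c25 w0 w1 w4 w3 w5 ||
    (absu_e G u5 c23 c24 w0 w1 w5 w3 w4 ||
    (absu_e G u0 c13 c23 w4 w5 w0 w1 w2 ||
    (absu_e G u1 c03 c23 w4 w5 w1 w0 w2 ||
    (absu_e G u2 c03 c13 w4 w5 w2 w0 w1 ||
    (absu_e G u0 c14 c24 w3 w5 w0 w1 w2 ||
    (absu_e G u1 c04 c24 w3 w5 w1 w0 w2 ||
    (absu_e G u2 c04 c14 w3 w5 w2 w0 w1 ||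
    (absu_e G u0 c15 c25 w3 w4 w0 w1 w2 ||
    (absu_e G u1 c05 c25 w3 w4 w1 w0 w2 ||
    (absu_e G u2 c05 c15 w3 w4 w2 w0 w1)))))))))))))))))

/-- the final test -/
def absu_fin (σ S c01 c02 c03 c04 c05 c12 c13 c14 c15 c23 c24 c25 c34 c35 c45 u0 u1 u2 u3 u4 u5 d0
    d1 d2 d3 d4 d5 w0 w1 w2 w3 w4 w5 : ℕ) : Bool :=
  absu_v (d0 + d1 + d2 + d3 + d4 + d5) fun D => Nat.blt 3 D ||
    (Nat.blt (d0 + d1 + d2) σ || (Nat.blt (d3 + d4 + d5) σ || (Nat.blt (2 + D) (S + 3 * σ) ||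
    ((Nat.beq D 3 && absu_r c01 c02 c03 c04 c05 c12 c13 c14 c15 c23 c24 c25 c34 c35 c45 d0 d1 d2
      d3 d4 d5 w0 w1 w2 w3 w4 w5) ||
    absu_v (cond (Nat.beq (S + 3 * σ) (2 + D)) (2 - 2 * σ) (3 - 2 * σ)) fun G =>
    absu_g G c01 c02 c03 c04 c05 c12 c13 c14 c15 c23 c24 c25 c34 c35 c45 u0 u1 u2 u3 u4 u5 w0 w1
      w2 w3 w4 w5))))

/-- the test for one graph -/
def absu_top (A c01 c02 c03 c04 c05 c12 c13 c14 c15 c23 c24 c25 c34 c35 c45 : ℕ) : Bool :=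
  absu_v A fun S => Nat.blt S 3 ||
    absu_v (c01 + c02 + c03 + c04 + c05) fun r0 =>
    absu_v (c01 + c12 + c13 + c14 + c15) fun r1 =>
    absu_v (c02 + c12 + c23 + c24 + c25) fun r2 =>
    absu_v (c03 + c13 + c23 + c34 + c35) fun r3 =>
    absu_v (c04 + c14 + c24 + c34 + c45) fun r4 =>
    absu_v (c05 + c15 + c25 + c35 + c45) fun r5 =>
    absu_s S r0 fun s0 k1 =>
    absu_s k1 r1 fun s1 k2 =>
    absu_s k2 r2 fun s2 k3 =>
    absu_s k3 r3 fun s3 k4 =>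
    absu_s k4 r4 fun s4 k5 =>
    absu_s k5 r5 fun s5 k6 =>
    Nat.blt k6 5 || absu_b fun σ =>
    absu_d σ (s0 + r0) c12 fun d0 w0 =>
    absu_d σ (s1 + r1) c02 fun d1 w1 =>
    absu_d σ (s2 + r2) c01 fun d2 w2 =>
    absu_d σ (s3 + r3) c45 fun d3 w3 =>
    absu_d σ (s4 + r4) c35 fun d4 w4 =>
    absu_d σ (s5 + r5) c34 fun d5 w5 =>
    absu_fin σ (5 - S) c01 c02 c03 c04 c05 c12 c13 c14 c15 c23 c24 c25 c34 c35 c45 (s0 + r0) (s1 +
      r1) (s2 + r2) (s3 + r3) (s4 + r4) (s5 + r5) d0 d1 d2 d3 d4 d5 w0 w1 w2 w3 w4 w5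

private theorem abuk_v (n : ℕ) (f : ℕ → Bool) : absu_v n f = f n := by
  have c : ∀ {k : ℕ} {x : Bool}, x = f n → cond (Nat.beq n k) (f k) x = f n := fun {k x} h => by
    cases e : Nat.beq n k
    · exact h
    · rw [Nat.eq_of_beq_eq_true e]
      rfl
  exact c (c (c (c (c (c rfl)))))

/-- the instances of `d12` which apply to a graph -/
private def abuk_L (c03 c04 c05 c13 c14 c15 c23 c24 c25 u0 u1 u2 u3 u4 u5 : ℕ) :
    List (Bool × (ℕ → ℕ → ℕ → ℕ → ℕ → ℕ → ℕ → Bool)) :=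
  List.filter (fun p => p.1)
  [(Nat.blt 0 c04 && (Nat.blt 0 c05 && Nat.blt 0 u3),
    fun G _ w1 w2 w3 w4 w5 => Nat.blt G (gainT w1 w2 + gainT w3 (w4 + w5))),
   (Nat.blt 0 c03 && (Nat.blt 0 c05 && Nat.blt 0 u4),
    fun G _ w1 w2 w3 w4 w5 => Nat.blt G (gainT w1 w2 + gainT w4 (w3 + w5))),
   (Nat.blt 0 c03 && (Nat.blt 0 c04 && Nat.blt 0 u5),
    fun G _ w1 w2 w3 w4 w5 => Nat.blt G (gainT w1 w2 + gainT w5 (w3 + w4))),
   (Nat.blt 0 c14 && (Nat.blt 0 c15 && Nat.blt 0 u3),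
    fun G w0 _ w2 w3 w4 w5 => Nat.blt G (gainT w0 w2 + gainT w3 (w4 + w5))),
   (Nat.blt 0 c13 && (Nat.blt 0 c15 && Nat.blt 0 u4),
    fun G w0 _ w2 w3 w4 w5 => Nat.blt G (gainT w0 w2 + gainT w4 (w3 + w5))),
   (Nat.blt 0 c13 && (Nat.blt 0 c14 && Nat.blt 0 u5),
    fun G w0 _ w2 w3 w4 w5 => Nat.blt G (gainT w0 w2 + gainT w5 (w3 + w4))),
   (Nat.blt 0 c24 && (Nat.blt 0 c25 && Nat.blt 0 u3),
    fun G w0 w1 _ w3 w4 w5 => Nat.blt G (gainT w0 w1 + gainT w3 (w4 + w5))),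
   (Nat.blt 0 c23 && (Nat.blt 0 c25 && Nat.blt 0 u4),
    fun G w0 w1 _ w3 w4 w5 => Nat.blt G (gainT w0 w1 + gainT w4 (w3 + w5))),
   (Nat.blt 0 c23 && (Nat.blt 0 c24 && Nat.blt 0 u5),
    fun G w0 w1 _ w3 w4 w5 => Nat.blt G (gainT w0 w1 + gainT w5 (w3 + w4))),
   (Nat.blt 0 c13 && (Nat.blt 0 c23 && Nat.blt 0 u0),
    fun G w0 w1 w2 _ w4 w5 => Nat.blt G (gainT w4 w5 + gainT w0 (w1 + w2))),
   (Nat.blt 0 c03 && (Nat.blt 0 c23 && Nat.blt 0 u1),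
    fun G w0 w1 w2 _ w4 w5 => Nat.blt G (gainT w4 w5 + gainT w1 (w0 + w2))),
   (Nat.blt 0 c03 && (Nat.blt 0 c13 && Nat.blt 0 u2),
    fun G w0 w1 w2 _ w4 w5 => Nat.blt G (gainT w4 w5 + gainT w2 (w0 + w1))),
   (Nat.blt 0 c14 && (Nat.blt 0 c24 && Nat.blt 0 u0),
    fun G w0 w1 w2 w3 _ w5 => Nat.blt G (gainT w3 w5 + gainT w0 (w1 + w2))),
   (Nat.blt 0 c04 && (Nat.blt 0 c24 && Nat.blt 0 u1),
    fun G w0 w1 w2 w3 _ w5 => Nat.blt G (gainT w3 w5 + gainT w1 (w0 + w2))),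
   (Nat.blt 0 c04 && (Nat.blt 0 c14 && Nat.blt 0 u2),
    fun G w0 w1 w2 w3 _ w5 => Nat.blt G (gainT w3 w5 + gainT w2 (w0 + w1))),
   (Nat.blt 0 c15 && (Nat.blt 0 c25 && Nat.blt 0 u0),
    fun G w0 w1 w2 w3 w4 _ => Nat.blt G (gainT w3 w4 + gainT w0 (w1 + w2))),
   (Nat.blt 0 c05 && (Nat.blt 0 c25 && Nat.blt 0 u1),
    fun G w0 w1 w2 w3 w4 _ => Nat.blt G (gainT w3 w4 + gainT w1 (w0 + w2))),
   (Nat.blt 0 c05 && (Nat.blt 0 c15 && Nat.blt 0 u2),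
    fun G w0 w1 w2 w3 w4 _ => Nat.blt G (gainT w3 w4 + gainT w2 (w0 + w1)))]

/-- the patterns excluded by counting -/
private def abuk_s (σ S d0 d1 d2 d3 d4 d5 : ℕ) : Bool :=
  Nat.blt 3 (d0 + d1 + d2 + d3 + d4 + d5) || (Nat.blt (d0 + d1 + d2) σ ||
    (Nat.blt (d3 + d4 + d5) σ || Nat.blt (2 + (d0 + d1 + d2 + d3 + d4 + d5)) (S + 3 * σ)))

/-- the bound for the gain -/
private def abuk_G (σ S d0 d1 d2 d3 d4 d5 : ℕ) : ℕ :=
  cond (Nat.beq (S + 3 * σ) (2 + (d0 + d1 + d2 + d3 + d4 + d5))) (2 - 2 * σ) (3 - 2 * σ)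

private theorem abuk_fin (σ S c01 c02 c03 c04 c05 c12 c13 c14 c15 c23 c24 c25 c34 c35 c45 u0 u1 u2 u3 u4
    u5 d0 d1 d2 d3 d4 d5 w0 w1 w2 w3 w4 w5 : ℕ) :
    absu_fin σ S c01 c02 c03 c04 c05 c12 c13 c14 c15 c23 c24 c25 c34 c35 c45 u0 u1 u2 u3 u4 u5 d0
      d1 d2 d3 d4 d5 w0 w1 w2 w3 w4 w5 = (abuk_s σ S d0 d1 d2 d3 d4 d5 ||
      ((absu_v (abuk_G σ S d0 d1 d2 d3 d4 d5) fun G =>
        (abuk_L c03 c04 c05 c13 c14 c15 c23 c24 c25 u0 u1 u2 u3 u4 u5).any fun p =>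
          p.2 G w0 w1 w2 w3 w4 w5) || (Nat.beq (d0 + d1 + d2 + d3 + d4 + d5) 3 &&
        absu_r c01 c02 c03 c04 c05 c12 c13 c14 c15 c23 c24 c25 c34 c35 c45 d0 d1 d2 d3 d4 d5 w0 w1
          w2 w3 w4 w5))) := by
  have e : ∀ G, ((abuk_L c03 c04 c05 c13 c14 c15 c23 c24 c25 u0 u1 u2 u3 u4 u5).any fun p =>
      p.2 G w0 w1 w2 w3 w4 w5) = absu_g G c01 c02 c03 c04 c05 c12 c13 c14 c15 c23 c24 c25 c34 c35 c45
        u0 u1 u2 u3 u4 u5 w0 w1 w2 w3 w4 w5 := fun G => by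
    simp only [abuk_L, List.any_filter, List.any_cons, List.any_nil, Bool.or_false, absu_g, absu_e,
      Bool.and_assoc]
  simp only [absu_fin, abuk_v, e, abuk_s, abuk_G, Bool.or_assoc]
  rw [Bool.or_comm (Nat.beq _ 3 && _)]

private def abuk_e (σ S u0 u1 u2 u3 u4 u5 m0 m1 m2 m3 m4 m5 : ℕ)
    (L : List (Bool × (ℕ → ℕ → ℕ → ℕ → ℕ → ℕ → ℕ → Bool)))
    (R : ℕ → ℕ → ℕ → ℕ → ℕ → ℕ → ℕ → ℕ → ℕ → ℕ → ℕ → ℕ → Bool) : Bool :=
  absu_d σ u0 m0 fun d0 w0 => absu_d σ u1 m1 fun d1 w1 => absu_d σ u2 m2 fun d2 w2 =>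
  absu_d σ u3 m3 fun d3 w3 => absu_d σ u4 m4 fun d4 w4 => absu_d σ u5 m5 fun d5 w5 =>
  abuk_s σ S d0 d1 d2 d3 d4 d5 ||
    ((absu_v (abuk_G σ S d0 d1 d2 d3 d4 d5) fun G => L.any fun p => p.2 G w0 w1 w2 w3 w4 w5) ||
      (Nat.beq (d0 + d1 + d2 + d3 + d4 + d5) 3 && R d0 d1 d2 d3 d4 d5 w0 w1 w2 w3 w4 w5))

/-- no value of `δ` fits -/
private def abuk_x (u m : ℕ) : Bool := Nat.blt 0 m && Nat.blt u 3

private theorem abuk_x_spec {σ u m : ℕ} {f : ℕ → ℕ → Bool} (h : abuk_x u m = true) :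
    absu_d σ u m f = true := by
  simp only [abuk_x, Bool.and_eq_true] at h
  have h2 := Nat.blt_eq.mp h.2
  have e1 : Nat.blt u 4 = true := Nat.blt_eq.mpr (by omega)
  have e2 : Nat.blt (u + 1) 4 = true := Nat.blt_eq.mpr (by omega)
  simp only [absu_d, absu_w, h.1, e1, e2, cond_true, Bool.true_or, Bool.or_true, Bool.and_self]

private theorem abuk_all {σ u m : ℕ} {f : ℕ → ℕ → Bool} (h : ∀ d w, f d w = true) :
    absu_d σ u m f = true := by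
  simp only [absu_d, absu_w, abuk_v, h, Bool.or_true, Bool.cond_self, Bool.and_self]

private theorem abuk_e_eq (S u0 u1 u2 u3 u4 u5 m0 m1 m2 m3 m4 m5 : ℕ)
    (L : List (Bool × (ℕ → ℕ → ℕ → ℕ → ℕ → ℕ → ℕ → Bool)))
    (R : ℕ → ℕ → ℕ → ℕ → ℕ → ℕ → ℕ → ℕ → ℕ → ℕ → ℕ → ℕ → Bool) :
    (abuk_x u0 m0 || (abuk_x u1 m1 || (abuk_x u2 m2 || (abuk_x u3 m3 || (abuk_x u4 m4 ||
      (abuk_x u5 m5 || absu_b fun σ => abuk_e σ S u0 u1 u2 u3 u4 u5 m0 m1 m2 m3 m4 m5 L R)))))) =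
      absu_b fun σ => abuk_e σ S u0 u1 u2 u3 u4 u5 m0 m1 m2 m3 m4 m5 L R := by
  have k : ∀ {a b c : Bool}, (a = true → c = true) → b = c → (a || b) = c := by decide
  have b : ∀ {f : ℕ → Bool}, (∀ σ, f σ = true) → absu_b f = true := fun h => by
    rw [absu_b, h, h]
    rfl
  exact k (fun h => b fun _ => abuk_x_spec h) (k (fun h => b fun _ => abuk_all fun _ _ =>
    abuk_x_spec h) (k (fun h => b fun _ => abuk_all fun _ _ => abuk_all fun _ _ => abuk_x_spec h)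
    (k (fun h => b fun _ => abuk_all fun _ _ => abuk_all fun _ _ => abuk_all fun _ _ =>
      abuk_x_spec h) (k (fun h => b fun _ => abuk_all fun _ _ => abuk_all fun _ _ =>
      abuk_all fun _ _ => abuk_all fun _ _ => abuk_x_spec h) (k (fun h => b fun _ =>
      abuk_all fun _ _ => abuk_all fun _ _ => abuk_all fun _ _ => abuk_all fun _ _ =>
      abuk_all fun _ _ => abuk_x_spec h) rfl)))))

private def abuk_d (c01 c02 c03 c04 c05 c12 c13 c14 c15 c23 c24 c25 c34 c35 c45 S u0 u1 u2 u3 u4 u5 : ℕ) :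
    Bool :=
  abuk_x u0 c12 || (abuk_x u1 c02 || (abuk_x u2 c01 || (abuk_x u3 c45 || (abuk_x u4 c35 ||
  (abuk_x u5 c34 || absu_b fun σ => abuk_e σ S u0 u1 u2 u3 u4 u5 c12 c02 c01 c45 c35 c34
    (abuk_L c03 c04 c05 c13 c14 c15 c23 c24 c25 u0 u1 u2 u3 u4 u5)
    (absu_r c01 c02 c03 c04 c05 c12 c13 c14 c15 c23 c24 c25 c34 c35 c45))))))

private def abuk_c (S r0 r1 r2 r3 r4 r5 : ℕ) (K : ℕ → ℕ → ℕ → ℕ → ℕ → ℕ → ℕ → Bool) : Bool :=
  absu_s S r0 fun s0 k1 => absu_s k1 r1 fun s1 k2 => absu_s k2 r2 fun s2 k3 =>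
  absu_s k3 r3 fun s3 k4 => absu_s k4 r4 fun s4 k5 => absu_s k5 r5 fun s5 k6 =>
  Nat.blt k6 5 || K (5 - S) (s0 + r0) (s1 + r1) (s2 + r2) (s3 + r3) (s4 + r4) (s5 + r5)

private def abuk_b (S t0 t1 t2 t3 t4 t5 : ℕ) (K : ℕ → ℕ → ℕ → ℕ → ℕ → ℕ → ℕ → Bool) : Bool :=
  absu_v t0 fun r0 => absu_v t1 fun r1 => absu_v t2 fun r2 => absu_v t3 fun r3 =>
  absu_v t4 fun r4 => absu_v t5 fun r5 => abuk_c S r0 r1 r2 r3 r4 r5 K

private def abuk_top (A c01 c02 c03 c04 c05 c12 c13 c14 c15 c23 c24 c25 c34 c35 c45 : ℕ) : Bool :=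
  absu_v A fun S => Nat.blt S 3 ||
    abuk_b S (c01 + c02 + c03 + c04 + c05) (c01 + c12 + c13 + c14 + c15)
      (c02 + c12 + c23 + c24 + c25) (c03 + c13 + c23 + c34 + c35) (c04 + c14 + c24 + c34 + c45)
      (c05 + c15 + c25 + c35 + c45)
      (abuk_d c01 c02 c03 c04 c05 c12 c13 c14 c15 c23 c24 c25 c34 c35 c45)

private theorem abuk_top_eq (A c01 c02 c03 c04 c05 c12 c13 c14 c15 c23 c24 c25 c34 c35 c45 : ℕ) :
    absu_top A c01 c02 c03 c04 c05 c12 c13 c14 c15 c23 c24 c25 c34 c35 c45 =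
      abuk_top A c01 c02 c03 c04 c05 c12 c13 c14 c15 c23 c24 c25 c34 c35 c45 := by
  simp only [absu_top, abuk_fin, abuk_top, abuk_b, abuk_c, abuk_d, abuk_e_eq]
  rfl

theorem absu_check : (absu_p 0 fun c01 a1 => absu_p a1 fun c02 a2 => absu_p a2 fun c03 a3 =>
    absu_p a3 fun c04 a4 => absu_p a4 fun c05 a5 => absu_p a5 fun c12 a6 => absu_p a6 fun c13 a7
    => absu_p a7 fun c14 a8 => absu_p a8 fun c15 a9 => absu_p a9 fun c23 a10 => absu_p a10 fun c24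
    a11 => absu_p a11 fun c25 a12 => absu_p a12 fun c34 a13 => absu_p a13 fun c35 a14 => absu_p
    a14 fun c45 a15 => absu_top a15 c01 c02 c03 c04 c05 c12 c13 c14 c15 c23 c24 c25 c34 c35 c45) =
    true := by
  simp only [abuk_top_eq]
  decide +kernel

theorem absu_b_spec {f : ℕ → Bool} (h : absu_b f = true) {n : ℕ} (hn : n ≤ 1) : f n = true := by
  rw [absu_b, Bool.and_eq_true] at h
  rcases Nat.le_one_iff_eq_zero_or_eq_one.1 hn with rfl | rfl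
  exacts [h.1, h.2]

theorem absu_c {n k : ℕ} {f : ℕ → Bool} {x : Bool} (h : x = f n) :
    cond (Nat.beq n k) (f k) x = f n := by
  cases e : Nat.beq n k
  · exact h
  · rw [Nat.eq_of_beq_eq_true e]
    rfl

theorem absu_v_spec {n : ℕ} {f : ℕ → Bool} (h : absu_v n f = true) : f n = true :=
  (absu_c (absu_c (absu_c (absu_c (absu_c (absu_c rfl)))))).symm.trans h

theorem absu_or {a b : ℕ} {x : Bool} (h : (Nat.blt a b || x) = true) (hn : b ≤ a) : x = true := by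
  rw [Bool.or_eq_true, Nat.blt_eq] at h
  exact h.resolve_left (by omega)

theorem absu_p_spec {a : ℕ} {f : ℕ → ℕ → Bool} (h : absu_p a f = true) {n : ℕ} (h1 : n ≤ 1)
    (hn : a + n ≤ 5) : f n (a + n) = true := by
  rw [absu_p, Bool.and_eq_true] at h
  rcases Nat.le_one_iff_eq_zero_or_eq_one.1 h1 with rfl | rfl
  exacts [h.1, absu_or h.2 (by omega)]

theorem absu_s_spec {a r : ℕ} {f : ℕ → ℕ → Bool} (h : absu_s a r f = true) {n : ℕ} (h2 : n ≤ 2)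
    (hn : a + n ≤ 5) (hr : 1 ≤ n → r = 0) : f n (a + n) = true := by
  rw [absu_s, Bool.and_eq_true] at h
  rcases Nat.eq_zero_or_pos n with rfl | h0
  · exact h.1
  · have h3 := absu_or h.2 (hr h0).le
    rw [Bool.and_eq_true] at h3
    obtain rfl | rfl : n = 1 ∨ n = 2 := by omega
    exacts [absu_or h3.1 (by omega), absu_or h3.2 (by omega)]

theorem absu_w_spec {t m : ℕ} {f : ℕ → Bool} (h : absu_w t m f = true) {w : ℕ} (hs : t + w = 4)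
    (hm : 1 ≤ m → w = 0) : f w = true := by
  have h1 := absu_or h (by omega)
  cases e : Nat.blt 0 m
  · rw [e] at h1
    have h2 := absu_v_spec h1
    rwa [show 4 - t = w by omega] at h2
  · rw [e] at h1
    have h2 := hm (Nat.blt_eq.mp e)
    rw [h2]
    exact absu_or h1 (by omega)

theorem absu_d_spec {σ u m : ℕ} {f : ℕ → ℕ → Bool} (h : absu_d σ u m f = true) {d w : ℕ}
    (hσ : σ ≤ 1) (hd : d ≤ σ) (hs : u + w + d = 4) (hm : 1 ≤ m → w = 0) : f d w = true := by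
  rw [absu_d, Bool.and_eq_true] at h
  obtain rfl | rfl : d = 0 ∨ d = 1 := by omega
  · exact absu_w_spec h.1 hs hm
  · exact absu_w_spec (absu_or h.2 hd) (by omega) hm

theorem absu_t_spec {c : Fin 6 → Fin 6 → ℕ} {dw δ : Fin 6 → ℕ}
    (r4 : ∀ x y z, x ≠ y → x ≠ z → y ≠ z → 1 ≤ c x y → 1 ≤ dw z →
      (∀ w, w ≠ x → w ≠ y → w ≠ z → δ w = 1) → False) (x y z a b e : Fin 6)
    (hd : x ≠ y ∧ x ≠ z ∧ y ≠ z ∧ ∀ w, w ≠ x → w ≠ y → w ≠ z → w = a ∨ w = b ∨ w = e)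
    (h : absu_t (δ a) (δ b) (δ e) (c x y) (c x z) (c y z) (dw x) (dw y) (dw z) = true) : False := by
  simp only [absu_t, Bool.or_eq_true, Bool.and_eq_true, Nat.beq_eq, Nat.blt_eq] at h
  obtain ⟨h1, h2, h3, h4⟩ := hd
  have k : ∀ w, w ≠ x → w ≠ y → w ≠ z → δ w = 1 := fun w a1 a2 a3 => by
    rcases h4 w a1 a2 a3 with rfl | rfl | rfl
    exacts [h.1, h.2.1, h.2.2.1]
  rcases h.2.2.2 with q | q | q
  · exact r4 x y z h1 h2 h3 q.1 q.2 k
  · exact r4 x z y h2 h1 h3.symm q.1 q.2 fun w a1 a2 a3 => k w a1 a3 a2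
  · exact r4 y z x h3 h1.symm h2.symm q.1 q.2 fun w a1 a2 a3 => k w a3 a1 a2

theorem absu_e_spec {c : Fin 6 → Fin 6 → ℕ} {du dw : Fin 6 → ℕ} {g G : ℕ} (hG : g ≤ G)
    (d12 : ∀ x y z x' y' z', Tri x y z → Tri x' y' z' → side x ≠ side x' → 1 ≤ du x' →
      1 ≤ c z y' → 1 ≤ c z z' → gainT (dw x) (dw y) + gainT (dw x') (dw y' + dw z') ≤ g)
    (x y z x' y' z' : Fin 6)
    (hd : (x ≠ y ∧ x ≠ z ∧ y ≠ z ∧ side x = side y ∧ side x = side z) ∧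
      (x' ≠ y' ∧ x' ≠ z' ∧ y' ≠ z' ∧ side x' = side y' ∧ side x' = side z') ∧ side x ≠ side x')
    {c1 c2 : ℕ} (e1 : c1 = c z y') (e2 : c2 = c z z')
    (h : absu_e G (du x') c1 c2 (dw x) (dw y) (dw x') (dw y') (dw z') = true) : False := by
  simp only [absu_e, Bool.and_eq_true, Nat.blt_eq, e1, e2] at h
  have := d12 x y z x' y' z' hd.1 hd.2.1 hd.2.2 h.2.2.1 h.1 h.2.1
  omega

theorem absu_sum (f : Fin 6 → ℕ) : ∑ x, f x = f 0 + f 1 + f 2 + f 3 + f 4 + f 5 := by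
  have e : (univ : Finset (Fin 6)) = {0, 1, 2, 3, 4, 5} := by decide
  rw [e, sum_insert (by decide), sum_insert (by decide), sum_insert (by decide),
    sum_insert (by decide), sum_insert (by decide), sum_singleton]
  omega

theorem absu_r_spec {c : Fin 6 → Fin 6 → ℕ} {dw δ : Fin 6 → ℕ}
    (r4 : ∀ x y z, x ≠ y → x ≠ z → y ≠ z → 1 ≤ c x y → 1 ≤ dw z →
      (∀ w, w ≠ x → w ≠ y → w ≠ z → δ w = 1) → False)
    (h : absu_r (c 0 1) (c 0 2) (c 0 3) (c 0 4) (c 0 5) (c 1 2) (c 1 3) (c 1 4) (c 1 5) (c 2 3) (c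
      2 4) (c 2 5) (c 3 4) (c 3 5) (c 4 5) (δ 0) (δ 1) (δ 2) (δ 3) (δ 4) (δ 5) (dw 0) (dw 1) (dw
      2) (dw 3) (dw 4) (dw 5) = true) : False := by
  simp only [absu_r, Bool.or_eq_true] at h
  rcases h with h | h | h | h | h | h | h | h | h | h | h | h | h | h | h | h | h | h
  · exact absu_t_spec r4 0 1 3 2 4 5 (by decide) h
  · exact absu_t_spec r4 0 1 4 2 3 5 (by decide) h
  · exact absu_t_spec r4 0 1 5 2 3 4 (by decide) h
  · exact absu_t_spec r4 0 2 3 1 4 5 (by decide) h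
  · exact absu_t_spec r4 0 2 4 1 3 5 (by decide) h
  · exact absu_t_spec r4 0 2 5 1 3 4 (by decide) h
  · exact absu_t_spec r4 0 3 4 1 2 5 (by decide) h
  · exact absu_t_spec r4 0 3 5 1 2 4 (by decide) h
  · exact absu_t_spec r4 0 4 5 1 2 3 (by decide) h
  · exact absu_t_spec r4 1 2 3 0 4 5 (by decide) h
  · exact absu_t_spec r4 1 2 4 0 3 5 (by decide) h
  · exact absu_t_spec r4 1 2 5 0 3 4 (by decide) h
  · exact absu_t_spec r4 1 3 4 0 2 5 (by decide) h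
  · exact absu_t_spec r4 1 3 5 0 2 4 (by decide) h
  · exact absu_t_spec r4 1 4 5 0 2 3 (by decide) h
  · exact absu_t_spec r4 2 3 4 0 1 5 (by decide) h
  · exact absu_t_spec r4 2 3 5 0 1 4 (by decide) h
  · exact absu_t_spec r4 2 4 5 0 1 3 (by decide) h

theorem absu_g_spec {c : Fin 6 → Fin 6 → ℕ} {du dw : Fin 6 → ℕ} {g G : ℕ} (hG : g ≤ G)
    (hc : ∀ x y, c x y = c y x)
    (d12 : ∀ x y z x' y' z', Tri x y z → Tri x' y' z' → side x ≠ side x' → 1 ≤ du x' →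
      1 ≤ c z y' → 1 ≤ c z z' → gainT (dw x) (dw y) + gainT (dw x') (dw y' + dw z') ≤ g)
    (h : absu_g G (c 0 1) (c 0 2) (c 0 3) (c 0 4) (c 0 5) (c 1 2) (c 1 3) (c 1 4) (c 1 5) (c 2 3)
      (c 2 4) (c 2 5) (c 3 4) (c 3 5) (c 4 5) (du 0) (du 1) (du 2) (du 3) (du 4) (du 5) (dw 0) (dw
      1) (dw 2) (dw 3) (dw 4) (dw 5) = true) : False := by
  simp only [absu_g, Bool.or_eq_true] at h
  rcases h with h | h | h | h | h | h | h | h | h | h | h | h | h | h | h | h | h | h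
  · exact absu_e_spec hG d12 1 2 0 3 4 5 (by decide) rfl rfl h
  · exact absu_e_spec hG d12 1 2 0 4 3 5 (by decide) rfl rfl h
  · exact absu_e_spec hG d12 1 2 0 5 3 4 (by decide) rfl rfl h
  · exact absu_e_spec hG d12 0 2 1 3 4 5 (by decide) rfl rfl h
  · exact absu_e_spec hG d12 0 2 1 4 3 5 (by decide) rfl rfl h
  · exact absu_e_spec hG d12 0 2 1 5 3 4 (by decide) rfl rfl h
  · exact absu_e_spec hG d12 0 1 2 3 4 5 (by decide) rfl rfl h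
  · exact absu_e_spec hG d12 0 1 2 4 3 5 (by decide) rfl rfl h
  · exact absu_e_spec hG d12 0 1 2 5 3 4 (by decide) rfl rfl h
  · exact absu_e_spec hG d12 4 5 3 0 1 2 (by decide) (hc _ _) (hc _ _) h
  · exact absu_e_spec hG d12 4 5 3 1 0 2 (by decide) (hc _ _) (hc _ _) h
  · exact absu_e_spec hG d12 4 5 3 2 0 1 (by decide) (hc _ _) (hc _ _) h
  · exact absu_e_spec hG d12 3 5 4 0 1 2 (by decide) (hc _ _) (hc _ _) h
  · exact absu_e_spec hG d12 3 5 4 1 0 2 (by decide) (hc _ _) (hc _ _) h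
  · exact absu_e_spec hG d12 3 5 4 2 0 1 (by decide) (hc _ _) (hc _ _) h
  · exact absu_e_spec hG d12 3 4 5 0 1 2 (by decide) (hc _ _) (hc _ _) h
  · exact absu_e_spec hG d12 3 4 5 1 0 2 (by decide) (hc _ _) (hc _ _) h
  · exact absu_e_spec hG d12 3 4 5 2 0 1 (by decide) (hc _ _) (hc _ _) h

theorem absu_num {S A σ e g d0 d1 d2 d3 d4 d5 : ℕ} (hS : S + A = 5) (hσ : σ ≤ 1) (h0 : d0 ≤ σ)
    (h1 : d1 ≤ σ) (h2 : d2 ≤ σ) (h3 : d3 ≤ σ) (h4 : d4 ≤ σ) (h5 : d5 ≤ σ)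
    (hd : d0 + d1 + d2 + d3 + d4 + d5 ≤ 3) (hT : σ = 1 → 1 ≤ d0 + d1 + d2 ∧ 1 ≤ d3 + d4 + d5)
    (he : A + 3 * σ ≤ e + (d0 + d1 + d2 + d3 + d4 + d5)) (he2 : e ≤ 2) (hg : g + 2 * σ ≤ 3)
    (hg2 : e = 2 → g + 2 * σ ≤ 2) :
    A ≤ 2 ∧ σ ≤ d0 + d1 + d2 ∧ σ ≤ d3 + d4 + d5 ∧
      5 - S + 3 * σ ≤ 2 + (d0 + d1 + d2 + d3 + d4 + d5) ∧
      g ≤ cond (Nat.beq (5 - S + 3 * σ) (2 + (d0 + d1 + d2 + d3 + d4 + d5))) (2 - 2 * σ)
        (3 - 2 * σ) := by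
  refine ⟨by omega, by omega, by omega, by omega, ?_⟩
  cases e' : Nat.beq (5 - S + 3 * σ) (2 + (d0 + d1 + d2 + d3 + d4 + d5))
  · rw [cond_false]
    omega
  · have := Nat.eq_of_beq_eq_true e'
    rw [cond_true]
    omega

theorem absU (c : Fin 6 → Fin 6 → ℕ) (s du dw δ : Fin 6 → ℕ) (g σ e : ℕ)
    (hc : ∀ x y, c x y = c y x) (hc1 : ∀ x y, x ≠ y → c x y ≤ 1)
    (hdu : ∀ x, du x = s x + ∑ y ∈ univ.erase x, c x y)
    (htot : ∑ x, du x + ∑ x, s x = 10)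
    (hsip : ∀ x y, x ≠ y → 1 ≤ s x → c x y = 0)
    (hsum : ∀ x, du x + dw x + δ x = 4)
    (hσ : σ ≤ 1) (hδ : ∀ x, δ x ≤ σ) (hδ3 : ∑ x, δ x ≤ 3)
    (hδT : σ = 1 → 1 ≤ δ 0 + δ 1 + δ 2 ∧ 1 ≤ δ 3 + δ 4 + δ 5)
    (he : ∑ x, s x + 3 * σ ≤ e + ∑ x, δ x) (he2 : e ≤ 2)
    (hg : g + 2 * σ ≤ 3) (hg2 : e = 2 → g + 2 * σ ≤ 2)
    (r1 : ∀ x y z, Tri x y z → 1 ≤ c x y → dw z = 0)
    (d12 : ∀ x y z x' y' z', Tri x y z → Tri x' y' z' → side x ≠ side x' → 1 ≤ du x' →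
      1 ≤ c z y' → 1 ≤ c z z' → gainT (dw x) (dw y) + gainT (dw x') (dw y' + dw z') ≤ g)
    (r4 : ∑ x, δ x = 3 → ∀ x y z, x ≠ y → x ≠ z → y ≠ z → 1 ≤ c x y → 1 ≤ dw z →
      (∀ w, w ≠ x → w ≠ y → w ≠ z → δ w = 1) → False) : False := by
  have row : ∀ x, du x + c x x = s x + (c x 0 + c x 1 + c x 2 + c x 3 + c x 4 + c x 5) := by
    intro x
    rw [hdu x, add_assoc, sum_erase_add _ _ (mem_univ x), absu_sum]
  have u0 : s 0 + (c 0 1 + c 0 2 + c 0 3 + c 0 4 + c 0 5) = du 0 := by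
    have := row 0
    omega
  have u1 : s 1 + (c 0 1 + c 1 2 + c 1 3 + c 1 4 + c 1 5) = du 1 := by
    have := row 1
    rw [hc 1 0] at this
    omega
  have u2 : s 2 + (c 0 2 + c 1 2 + c 2 3 + c 2 4 + c 2 5) = du 2 := by
    have := row 2
    rw [hc 2 0, hc 2 1] at this
    omega
  have u3 : s 3 + (c 0 3 + c 1 3 + c 2 3 + c 3 4 + c 3 5) = du 3 := by
    have := row 3
    rw [hc 3 0, hc 3 1, hc 3 2] at this
    omega
  have u4 : s 4 + (c 0 4 + c 1 4 + c 2 4 + c 3 4 + c 4 5) = du 4 := by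
    have := row 4
    rw [hc 4 0, hc 4 1, hc 4 2, hc 4 3] at this
    omega
  have u5 : s 5 + (c 0 5 + c 1 5 + c 2 5 + c 3 5 + c 4 5) = du 5 := by
    have := row 5
    rw [hc 5 0, hc 5 1, hc 5 2, hc 5 3, hc 5 4] at this
    omega
  rw [absu_sum] at hδ3 r4
  rw [absu_sum, absu_sum] at htot he
  obtain ⟨S, hS⟩ : ∃ S, 0 + c 0 1 + c 0 2 + c 0 3 + c 0 4 + c 0 5 + c 1 2 + c 1 3 + c 1 4 + c 1 5
    + c 2 3 + c 2 4 + c 2 5 + c 3 4 + c 3 5 + c 4 5 = S := ⟨_, rfl⟩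
  have hS' : S + (s 0 + s 1 + s 2 + s 3 + s 4 + s 5) = 5 := by
    linarith only [u0, u1, u2, u3, u4, u5, htot, hS]
  obtain ⟨k1, k2, k3, k4, k5⟩ := absu_num hS' hσ (hδ 0) (hδ 1) (hδ 2) (hδ 3) (hδ 4) (hδ 5) hδ3 hδT he
    he2 hg hg2
  clear hδT hg2 he he2 hg htot
  have h := absu_check
  replace h := absu_p_spec h (hc1 0 1 (by decide)) (by clear * - hS hS'; omega)
  replace h := absu_p_spec h (hc1 0 2 (by decide)) (by clear * - hS hS'; omega)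
  replace h := absu_p_spec h (hc1 0 3 (by decide)) (by clear * - hS hS'; omega)
  replace h := absu_p_spec h (hc1 0 4 (by decide)) (by clear * - hS hS'; omega)
  replace h := absu_p_spec h (hc1 0 5 (by decide)) (by clear * - hS hS'; omega)
  replace h := absu_p_spec h (hc1 1 2 (by decide)) (by clear * - hS hS'; omega)
  replace h := absu_p_spec h (hc1 1 3 (by decide)) (by clear * - hS hS'; omega)
  replace h := absu_p_spec h (hc1 1 4 (by decide)) (by clear * - hS hS'; omega)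
  replace h := absu_p_spec h (hc1 1 5 (by decide)) (by clear * - hS hS'; omega)
  replace h := absu_p_spec h (hc1 2 3 (by decide)) (by clear * - hS hS'; omega)
  replace h := absu_p_spec h (hc1 2 4 (by decide)) (by clear * - hS hS'; omega)
  replace h := absu_p_spec h (hc1 2 5 (by decide)) (by clear * - hS hS'; omega)
  replace h := absu_p_spec h (hc1 3 4 (by decide)) (by clear * - hS hS'; omega)
  replace h := absu_p_spec h (hc1 3 5 (by decide)) (by clear * - hS hS'; omega)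
  replace h := absu_p_spec h (hc1 4 5 (by decide)) (by clear * - hS hS'; omega)
  rw [absu_top, hS] at h
  replace h := absu_or (absu_v_spec h) (by clear * - hS' k1; omega)
  replace h := absu_v_spec (absu_v_spec (absu_v_spec (absu_v_spec (absu_v_spec (absu_v_spec h)))))
  replace h := absu_s_spec h (n := s 0) (by clear * - k1; omega) (by clear * - hS'; omega)
    fun a => by
    rw [hsip 0 1 (by decide) a, hsip 0 2 (by decide) a, hsip 0 3 (by decide) a, hsip 0 4 (by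
      decide) a, hsip 0 5 (by decide) a]
  replace h := absu_s_spec h (n := s 1) (by clear * - k1; omega) (by clear * - hS'; omega)
    fun a => by
    rw [hc 0 1, hsip 1 0 (by decide) a, hsip 1 2 (by decide) a, hsip 1 3 (by decide) a, hsip 1 4
      (by decide) a, hsip 1 5 (by decide) a]
  replace h := absu_s_spec h (n := s 2) (by clear * - k1; omega) (by clear * - hS'; omega)
    fun a => by
    rw [hc 0 2, hsip 2 0 (by decide) a, hc 1 2, hsip 2 1 (by decide) a, hsip 2 3 (by decide) a,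
      hsip 2 4 (by decide) a, hsip 2 5 (by decide) a]
  replace h := absu_s_spec h (n := s 3) (by clear * - k1; omega) (by clear * - hS'; omega)
    fun a => by
    rw [hc 0 3, hsip 3 0 (by decide) a, hc 1 3, hsip 3 1 (by decide) a, hc 2 3, hsip 3 2 (by
      decide) a, hsip 3 4 (by decide) a, hsip 3 5 (by decide) a]
  replace h := absu_s_spec h (n := s 4) (by clear * - k1; omega) (by clear * - hS'; omega)
    fun a => by
    rw [hc 0 4, hsip 4 0 (by decide) a, hc 1 4, hsip 4 1 (by decide) a, hc 2 4, hsip 4 2 (by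
      decide) a, hc 3 4, hsip 4 3 (by decide) a, hsip 4 5 (by decide) a]
  replace h := absu_s_spec h (n := s 5) (by clear * - k1; omega) (by clear * - hS'; omega)
    fun a => by
    rw [hc 0 5, hsip 5 0 (by decide) a, hc 1 5, hsip 5 1 (by decide) a, hc 2 5, hsip 5 2 (by
      decide) a, hc 3 5, hsip 5 3 (by decide) a, hc 4 5, hsip 5 4 (by decide) a]
  replace h := absu_b_spec (absu_or h (by clear * - hS'; omega)) hσ
  rw [u0, u1, u2, u3, u4, u5] at h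
  replace h := absu_d_spec h hσ (hδ 0) (hsum 0)
    (r1 1 2 0 ⟨by decide, by decide, by decide, by decide, by decide⟩)
  replace h := absu_d_spec h hσ (hδ 1) (hsum 1)
    (r1 0 2 1 ⟨by decide, by decide, by decide, by decide, by decide⟩)
  replace h := absu_d_spec h hσ (hδ 2) (hsum 2)
    (r1 0 1 2 ⟨by decide, by decide, by decide, by decide, by decide⟩)
  replace h := absu_d_spec h hσ (hδ 3) (hsum 3)
    (r1 4 5 3 ⟨by decide, by decide, by decide, by decide, by decide⟩)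
  replace h := absu_d_spec h hσ (hδ 4) (hsum 4)
    (r1 3 5 4 ⟨by decide, by decide, by decide, by decide, by decide⟩)
  replace h := absu_d_spec h hσ (hδ 5) (hsum 5)
    (r1 3 4 5 ⟨by decide, by decide, by decide, by decide, by decide⟩)
  rw [absu_fin] at h
  replace h := absu_or (absu_or (absu_or (absu_or (absu_v_spec h) hδ3) k2) k3) k4
  rw [Bool.or_eq_true, Bool.and_eq_true, Nat.beq_eq] at h
  rcases h with h | h
  · exact absu_r_spec (r4 h.1) h.2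
  · replace h := absu_v_spec h
    exact absu_g_spec k5 hc d12 h

end Pool.Agent.Work.MP_d266e7_co.C5
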