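import Pool.Agent.Work.MP_d266e7_co.C5.GPlus

/-!
First facts on `Bad`. Put `m = |H|`, `n = |cov H|`, `e = 3 n - 5 m`.
`arith`: `gplus`, `ee_eq`, omega.
`step`: `exists_step` gives `F`; `a = ((H \ star H t) \ un F).card`, `|out| = s + 1`,
`r = |F| ≤ a + 2` (`nl_all`, `step_card`). Summing `gplus` over the pieces:
`5 a + 2 s + 2 ≤ 3 r`. If `r ≤ a + 1` then `a = s = 0`, `r = 1` and we are done. If `r = a + 2`:
`∑ (m_i + 1) = ∑ 2 tau_i + 1`; each piece has `5 m_i + 9 + 14 tau_i ≤ 3 n_i + 7 (m_i + 1)`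
(`piece_two`, `gallai`, `gplus`); summing gives `a = 0`, `r = 2`, one piece `W1` has
`2 tau = m + 1`. Use `side2_of`, `Side2.n1` for `W2`, `Side2.g11`, `Side2.g12`, `gain_le` for `W1`
(a gain `g` forces `21 m1 + 33 + 6 g ≤ 12 n1`), `ee_slots` for `W2`
(`5 m2 + dd W2 (q 0) + dd W2 (q 1) + dd W2 (q 2) ≤ 3 n2`), `Fam.five`
(`4 ≤ dd W1 + dd W2 + s`, `dd W1 + dd W2 ≤ 4`); the numbers are contradictory (checked
separately).
-/

namespace Pool.Agent.Work.MP_d266e7_co.C5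

open Finset

variable {V : Type} [DecidableEq V]

theorem Bad.arith [Infinite V] {H : Finset (Finset V)} (hB : Bad H) :
    5 * H.card ≤ 3 * (cov H).card ∧ 3 * (cov H).card ≤ 5 * H.card + 2 ∧ 12 ≤ H.card ∧
      5 * H.card + 2 * (cov H).card + 2 ≤ 17 * tau H ∧
      (3 * (cov H).card = 5 * H.card + 2 → 5 * H.card + 2 * (cov H).card + 3 ≤ 17 * tau H) := by
  have a1 : GB H := gplus hB.cc hB.d3
  have a2 := ee_eq hB.cc.u5 hB.d3
  have a3 := hB.val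
  have a4 := hB.small
  unfold GB at a1
  have a5 : 5 * H.card ≤ 3 * (cov H).card := by omega
  have a6 : 17 * tau H ≤ 5 * H.card + 2 * (cov H).card + 3 := by omega
  clear a1 a2
  generalize tau H = k at *
  generalize H.card = m at *
  generalize (cov H).card = n at *
  have a7 : k = 0 ∨ k = 1 ∨ k = 2 ∨ k = 3 ∨ k = 4 ∨ k = 5 ∨ k = 6 ∨ k = 7 ∨ k = 8 ∨ k = 9 ∨
      k = 10 ∨ k = 11 ∨ k = 12 ∨ k = 13 ∨ k = 14 := by omega
  rcases a7 with h | h | h | h | h | h | h | h | h | h | h | h | h | h | h <;> subst h <;> omega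

/-- a proper piece has at least two hosted slots (`nl1`, `ee_slots`) -/
theorem piece_two {H W : Finset (Finset V)} (hH : CC H) (h3 : ∀ v, dg H v ≤ 3) (hW : CC W)
    (hs : W ⊆ H) (hx : ∃ x ∈ H, x ∉ W) : 5 * W.card + 2 ≤ 3 * (cov W).card := by
  have a1 := nl1 (N := (H \ W).filter fun x => 1 ≤ dd W x) hH hW hs hx fun x h1 h2 h4 =>
    mem_filter.2 ⟨mem_sdiff.2 ⟨h1, h2⟩, h4⟩
  have a2 := ee_slots hs hW.u5 h3
  have a3 : ((H \ W).filter fun x => 1 ≤ dd W x).card ≤ ∑ x ∈ H \ W, dd W x := by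
    rw [card_eq_sum_ones]
    exact (sum_le_sum fun x hx => (mem_filter.1 hx).2).trans
      (sum_le_sum_of_subset (filter_subset _ _))
  omega

theorem bad1_gain [Infinite V] {H W1 W2 : Finset (Finset V)} {q : Fin 3 → Finset V}
    (h : Side2 H W1 W2 q) (h3 : ∀ v, dg H v ≤ 3) (hv : 2 * tau W1 = W1.card + 1) {x y z : Fin 3}
    (hxy : x ≠ y) (hxz : x ≠ z) (hyz : y ≠ z) (hz : 1 ≤ dd W2 (q z)) :
    (3 ≤ dd W1 (q x) → 3 ≤ dd W1 (q y) → 5 * W1.card + 13 ≤ 3 * (cov W1).card) ∧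
    (2 ≤ dd W1 (q x) → 4 ≤ dd W1 (q y) → 5 * W1.card + 12 ≤ 3 * (cov W1).card) ∧
    (4 ≤ dd W1 (q x) → 2 ≤ dd W1 (q y) → 5 * W1.card + 12 ≤ 3 * (cov W1).card) ∧
    (2 ≤ dd W1 (q x) → 2 ≤ dd W1 (q y) → 5 * W1.card + 10 ≤ 3 * (cov W1).card) := by
  have g := h.g11 hxy hxz hyz hz
  have m := card_pos.2 h.c1.ne
  refine ⟨fun a b => ?_, fun a b => ?_, fun a b => ?_, fun a b => ?_⟩
  · have c := gain_le h.c1 h.s1 h3 (g.mono a b)
    have d : gainT 3 3 = 3 := rfl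
    omega
  · have c := gain_le h.c1 h.s1 h3 (g.mono a b)
    have d : gainT 2 4 = 2 := rfl
    omega
  · have c := gain_le h.c1 h.s1 h3 (g.mono a b)
    have d : gainT 4 2 = 2 := rfl
    omega
  · have c := gain_le h.c1 h.s1 h3 (g.mono a b)
    have d : gainT 2 2 = 1 := rfl
    omega

theorem bad1_num {a0 a1 a2 d0 d1 d2 e1 e2 s : ℕ} (h0 : 4 ≤ a0 + d0 + s) (h1 : 4 ≤ a1 + d1 + s)
    (h2 : 4 ≤ a2 + d2 + s) (hd : d0 + d1 + d2 ≤ e2) (he : e1 + e2 + 3 * s ≤ 14) (h9 : 9 ≤ e1)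
    (hn : (1 ≤ d0 ∧ 1 ≤ d1) ∨ (1 ≤ d0 ∧ 1 ≤ d2) ∨ (1 ≤ d1 ∧ 1 ≤ d2))
    (g0 : 1 ≤ d0 → (3 ≤ a1 → 3 ≤ a2 → 13 ≤ e1) ∧ (2 ≤ a1 → 4 ≤ a2 → 12 ≤ e1) ∧
      (4 ≤ a1 → 2 ≤ a2 → 12 ≤ e1) ∧ (2 ≤ a1 → 2 ≤ a2 → 10 ≤ e1))
    (g1 : 1 ≤ d1 → (3 ≤ a0 → 3 ≤ a2 → 13 ≤ e1) ∧ (2 ≤ a0 → 4 ≤ a2 → 12 ≤ e1) ∧
      (4 ≤ a0 → 2 ≤ a2 → 12 ≤ e1) ∧ (2 ≤ a0 → 2 ≤ a2 → 10 ≤ e1))
    (g2 : 1 ≤ d2 → (3 ≤ a0 → 3 ≤ a1 → 13 ≤ e1) ∧ (2 ≤ a0 → 4 ≤ a1 → 12 ≤ e1) ∧
      (4 ≤ a0 → 2 ≤ a1 → 12 ≤ e1) ∧ (2 ≤ a0 → 2 ≤ a1 → 10 ≤ e1)) : False := by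
  omega

theorem bad1_two [Infinite V] {H W1 W2 : Finset (Finset V)} {q : Fin 3 → Finset V}
    (h : Side2 H W1 W2 q) (h3 : ∀ v, dg H v ≤ 3) (hv : 2 * tau W1 = W1.card + 1) {s : ℕ}
    (h4 : ∀ x, 4 ≤ dd W1 (q x) + dd W2 (q x) + s)
    (he : 3 * (cov W1).card + 3 * (cov W2).card + 3 * s ≤ 5 * W1.card + 5 * W2.card + 14) :
    False := by
  have a1 : GB W1 := gplus h.c1 fun v => (dg_mono h.s1 v).trans (h3 v)
  unfold GB at a1
  have m := card_pos.2 h.c1.ne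
  have a2 := ee_slots h.s2 h.c2.u5 h3
  have a3 : dd W2 (q 0) + dd W2 (q 1) + dd W2 (q 2) ≤ ∑ x ∈ H \ W2, dd W2 x := by
    have n01 : q 0 ≠ q 1 := h.qinj.ne (by decide)
    have n02 : q 0 ≠ q 2 := h.qinj.ne (by decide)
    have n12 : q 1 ≠ q 2 := h.qinj.ne (by decide)
    have e : ∑ x ∈ ({q 0, q 1, q 2} : Finset (Finset V)), dd W2 x =
        dd W2 (q 0) + dd W2 (q 1) + dd W2 (q 2) := by
      rw [sum_insert (by simp [n01, n02]), sum_pair n12, add_assoc]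
    rw [← e]
    refine sum_le_sum_of_subset fun e he => ?_
    simp only [mem_insert, mem_singleton] at he
    rcases he with rfl | rfl | rfl <;> exact mem_sdiff.2 ⟨h.qmem _, h.q2 _⟩
  obtain ⟨e1, he1⟩ : ∃ e1, 3 * (cov W1).card = 5 * W1.card + e1 :=
    ⟨3 * (cov W1).card - 5 * W1.card, by omega⟩
  obtain ⟨e2, he2⟩ : ∃ e2, 3 * (cov W2).card = 5 * W2.card + e2 :=
    ⟨3 * (cov W2).card - 5 * W2.card, by omega⟩
  refine bad1_num (e1 := e1) (e2 := e2) (h4 0) (h4 1) (h4 2) (by omega) (by omega) (by omega)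
    h.symm.n1 (fun hz => ?_) (fun hz => ?_) (fun hz => ?_)
  · have := bad1_gain h h3 hv (x := 1) (y := 2) (z := 0) (by decide) (by decide) (by decide) hz
    omega
  · have := bad1_gain h h3 hv (x := 0) (y := 2) (z := 1) (by decide) (by decide) (by decide) hz
    omega
  · have := bad1_gain h h3 hv (x := 0) (y := 1) (z := 2) (by decide) (by decide) (by decide) hz
    omega

theorem Bad.step [Infinite V] {H : Finset (Finset V)} (hB : Bad H) {t : V} (ht : dg H t = 3) :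
    CC (H \ star H t) ∧ ∀ v ∈ cov H, v ≠ t → v ∈ cov (H \ star H t) := by
  have ht1 : 1 ≤ dg H t := by omega
  have h := hB.cc
  have h3 := hB.d3
  obtain ⟨F, hF0, hτ⟩ := exists_step h ht1
  have hF : Fam H F := hF0.mono sdiff_subset Subset.rfl
  have c1 := step_card hF0
  have c2 := hF.card_eq
  have c3 := hF.cov_eq
  have hto := step_out ht1 hF0
  have c6 : 0 < (cov H \ cov (un F)).card := card_pos.2 ⟨t, hto⟩
  obtain ⟨x, hx⟩ := card_pos.1 (show 0 < (H \ un F).card by omega)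
  have c7 : F.card + 1 ≤ (H \ un F).card := nl_all h hF ⟨x, mem_sdiff.1 hx⟩
  have hb : ∀ W ∈ F, 17 * tau W ≤ 5 * W.card + 2 * (cov W).card + 3 := fun W hWF => by
    have a1 : GB W := gplus (hF.cc W hWF) fun v => (dg_mono (hF.sub W hWF) v).trans (h3 v)
    unfold GB at a1
    omega
  have hg : ∀ W ∈ F, 2 * tau W ≤ W.card + 1 := fun W hWF =>
    gallai (hF.cc W hWF).u5.ne (hF.cc W hWF).crit (hF.cc W hWF).conn
  have hp : ∀ W ∈ F, 5 * W.card + 9 + 14 * tau W ≤ 3 * (cov W).card + 7 * (W.card + 1) :=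
    fun W hWF => by
      have a1 := hb W hWF
      have a2 := hg W hWF
      have a3 := piece_two h h3 (hF.cc W hWF) (hF.sub W hWF)
        ⟨x, (mem_sdiff.1 hx).1, fun c => (mem_sdiff.1 hx).2 (sub_un hWF c)⟩
      have a4 := card_pos.2 (hF.cc W hWF).ne
      omega
  have s1 := sum_le_sum hb
  have s2 := sum_le_sum hp
  simp only [sum_add_distrib, ← mul_sum, sum_const, Nat.nsmul_eq_mul] at s1 s2
  obtain ⟨b1, b2, -, b4, -⟩ := hB.arith
  have b5 := hB.val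
  have hcase : (F.card = 1 ∧ ((H \ star H t) \ un F).card = 0 ∧ (cov H \ cov (un F)).card = 1) ∨
      (F.card = 2 ∧ (H \ un F).card = 3) := by omega
  rcases hcase with ⟨f1, f2, f3⟩ | ⟨f1, f2⟩
  · obtain ⟨W, rfl⟩ := card_eq_one.1 f1
    have e : H \ star H t = un {W} :=
      Subset.antisymm (sdiff_eq_empty_iff_subset.1 (card_eq_zero.1 f2)) hF0.un_sub
    constructor
    · have e' : un {W} = W := by simp [un]
      rw [e, e']
      exact hF.cc W (mem_singleton_self _)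
    · intro v hv hvt
      rw [e]
      by_contra c
      exact hvt (card_le_one.1 f3.le v (mem_sdiff.2 ⟨hv, c⟩) t hto)
  · exfalso
    obtain ⟨W1, W2, hne, hFe⟩ := card_eq_two.1 f1
    have m1 : W1 ∈ F := hFe ▸ mem_insert_self _ _
    have m2 : W2 ∈ F := hFe ▸ mem_insert_of_mem (mem_singleton_self _)
    have hs : ∀ f : Finset (Finset V) → ℕ, ∑ W ∈ F, f W = f W1 + f W2 := fun f => by
      rw [hFe, sum_pair hne]
    rw [hs] at hτ c2 c3
    obtain ⟨q, hq, hq'⟩ := side2_of h hF hFe hne f2 (by omega)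
    have h4 : ∀ y, 4 ≤ dd W1 (q y) + dd W2 (q y) + ((cov H \ cov (un F)).card - 1) := fun y => by
      have := gplus_out hF h.u5 (mem_sdiff.1 (hq' y)).1
      rw [hs] at this
      omega
    have g1 := hg W1 m1
    have g2 := hg W2 m2
    by_cases hv : 2 * tau W1 = W1.card + 1
    · exact bad1_two hq h3 hv h4 (by omega)
    · exact bad1_two hq.symm h3 (s := (cov H \ cov (un F)).card - 1) (by omega)
        (fun y => by have := h4 y; omega) (by omega)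

theorem Bad.noin [Infinite V] {H : Finset (Finset V)} (hB : Bad H) (v w : V) (hv : v ∈ cov H)
    (hvw : v ≠ w) (hw : dg H w = 3) : ¬ star H v ⊆ star H w := by
  intro c
  obtain ⟨e, he, hve⟩ := mem_cov.1 ((hB.step hw).2 v hv hvw)
  exact (mem_sdiff.1 he).2 (c (mem_star.2 ⟨(mem_sdiff.1 he).1, hve⟩))

end Pool.Agent.Work.MP_d266e7_co.C5
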