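import Pool.Agent.Work.MP_d266e7_co.C5.Bad1

/-!
Double splits. `K = H \ star H t` is `CC` (`Bad.step`), `tau K + 1 = tau H` (`rem_tau`).
`ds_of`: `exists_step` in `K`. `exists_ds`: some vertex has degree three (else `5 m ≤ 2 n`,
`deg_count`), and in `K` as well (else `5 (m - 3) ≤ 2 (n - 1)`, `cov_star`).
`facts`: `nl_all` in `K` gives `|F| ≤ a + 2`; `∑ 2 tau_i = ∑ m_i + 2 + a` and `gallai` give
equality everywhere; each piece has `5 m_i + 9 ≤ 3 n_i` (`gplus`); `|out| = s + 2`;
summing `gplus` gives `a ≤ 2`, and `a = 2` forces `e = 2`, contradiction with `arith`.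
-/

namespace Pool.Agent.Work.MP_d266e7_co.C5

open Finset

variable {V : Type} [DecidableEq V]

/-- only hosts outside all pieces meet a given piece from outside -/
theorem Fam.sum_hosts {H : Finset (Finset V)} {F : Finset (Finset (Finset V))} (h : Fam H F)
    {W : Finset (Finset V)} (hW : W ∈ F) :
    ∑ x ∈ H \ W, dd W x = ∑ x ∈ H \ un F, dd W x := by
  refine (sum_subset (sdiff_subset_sdiff Subset.rfl (sub_un hW)) fun x hx hx' => ?_).symm
  have a := mem_sdiff.1 hx
  have b : x ∈ un F := by
    by_contra c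
    exact hx' (mem_sdiff.2 ⟨a.1, c⟩)
  obtain ⟨W', c, d⟩ := mem_un.1 b
  exact dd_sep (h.sep W hW W' c fun e => a.2 (e ▸ d)) d

theorem DS.symm {H : Finset (Finset V)} {t t' : V} {F : Finset (Finset (Finset V))}
    (h : DS H t t' F) : DS H t' t F := by
  exact ⟨h.d2, h.d1, h.dis.symm, union_comm (star H t) (star H t') ▸ h.fam, h.tau2⟩

theorem star_sdiff {H : Finset (Finset V)} {t t' : V} (h : Disjoint (star H t) (star H t')) :
    star (H \ star H t) t' = star H t' := by
  ext e
  constructor
  · intro he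
    obtain ⟨a, b⟩ := mem_star.1 he
    exact mem_star.2 ⟨(mem_sdiff.1 a).1, b⟩
  · intro he
    exact mem_star.2 ⟨mem_sdiff.2 ⟨(mem_star.1 he).1, fun c => disjoint_left.1 h c he⟩,
      (mem_star.1 he).2⟩

theorem sdiff_star {H : Finset (Finset V)} {t t' : V} (h : Disjoint (star H t) (star H t')) :
    (H \ star H t) \ star (H \ star H t) t' = H \ (star H t ∪ star H t') := by
  rw [star_sdiff h]
  ext e
  simp only [mem_sdiff, mem_union, not_or, and_assoc]

theorem DS.famH {H : Finset (Finset V)} {t t' : V} {F : Finset (Finset (Finset V))}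
    (h : DS H t t' F) : Fam H F :=
  h.fam.mono sdiff_subset Subset.rfl

theorem DS.out {H : Finset (Finset V)} {t t' : V} {F : Finset (Finset (Finset V))}
    (h : DS H t t' F) : t ≠ t' ∧ t ∈ cov H \ cov (un F) ∧ t' ∈ cov H \ cov (un F) := by
  have key : ∀ {u u' : V}, DS H u u' F → u ∈ cov H \ cov (un F) := fun {u u'} k => by
    refine mem_sdiff.2 ⟨dg_pos.1 (by rw [k.d1]; omega), fun a => ?_⟩
    obtain ⟨e, he, a⟩ := mem_cov.1 a
    have b := mem_sdiff.1 (k.fam.un_sub he)
    exact b.2 (mem_union_left _ (mem_star.2 ⟨b.1, a⟩))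
  refine ⟨fun e => ?_, key h, key h.symm⟩
  obtain ⟨x, hx⟩ : (star H t).Nonempty := card_pos.1 (by have := h.d1; unfold dg at this; omega)
  exact disjoint_left.1 h.dis hx (e ▸ hx)

theorem DS.hosts {H : Finset (Finset V)} {t t' : V} {F : Finset (Finset (Finset V))}
    (h : DS H t t' F) :
    H \ un F = (star H t ∪ star H t') ∪ ((H \ (star H t ∪ star H t')) \ un F) ∧
      (H \ un F).card = 6 + ((H \ (star H t ∪ star H t')) \ un F).card := by
  have e1 : H \ un F = (star H t ∪ star H t') ∪ ((H \ (star H t ∪ star H t')) \ un F) := by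
    ext e
    constructor
    · intro he
      have a := mem_sdiff.1 he
      by_cases c : e ∈ star H t ∪ star H t'
      · exact mem_union_left _ c
      · exact mem_union_right _ (mem_sdiff.2 ⟨mem_sdiff.2 ⟨a.1, c⟩, a.2⟩)
    · intro he
      rcases mem_union.1 he with c | c
      · refine mem_sdiff.2 ⟨?_, fun d => (mem_sdiff.1 (h.fam.un_sub d)).2 c⟩
        exact (mem_union.1 c).elim (fun d => (mem_star.1 d).1) fun d => (mem_star.1 d).1
      · exact mem_sdiff.2 ⟨(mem_sdiff.1 (mem_sdiff.1 c).1).1, (mem_sdiff.1 c).2⟩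
  refine ⟨e1, ?_⟩
  have a1 := h.d1
  have a2 := h.d2
  unfold dg at a1 a2
  have hd : Disjoint (star H t ∪ star H t') ((H \ (star H t ∪ star H t')) \ un F) :=
    disjoint_left.2 fun e c d => (mem_sdiff.1 (mem_sdiff.1 d).1).2 c
  have a3 := card_union_of_disjoint hd
  have a4 := card_union_of_disjoint h.dis
  rw [← e1] at a3
  omega

theorem Bad.ds_of [Infinite V] {H : Finset (Finset V)} (hB : Bad H) {t t' : V}
    (d1 : dg H t = 3) (d2 : dg H t' = 3) (dis : Disjoint (star H t) (star H t')) :
    ∃ F, DS H t t' F := by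
  have hK := (hB.step d1).1
  have e1 : dg (H \ star H t) t' = 3 := by
    unfold dg
    rw [star_sdiff dis]
    exact d2
  obtain ⟨F, hF, hs⟩ := exists_step hK (t := t') (by omega)
  have e2 := rem_tau hB.cc (t := t) (by omega)
  rw [sdiff_star dis] at hF
  exact ⟨F, d1, d2, dis, hF, by rw [hF.tau_un]; omega⟩

theorem Bad.exists_ds [Infinite V] {H : Finset (Finset V)} (hB : Bad H) :
    ∃ t t' F, DS H t t' F := by
  obtain ⟨a1, a2, a3, -, -⟩ := hB.arith
  have key : ∀ S ⊆ H, 2 * (cov S).card < 5 * S.card → ∃ t, dg S t = 3 := by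
    intro S hS hlt
    by_contra c
    have b := deg_count (hB.cc.u5.mono hS) 1 ∅ (fun v _ => by
      have b1 := (dg_mono hS v).trans (hB.d3 v)
      have b2 : dg S v ≠ 3 := fun e => c ⟨v, e⟩
      unfold dg at b1 b2
      omega) (fun v _ hv => absurd hv (notMem_empty v))
    omega
  obtain ⟨t, ht⟩ := key H Subset.rfl (by omega)
  have b1 := card_star (S := H) t
  have b2 : (star H t).card = 3 := ht
  have b3 := cov_star (S := H) (v := t) (card_pos.1 (by omega))
  obtain ⟨t', ht'⟩ := key (H \ star H t) sdiff_subset (by omega)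
  have b4 : star (H \ star H t) t' = star H t' :=
    eq_of_subset_of_card_le (star_mono sdiff_subset t') (by
      have b5 := hB.d3 t'
      unfold dg at b5 ht'
      omega)
  have b5 : dg H t' = 3 := by
    unfold dg at ht' ⊢
    rwa [b4] at ht'
  have b6 : Disjoint (star H t) (star H t') := by
    rw [← b4]
    exact disjoint_left.2 fun e c d => (mem_sdiff.1 (mem_star.1 d).1).2 c
  obtain ⟨F, hF⟩ := hB.ds_of ht b5 b6
  exact ⟨t, t', F, hF⟩

/-- summing a linear inequality over the pieces -/
theorem bad2_sum {F : Finset (Finset (Finset V))} {a b c k a' b' c' k' : ℕ}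
    (h : ∀ W ∈ F, a * tau W + b * W.card + c * (cov W).card + k ≤
      a' * tau W + b' * W.card + c' * (cov W).card + k') :
    a * ∑ W ∈ F, tau W + b * ∑ W ∈ F, W.card + c * ∑ W ∈ F, (cov W).card + k * F.card ≤
      a' * ∑ W ∈ F, tau W + b' * ∑ W ∈ F, W.card + c' * ∑ W ∈ F, (cov W).card + k' * F.card := by
  induction F using Finset.induction_on with
  | empty => simp
  | insert W F hW ih =>
    have h1 := ih fun Z hZ => h Z (mem_insert_of_mem hZ)
    have h2 := h W (mem_insert_self _ _)
    simp only [sum_insert hW, card_insert_of_notMem hW, mul_add, mul_one]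
    omega

theorem DS.facts [Infinite V] {H : Finset (Finset V)} (hB : Bad H) {t t' : V}
    {F : Finset (Finset (Finset V))} (h : DS H t t' F) :
    F.card = ((H \ (star H t ∪ star H t')) \ un F).card + 2 ∧
      ((H \ (star H t ∪ star H t')) \ un F).card ≤ 1 ∧
      (∀ W ∈ F, 2 * tau W = W.card + 1) ∧
      ∀ W ∈ F, 3 * (cov W).card ≤ 5 * W.card + 17 := by
  obtain ⟨a1, a2, a3, a4, a5⟩ := hB.arith
  have hK := (hB.step h.d1).1
  have hF := h.famH
  have hFK0 : Fam ((H \ star H t) \ star (H \ star H t) t') F := by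
    rw [sdiff_star h.dis]
    exact h.fam
  have hFK : Fam (H \ star H t) F := hFK0.mono sdiff_subset Subset.rfl
  have e1 : dg (H \ star H t) t' = 3 := by
    unfold dg
    rw [star_sdiff h.dis]
    exact h.d2
  have c1 := step_card hFK0
  rw [sdiff_star h.dis, e1] at c1
  have c2 : F.card + 1 ≤ ((H \ star H t) \ un F).card := by
    obtain ⟨x, hx⟩ := card_pos.1 (show 0 < ((H \ star H t) \ un F).card by omega)
    exact nl_all hK hFK ⟨x, mem_sdiff.1 hx⟩
  have c3 := h.hosts.2
  have c4 := hF.card_eq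
  have c5 := hF.cov_eq
  have c6 := h.tau2
  rw [hF.tau_un] at c6
  have c7 := hB.val
  have c8 : 2 ≤ (cov H \ cov (un F)).card := by
    obtain ⟨o1, o2, o3⟩ := h.out
    rw [← card_pair o1]
    exact card_le_card (insert_subset o2 (singleton_subset_iff.2 o3))
  have g1 : ∀ W ∈ F, 2 * tau W ≤ W.card + 1 := fun W hW =>
    gallai (hF.cc W hW).u5.ne (hF.cc W hW).crit (hF.cc W hW).conn
  have g2 : ∀ W ∈ F, 17 * tau W ≤ 5 * W.card + 2 * (cov W).card + 3 := fun W hW => by
    have := gplus (hF.cc W hW) fun v => (dg_mono (hF.sub W hW) v).trans (hB.d3 v)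
    unfold GB at this
    omega
  have s1 := bad2_sum (F := F) (a := 2) (b := 0) (c := 0) (a' := 0) (b' := 1) (c' := 0) (k := 0)
    (k' := 1) fun W hW => by have := g1 W hW; omega
  have t1 : ∀ W ∈ F, 2 * tau W = W.card + 1 := fun W hW => by
    have b1 := bad2_sum (F := F.erase W) (a := 2) (b := 0) (c := 0) (a' := 0) (b' := 1) (c' := 0)
      (k := 0) (k' := 1) fun Z hZ => by have := g1 Z (mem_of_mem_erase hZ); omega
    have b2 := add_sum_erase F tau hW
    have b3 := add_sum_erase F (fun Z => Z.card) hW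
    have b4 := card_erase_add_one hW
    have b5 := g1 W hW
    omega
  have g3 : ∀ W ∈ F, 5 * W.card + 9 ≤ 3 * (cov W).card := fun W hW => by
    have b1 := t1 W hW
    have b2 := g2 W hW
    omega
  have s2 := bad2_sum (F := F) (a := 17) (b := 0) (c := 0) (a' := 0) (b' := 5) (c' := 2) (k := 0)
    (k' := 3) fun W hW => by have := g2 W hW; omega
  have s3 := bad2_sum (F := F) (a := 0) (b := 5) (c := 0) (a' := 0) (b' := 0) (c' := 3) (k := 9)
    (k' := 0) fun W hW => by have := g3 W hW; omega
  refine ⟨by omega, by omega, t1, fun W hW => ?_⟩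
  have b1 := bad2_sum (F := F.erase W) (a := 0) (b := 5) (c := 0) (a' := 0) (b' := 0) (c' := 3)
    (k := 9) (k' := 0) fun Z hZ => by have := g3 Z (mem_of_mem_erase hZ); omega
  have b2 := add_sum_erase F (fun Z => (cov Z).card) hW
  have b3 := add_sum_erase F (fun Z => Z.card) hW
  have b4 := card_erase_add_one hW
  omega

end Pool.Agent.Work.MP_d266e7_co.C5
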