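import Pool.Agent.Work.MP_d266e7_co.C5.Sides

/-!
The bound `GB`. Base (degrees at most two): `gallai`, `5 m + b1 ≤ 2 n` where `b1` counts the
vertices of degree one (`deg_count`), `2 tt ≤ b1` (`Fam.tt_out` with the empty family),
`tt ≤ m`, `5 ≤ n`; omega. Step at `t` of degree three: `exists_step`, `F` as a family of `H`
(`Fam.mono`), `a = ((H \ star H t) \ un F).card`, `|out| = s + 1`; `nl_all`, `step_card`,
`Fam.card_eq`, `Fam.cov_eq`, `Fam.tt_eq`, `Fam.tt_out` (the filter avoids `t`, so its size is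
`≤ s`), the bound for each piece with `tt W (dg H)` (`tt_mono`). Only `|F| = a + 2` with
`(a, s) = (0,0), (0,1), (1,0)` is left: every host has at most `1 + s` outside vertices
(`Fam.five`), use `side2_of`, `twoT` with `g` the slack of the piece (`gainT_le`), or
`exists_enum`, `side3_mk`, `Side3.gad`, `gainT 2 2 = 1`.
-/

namespace Pool.Agent.Work.MP_d266e7_co.C5

open Finset

variable {V : Type} [DecidableEq V]

theorem gplus_empty (H : Finset (Finset V)) : Fam H ∅ :=
  ⟨fun _ h => absurd h (notMem_empty _), fun _ h => absurd h (notMem_empty _),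
    fun _ h => absurd h (notMem_empty _)⟩

theorem gb_base {H : Finset (Finset V)} (h : CC H) (h2 : ∀ v, dg H v ≤ 2) : GB H := by
  have h1 := gallai h.u5.ne h.crit h.conn
  have h3 := deg_count h.u5 1 ((cov H).filter (fun v => dg H v ≤ 1)) (fun v _ => h2 v)
    (fun v _ hv => (mem_filter.1 hv).2)
  rw [inter_eq_right.2 (filter_subset _ _)] at h3
  have h4 := (gplus_empty H).tt_out
  have e1 : un (∅ : Finset (Finset (Finset V))) = ∅ := rfl
  have e2 : cov (∅ : Finset (Finset V)) = ∅ := rfl
  rw [e1, e2, sdiff_empty, sdiff_empty] at h4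
  have h5 : tt H (dg H) ≤ H.card := card_filter_le _ _
  obtain ⟨e, he⟩ := h.ne
  have h6 : e.card ≤ (cov H).card := card_le_card fun v hv => mem_cov.2 ⟨e, he, hv⟩
  rw [h.u5 e he] at h6
  unfold GB
  omega

/-- slack of the bound for a piece, measured with the degrees of `H` -/
noncomputable def gplus_slack (H W : Finset (Finset V)) : ℕ :=
  5 * W.card + 2 * (cov W).card + 3 - (17 * tau W + tt W (dg H))

theorem gplus_out {H : Finset (Finset V)} {F : Finset (Finset (Finset V))} (hF : Fam H F)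
    (h5 : U5 H) {x : Finset V} (hx : x ∈ H) :
    5 ≤ ∑ W ∈ F, dd W x + (cov H \ cov (un F)).card := by
  have h1 := hF.five (h5 x hx)
  have h2 : (x \ cov (un F)).card ≤ (cov H \ cov (un F)).card :=
    card_le_card (sdiff_subset_sdiff (fun v hv => mem_cov.2 ⟨x, hx, hv⟩) Subset.rfl)
  omega

theorem gplus_sum {F : Finset (Finset (Finset V))} {H : Finset (Finset V)}
    (h : ∀ W ∈ F, 17 * tau W + tt W (dg H) ≤ 5 * W.card + 2 * (cov W).card + 3) :
    17 * ∑ W ∈ F, tau W + ∑ W ∈ F, tt W (dg H) + ∑ W ∈ F, gplus_slack H W =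
      5 * ∑ W ∈ F, W.card + 2 * ∑ W ∈ F, (cov W).card + 3 * F.card := by
  induction F using Finset.induction_on with
  | empty => simp
  | insert W F hW ih =>
    have h1 := ih fun Z hZ => h Z (mem_insert_of_mem hZ)
    have h2 := h W (mem_insert_self _ _)
    have h3 : gplus_slack H W =
      5 * W.card + 2 * (cov W).card + 3 - (17 * tau W + tt W (dg H)) := rfl
    simp only [sum_insert hW, card_insert_of_notMem hW]
    omega

theorem gb_step [Infinite V] {H : Finset (Finset V)} {k : ℕ} (hG : IHG V k)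
    (hk : H.card ≤ k + 1) (h : CC H) (h3 : ∀ v, dg H v ≤ 3) {t : V} (ht : dg H t = 3) :
    GB H := by
  have ht1 : 1 ≤ dg H t := by omega
  obtain ⟨F, hF0, hτ⟩ := exists_step h ht1
  have hF : Fam H F := hF0.mono sdiff_subset Subset.rfl
  have c1 := step_card hF0
  have c2 := hF.card_eq
  have c3 := hF.cov_eq
  have c4 := hF.tt_eq (dg H)
  have c5 := hF.tt_out
  have hto := step_out ht1 hF0
  have c6 : ((cov H \ cov (un F)).filter (fun v => dg H v ≤ 1)).card <
      (cov H \ cov (un F)).card :=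
    card_lt_card ⟨filter_subset _ _, fun c => by
      have := (mem_filter.1 (c hto)).2
      omega⟩
  have c7 : F.card + 1 ≤ (H \ un F).card := by
    obtain ⟨x, hx⟩ := card_pos.1 (show 0 < (H \ un F).card by omega)
    exact nl_all h hF ⟨x, mem_sdiff.1 hx⟩
  have hW : ∀ W ∈ F, W.card + 2 ≤ k := fun W hW => by
    have := single_le_sum (f := fun Z : Finset (Finset V) => Z.card)
      (fun _ _ => Nat.zero_le _) hW
    omega
  have hb : ∀ W ∈ F, 17 * tau W + tt W (dg H) ≤ 5 * W.card + 2 * (cov W).card + 3 :=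
    fun W hWF => by
      have a1 : GB W := hG W (by have := hW W hWF; omega) (hF.cc W hWF)
        fun v => (dg_mono (hF.sub W hWF) v).trans (h3 v)
      have a2 : tt W (dg H) ≤ tt W (dg W) := tt_mono fun v _ => dg_mono (hF.sub W hWF) v
      unfold GB at a1
      omega
  have hg : ∀ W ∈ F, ∀ p r, Gad W (dg H) p r → gainT p r ≤ gplus_slack H W :=
    fun W hWF p r hpr => by
      have := gainT_le hG (hW W hWF) (hF.cc W hWF) h3
        (fun v _ => dg_mono (hF.sub W hWF) v) hpr
      unfold gplus_slack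
      omega
  have c8 := gplus_sum hb
  unfold GB
  by_contra hcon
  have hcase : (F.card = 2 ∧ (H \ un F).card = 3 ∧ (cov H \ cov (un F)).card ≤ 2 ∧
      ∑ W ∈ F, gplus_slack H W + 2 * (cov H \ cov (un F)).card ≤ 4) ∨
      (F.card = 3 ∧ (H \ un F).card = 4 ∧ (cov H \ cov (un F)).card = 1 ∧
      ∑ W ∈ F, gplus_slack H W = 0) := by omega
  rcases hcase with ⟨f1, f2, f3, f4⟩ | ⟨f1, f2, f3, f4⟩
  · obtain ⟨W1, W2, hne, hFe⟩ := card_eq_two.1 f1
    have m1 : W1 ∈ F := hFe ▸ mem_insert_self _ _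
    have m2 : W2 ∈ F := hFe ▸ mem_insert_of_mem (mem_singleton_self _)
    have hs : ∀ f : Finset (Finset V) → ℕ, ∑ W ∈ F, f W = f W1 + f W2 := fun f => by
      rw [hFe, sum_pair hne]
    obtain ⟨q, hq, hq'⟩ := side2_of h hF hFe hne f2 (by rw [hs] at hτ; omega)
    have := twoT hq (s := (cov H \ cov (un F)).card - 1) (hg W1 m1) (hg W2 m2) (by omega)
      fun x => by
        have := gplus_out hF h.u5 (mem_sdiff.1 (hq' x)).1
        rw [hs] at this
        omega
    rw [hs] at f4
    omega
  · obtain ⟨W, w1, w2, w3⟩ := exists_enum f1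
    obtain ⟨q, q1, q2, q3⟩ := exists_enum f2
    have hs := sum_three w1 w2 w3
    have h33 := side3_mk h hF w1 w2 w3 q1 q2 q3 (by rw [hs] at hτ; omega)
    obtain ⟨i, hi⟩ := h33.gad fun x => by
      have := gplus_out hF h.u5 (mem_sdiff.1 (q2 x)).1
      rw [hs] at this
      omega
    have a1 := hg _ (w2 i) 2 2 hi
    have a2 : gainT 2 2 = 1 := rfl
    have a3 := single_le_sum (f := gplus_slack H) (fun _ _ => Nat.zero_le _) (w2 i)
    omega

theorem ihg [Infinite V] (k : ℕ) : IHG V k := by
  induction k with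
  | zero =>
    intro X hk h _
    have := card_pos.2 h.ne
    omega
  | succ k ih =>
    intro X hk h h3
    by_cases c : ∃ t, dg X t = 3
    · obtain ⟨t, ht⟩ := c
      exact gb_step ih hk h h3 ht
    · refine gb_base h fun v => ?_
      have a1 := h3 v
      have a2 : dg X v ≠ 3 := fun e => c ⟨v, e⟩
      omega

theorem gplus [Infinite V] {H : Finset (Finset V)} (h : CC H) (h3 : ∀ v, dg H v ≤ 3) : GB H :=
  ihg H.card H le_rfl h h3

/-- gadget gain below the slack, final form -/
theorem gain_le [Infinite V] {W H : Finset (Finset V)} (hW : CC W) (hs : W ⊆ H)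
    (h3 : ∀ v, dg H v ≤ 3) {p q : ℕ} (hg : Gad W (dg H) p q) :
    17 * tau W + gainT p q ≤ 5 * W.card + 2 * (cov W).card + 3 := by
  have := gainT_le (ihg (W.card + 2)) le_rfl hW h3 (fun v _ => dg_mono hs v) hg
  omega

end Pool.Agent.Work.MP_d266e7_co.C5
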