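import Pool.Agent.Work.MP_d266e7_co.C5.ULemA
import Pool.Agent.Work.MP_d266e7_co.C5.AbsU
import Pool.Agent.Work.MP_d266e7_co.C5.GPlus

/-!
Covering rules at the single node `u`, and the contradiction by `absU` with
`g = 5 |W| + 2 |cov W| + 3 - 17 tau W`.
`nj`: `nj_of_cover` with rest `insert (q z) {u} ∪ R ∪` hosts of the other side, of `tau` at most
`1 + tau R + 1` (the other side lies on `tv (!side x)`).
`r1`, `r4`: explicit transversals of size `tau W + tau R + 2` (`exists_opt`, `absorb`).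
`d12`: `gain_double` with `A = q x ∩ cov W`, `B = q y ∩ cov W`, `A' = q x' ∩ cov W`,
`B' = (q y' ∪ q z') ∩ cov W` (`NJ.disjoint`, `NJ.no_cover`, `dg_lt`, `dg_lt2`); a transversal of
`W` of size `tau W + 1` meeting four hosts, a block of `u` through the two remaining hosts and a
transversal of `R` cover `H`.
-/

namespace Pool.Agent.Work.MP_d266e7_co.C5

open Finset

variable {V : Type} [DecidableEq V]

namespace UCtx

variable {H : Finset (Finset V)} {tv : Bool → V} {u : Finset V} {W R : Finset (Finset V)}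
  {q : Fin 6 → Finset V}

theorem ulem_tri {x y z : Fin 6} (ht : Tri x y z) (w : Fin 6) :
    w = x ∨ w = y ∨ w = z ∨ side w = !side x := by
  revert x y z w
  unfold Tri
  decide

theorem ulem_uc {x y : Fin 6} (hc : 1 ≤ uc u q x y) : ∃ v ∈ u, v ∈ q x ∧ v ∈ q y := by
  obtain ⟨v, hv⟩ := card_pos.1 hc
  simp only [mem_inter] at hv
  exact ⟨v, hv.1.1, hv.1.2, hv.2⟩

theorem ulem_ud {x : Fin 6} {v : V} (h1 : v ∈ u) (h2 : v ∈ q x) : 1 ≤ ud u q x :=
  card_pos.2 ⟨v, mem_inter.2 ⟨h1, h2⟩⟩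

/-- a transversal of `W`, a vertex of `u` and one more vertex do not meet all hosts -/
theorem ulem_cover (h : UCtx H tv u W R q) {C D : Finset V} (hC : Hits C W) {v : V} (hv : v ∈ u)
    (hq : ∀ x, v ∈ q x ∨ ∃ a ∈ q x, a ∈ C ∨ a ∈ D) : tau W + 2 ≤ C.card + D.card := by
  obtain ⟨T, hT, e⟩ := exists_opt (h.u5.ne.mono h.rsub)
  have k1 : tau H ≤ (insert v (C ∪ D ∪ T)).card := tau_le fun f hf => by
    simp only [mem_insert, mem_union]
    rcases h.all f hf with rfl | k | k | ⟨x, rfl⟩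
    · exact ⟨v, hv, .inl rfl⟩
    · exact (hC f k).imp fun a ha => ⟨ha.1, .inr (.inl (.inl ha.2))⟩
    · exact (hT f k).imp fun a ha => ⟨ha.1, .inr (.inr ha.2)⟩
    · rcases hq x with k | ⟨a, k1, k2⟩
      exacts [⟨v, k, .inl rfl⟩, ⟨a, k1, .inr (.inl k2)⟩]
  have k2 := card_insert_le v (C ∪ D ∪ T)
  have k3 := card_union_le (C ∪ D) T
  have k4 := card_union_le C D
  have k5 := h.le
  omega

theorem ulem_ne (h : UCtx H tv u W R q) (x : Fin 6) : (q x).Nonempty := ⟨_, h.qt x⟩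

theorem nj (h : UCtx H tv u W R q) {x y z : Fin 6} (ht : Tri x y z) (hz : 1 ≤ ud u q z) :
    NJ W (q x) (q y) := by
  by_contra hn
  obtain ⟨C, c1, c2, ⟨a, a1, a2⟩, b, b1, b2⟩ :=
    joint_of_not_nj h.wcc.u5.ne (h.ulem_ne x) (h.ulem_ne y) hn
  obtain ⟨v, hv⟩ := card_pos.1 hz
  have k := h.ulem_cover (D := {tv (!side x)}) c1 (mem_inter.1 hv).1 fun w => by
    rcases ulem_tri ht w with rfl | rfl | rfl | k
    exacts [.inr ⟨a, (mem_inter.1 a1).1, .inl a2⟩, .inr ⟨b, (mem_inter.1 b1).1, .inl b2⟩,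
      .inl (mem_inter.1 hv).2, .inr ⟨_, h.qt w, .inr (k ▸ mem_singleton_self _)⟩]
  rw [card_singleton] at k
  omega

theorem ulem_r4 (h : UCtx H tv u W R q) {b : V} {x y z : Fin 6} (hc : 1 ≤ uc u q x y)
    (hz : 1 ≤ dd W (q z)) (hb : ∀ w, w ≠ x → w ≠ y → w ≠ z → b ∈ q w) : False := by
  obtain ⟨v, v1, v2, v3⟩ := ulem_uc hc
  obtain ⟨a, ha⟩ := card_pos.1 hz
  obtain ⟨C, c1, c2, c3⟩ := exists_cover_mem h.wcc (mem_inter.1 ha).2
  have k := h.ulem_cover (D := {b}) c1 v1 fun w => by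
    by_cases k1 : w = x
    · exact .inl (k1 ▸ v2)
    by_cases k2 : w = y
    · exact .inl (k2 ▸ v3)
    by_cases k3 : w = z
    · exact .inr ⟨a, k3 ▸ (mem_inter.1 ha).1, .inl c3⟩
    · exact .inr ⟨b, hb w k1 k2 k3, .inr (mem_singleton_self b)⟩
  rw [card_singleton] at k
  omega

theorem r1 (h : UCtx H tv u W R q) (x y z : Fin 6) (ht : Tri x y z) (hc : 1 ≤ uc u q x y) :
    dd W (q z) = 0 := by
  refine Nat.eq_zero_of_not_pos fun hz => h.ulem_r4 (b := tv (!side x)) hc hz fun w k1 k2 k3 => ?_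
  rw [← (((ulem_tri ht w).resolve_left k1).resolve_left k2).resolve_left k3]
  exact h.qt w

theorem r4 (h : UCtx H tv u W R q) {b : V} {x y z : Fin 6} (hc : 1 ≤ uc u q x y)
    (hz : 1 ≤ dd W (q z)) (hb : ∀ w, w ≠ x → w ≠ y → w ≠ z → b ∈ q w) : False := by
  exact h.ulem_r4 hc hz hb

theorem d12 [Infinite V] (h : UCtx H tv u W R q) (x y z x' y' z' : Fin 6) (ht : Tri x y z)
    (ht' : Tri x' y' z') (hs : side x ≠ side x') (h1 : 1 ≤ ud u q x') (h2 : 1 ≤ uc u q z y')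
    (h3 : 1 ≤ uc u q z z') :
    17 * tau W + gainT (dd W (q x)) (dd W (q y)) +
      gainT (dd W (q x')) (dd W (q y') + dd W (q z')) ≤ 5 * W.card + 2 * (cov W).card + 3 := by
  obtain ⟨v, v1, v2, v3⟩ := ulem_uc h2
  obtain ⟨v', v1', v2', v3'⟩ := ulem_uc h3
  obtain ⟨t1, t2, t3, t4, t5⟩ := ht'
  have n1 := h.nj ht (ulem_ud v1 v2)
  have n2 := h.nj ⟨t1, t2, t3, t4, t5⟩ (ulem_ud v1' v3')
  have n3 := h.nj ⟨t2, t1, t3.symm, t5, t4⟩ (ulem_ud v1 v3)
  have n4 := h.nj ⟨t3, t1.symm, t2.symm, t4.symm.trans t5, t4.symm⟩ h1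
  have e : ((q y' ∪ q z') ∩ cov W).card = dd W (q y') + dd W (q z') := by
    rw [union_inter_distrib_right, card_union_of_disjoint (n4.disjoint h.wcc)]
    rfl
  rw [← e]
  refine gain_double ihg h.wcc inter_subset_right inter_subset_right inter_subset_right
    inter_subset_right (fun a ha => ?_)
    (fun C c1 c2 a a1 b b1 => n1.no_cover c1 c2 (mem_inter.1 a1).1 (mem_inter.1 b1).1)
    (fun C c1 c2 a a1 b b1 => ?_) ?_
  · have k1 : a ∈ q x ∩ cov W ∪ q y ∩ cov W → ∃ i, side i = side x ∧ a ∈ q i := fun k => by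
      rcases mem_union.1 k with k | k
      exacts [⟨x, rfl, (mem_inter.1 k).1⟩, ⟨y, ht.2.2.2.1.symm, (mem_inter.1 k).1⟩]
    have k2 : a ∈ q x' ∩ cov W ∪ (q y' ∪ q z') ∩ cov W → ∃ i, side i = side x' ∧ a ∈ q i :=
      fun k => by
        rcases mem_union.1 k with k | k
        · exact ⟨x', rfl, (mem_inter.1 k).1⟩
        rcases mem_union.1 (mem_inter.1 k).1 with k | k
        exacts [⟨y', t4.symm, k⟩, ⟨z', t5.symm, k⟩]
    have k3 := h.d3 a
    split_ifs with p1 p2 p2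
    · obtain ⟨i, i1, i2⟩ := k1 p1
      obtain ⟨j, j1, j2⟩ := k2 p2
      exact (dg_lt2 h.wsub (h.qmem i) (h.qmem j) (h.qinj.ne fun k => hs (by rw [← i1, ← j1, k]))
        (h.qW i) (h.qW j) i2 j2).trans k3
    · obtain ⟨i, -, i2⟩ := k1 p1
      exact (dg_lt h.wsub (h.qmem i) (h.qW i) i2).trans_le k3
    · obtain ⟨i, -, i2⟩ := k2 p2
      exact (dg_lt h.wsub (h.qmem i) (h.qW i) i2).trans_le k3
    · exact (dg_mono h.wsub a).trans k3
  · rcases mem_union.1 (mem_inter.1 b1).1 with k | k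
    exacts [n2.no_cover c1 c2 (mem_inter.1 a1).1 k, n3.no_cover c1 c2 (mem_inter.1 a1).1 k]
  · rintro C c1 c2 ⟨a, a1, a2⟩ ⟨b, b1, b2⟩ ⟨c, d1, d2⟩ ⟨d, e1, e2⟩
    have key : ∀ {i j : Fin 6} {p : V}, Tri x' i j → d ∈ q i → p ∈ u → p ∈ q z → p ∈ q j → False :=
      fun {i j p} t k1 k2 k3 k4 => by
        have k := h.ulem_cover (D := ∅) c1 k2 fun w => by
          rcases ulem_tri ht w with rfl | rfl | rfl | k
          · exact .inr ⟨a, (mem_inter.1 a1).1, .inl a2⟩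
          · exact .inr ⟨b, (mem_inter.1 b1).1, .inl b2⟩
          · exact .inl k3
          rcases ulem_tri t w with rfl | rfl | rfl | k'
          · exact .inr ⟨c, (mem_inter.1 d1).1, .inl d2⟩
          · exact .inr ⟨d, k1, .inl e2⟩
          · exact .inl k4
          · exact absurd (Bool.not_inj (k.symm.trans k')) hs
        rw [card_empty] at k
        omega
    rcases mem_union.1 (mem_inter.1 e1).1 with k | k
    exacts [key ⟨t1, t2, t3, t4, t5⟩ k v1' v2' v3', key ⟨t2, t1, t3.symm, t5, t4⟩ k v1 v2 v3]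

theorem false_of [Infinite V] (h : UCtx H tv u W R q) (σ e : ℕ) (hσ : σ ≤ 1)
    (hδ : ∀ x, dl tv u W q x ≤ σ) (hδ3 : ∑ x, dl tv u W q x ≤ 3)
    (hδT : σ = 1 → 1 ≤ dl tv u W q 0 + dl tv u W q 1 + dl tv u W q 2 ∧
      1 ≤ dl tv u W q 3 + dl tv u W q 4 + dl tv u W q 5)
    (he : ee {u} (dg H) + 3 * σ ≤ e + ∑ x, dl tv u W q x) (he2 : e ≤ 2)
    (hg : 5 * W.card + 2 * (cov W).card + 2 * σ ≤ 17 * tau W)
    (hg2 : e = 2 → 5 * W.card + 2 * (cov W).card + 2 * σ + 1 ≤ 17 * tau W)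
    (hb : ∑ x, dl tv u W q x = 3 → ∃ b, ∀ x, dl tv u W q x = 1 → b ∈ q x) : False := by
  have h1 : ∑ x, dl tv u W q x ≤ 6 * σ := by
    simpa using sum_le_card_nsmul univ _ σ fun x _ => hδ x
  have h2 : ee {u} (dg H) ≤ 2 := by omega
  refine absU (uc u q) (us H u q) (ud u q) (fun x => dd W (q x)) (dl tv u W q)
    (5 * W.card + 2 * (cov W).card + 3 - 17 * tau W) σ e (uc_symm u q) h.uc_le h.ud_eq (h.tot h2)
    h.sip h.four hσ hδ hδ3 hδT (by rwa [h.us_sum h2]) he2 (by omega)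
    (fun k => by have := hg2 k; omega) h.r1 (fun x y z x' y' z' t t' k k1 k2 k3 => ?_)
    fun k x y z _ _ _ k1 k2 k3 => ?_
  · have := h.d12 x y z x' y' z' t t' k k1 k2 k3
    omega
  · obtain ⟨b, hb⟩ := hb k
    exact h.r4 k1 k2 fun w p1 p2 p3 => hb w (k3 w p1 p2 p3)

end UCtx

end Pool.Agent.Work.MP_d266e7_co.C5
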