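import Pool.Agent.Work.MP_d266e7_co.C5.Bad2
import Pool.Agent.Work.MP_d266e7_co.C5.ULem

/-!
The case without extra host. `F = {{u}, W}`, `R = ∅`, `out = cov H \ cov (un F)` has size
`σ + 2` and contains `t`, `t'`. Counting (`Fam.card_eq`, `Fam.cov_eq`, `DS.hosts`, `Fam.tau_un`,
`tau_singleton`, `cov_singleton`): `m = |W| + 7`, `n = |cov W| + 7 + σ`, `tau H = tau W + 3`, so
`arith` gives `hg`, `hg2` with `e = 3 n - 5 m = ee H (dg H)`, and `gplus` for `W` gives `σ ≤ 1`.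
The set in `dl` lies in `out \ {t, t'}` (a host on `t` does not contain `t'`). If `σ = 1` with
vertex `b`: `dl x = 1` iff `b ∈ q x`, `∑ dl = dg H b ≤ 3`, both sides meet `b` by `Bad.noin`,
and `Fam.ee_eq` gives `ee {u} + (3 - dg H b) ≤ e`.
-/

namespace Pool.Agent.Work.MP_d266e7_co.C5

open Finset

variable {V : Type} [DecidableEq V]

theorem bad5_three : ∀ x : Fin 3, x = 0 ∨ x = 1 ∨ x = 2 := by decide

theorem bad5_six : ∀ x : Fin 6, x = 0 ∨ x = 1 ∨ x = 2 ∨ x = 3 ∨ x = 4 ∨ x = 5 := by decide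

theorem DS.uctx [Infinite V] {H : Finset (Finset V)} (hB : Bad H) {t t' : V}
    {F : Finset (Finset (Finset V))} (h : DS H t t' F) {u : Finset V}
    (hu : ({u} : Finset (Finset V)) ∈ F) {W R : Finset (Finset V)} (hW : W ∈ F)
    (hne : W ≠ {u}) (hR : R ⊆ H) (huR : ∀ e ∈ R, Disjoint u e)
    (hall : ∀ e ∈ H \ (star H t ∪ star H t'), e = u ∨ e ∈ W ∨ e ∈ R)
    (hle : tau W + tau R + 3 ≤ tau H) {p p' : Fin 3 → Finset V}
    (hp : Function.Injective p) (hp1 : ∀ x, p x ∈ star H t) (hp2 : ∀ e ∈ star H t, ∃ x, e = p x)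
    (hp' : Function.Injective p') (hp1' : ∀ x, p' x ∈ star H t')
    (hp2' : ∀ e ∈ star H t', ∃ x, e = p' x) :
    UCtx H (fun b => if b then t else t') u W R ![p 0, p 1, p 2, p' 0, p' 1, p' 2] := by
  have key : ∀ x : Fin 6, (![p 0, p 1, p 2, p' 0, p' 1, p' 2] : Fin 6 → Finset V) x ∈
      star H (if side x then t else t') := by
    intro x
    rcases bad5_six x with rfl | rfl | rfl | rfl | rfl | rfl
    exacts [hp1 0, hp1 1, hp1 2, hp1' 0, hp1' 1, hp1' 2]
  have hd : ∀ i j, p i = p' j → False := fun i j e =>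
    disjoint_left.1 h.dis (hp1 i) (e ▸ hp1' j)
  have hst : ∀ (b : Bool) (e : Finset V), e ∈ H \ (star H t ∪ star H t') →
      (if b then t else t') ∉ e := by
    intro b e he k
    obtain ⟨h1, h2⟩ := mem_sdiff.1 he
    cases b
    · exact h2 (mem_union_right _ (mem_star.2 ⟨h1, k⟩))
    · exact h2 (mem_union_left _ (mem_star.2 ⟨h1, k⟩))
  have hu' : u ∈ H \ (star H t ∪ star H t') := h.fam.sub _ hu (mem_singleton_self u)
  refine ⟨hB.cc.u5, hB.d3, hB.noin, h.fam.cc W hW, h.famH.sub W hW, hR, (mem_sdiff.1 hu').1,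
    dd_sep (h.fam.sep W hW _ hu hne) (mem_singleton_self u), huR,
    fun x => (mem_star.1 (key x)).1, ?_,
    fun x k => hst _ _ (h.fam.sub W hW k) (mem_star.1 (key x)).2,
    fun x k => hst _ _ hu' (k ▸ (mem_star.1 (key x)).2), fun x => (mem_star.1 (key x)).2,
    fun b => hst b u hu', fun b k => ?_, fun e he => ?_, hle⟩
  · intro x y hxy
    rcases bad5_six x with rfl | rfl | rfl | rfl | rfl | rfl <;>
      rcases bad5_six y with rfl | rfl | rfl | rfl | rfl | rfl <;>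
      first
        | rfl
        | exact absurd (hp hxy) (by decide)
        | exact absurd (hp' hxy) (by decide)
        | exact (hd _ _ hxy).elim
        | exact (hd _ _ hxy.symm).elim
  · obtain ⟨e, he, k⟩ := mem_cov.1 k
    exact hst b e (h.fam.sub W hW he) k
  · by_cases h1 : e ∈ star H t
    · obtain ⟨i, rfl⟩ := hp2 e h1
      refine .inr (.inr (.inr ?_))
      rcases bad5_three i with rfl | rfl | rfl
      exacts [⟨0, rfl⟩, ⟨1, rfl⟩, ⟨2, rfl⟩]
    by_cases h2 : e ∈ star H t'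
    · obtain ⟨i, rfl⟩ := hp2' e h2
      refine .inr (.inr (.inr ?_))
      rcases bad5_three i with rfl | rfl | rfl
      exacts [⟨3, rfl⟩, ⟨4, rfl⟩, ⟨5, rfl⟩]
    rcases hall e (mem_sdiff.2 ⟨he, fun k => (mem_union.1 k).elim h1 h2⟩) with k | k | k
    exacts [.inl k, .inr (.inl k), .inr (.inr (.inl k))]

theorem bad_a0 [Infinite V] {H : Finset (Finset V)} (hB : Bad H) {t t' : V}
    {F : Finset (Finset (Finset V))} (h : DS H t t' F) {u : Finset V}
    (hu : ({u} : Finset (Finset V)) ∈ F)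
    (ha : ((H \ (star H t ∪ star H t')) \ un F).card = 0) : False := by
  obtain ⟨hF, -, -, -⟩ := h.facts hB
  rw [ha] at hF
  obtain ⟨W, hWe⟩ : ∃ W, F.erase {u} = {W} := card_eq_one.1 (by rw [card_erase_of_mem hu, hF])
  obtain ⟨hne, hW⟩ := mem_erase.1 (hWe ▸ mem_singleton_self W : W ∈ F.erase {u})
  have hsum : ∀ f : Finset (Finset V) → ℕ, ∑ Z ∈ F, f Z = f {u} + f W := fun f => by
    rw [← add_sum_erase F f hu, hWe, sum_singleton]
  have hun : ∀ e, e ∈ un F ↔ e = u ∨ e ∈ W := by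
    intro e
    rw [mem_un]
    constructor
    · rintro ⟨Z, hZ, k⟩
      by_cases e1 : Z = {u}
      · exact .inl (mem_singleton.1 (e1 ▸ k))
      · exact .inr (mem_singleton.1 (hWe ▸ mem_erase.2 ⟨e1, hZ⟩ : Z ∈ ({W} : Finset _)) ▸ k)
    · rintro (rfl | k)
      exacts [⟨_, hu, mem_singleton_self _⟩, ⟨W, hW, k⟩]
  have hcov : ∀ v, v ∈ cov (un F) ↔ v ∈ u ∪ cov W := by
    intro v
    simp only [mem_cov, hun, mem_union]
    constructor
    · rintro ⟨e, rfl | k, k'⟩
      exacts [.inl k', .inr ⟨e, k, k'⟩]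
    · rintro (k | ⟨e, k, k'⟩)
      exacts [⟨u, .inl rfl, k⟩, ⟨e, .inr k, k'⟩]
  have hu5 : u.card = 5 := hB.cc.u5 u (h.famH.sub _ hu (mem_singleton_self u))
  have htau : tau W + 3 = tau H := by
    have := h.tau2
    rw [h.fam.tau_un, hsum, tau_singleton (card_pos.1 (by omega))] at this
    omega
  obtain ⟨p, hp, hp1, hp2⟩ := exists_enum h.d1
  obtain ⟨p', hp', hp1', hp2'⟩ := exists_enum h.d2
  have U := h.uctx hB hu hW hne (empty_subset H) (fun e he => absurd he (notMem_empty e))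
    (fun e he => by
      by_cases k : e ∈ un F
      · exact ((hun e).1 k).imp_right .inl
      · exact absurd (card_eq_zero.1 ha ▸ mem_sdiff.2 ⟨he, k⟩) (notMem_empty e))
    (by rw [tau_empty]; omega) hp hp1 hp2 hp' hp1' hp2'
  generalize (![p 0, p 1, p 2, p' 0, p' 1, p' 2] : Fin 6 → Finset V) = q at U
  obtain ⟨o1, o2, o3⟩ := h.out
  obtain ⟨O, hO⟩ : ∃ O, O = ((cov H \ cov (un F)).erase t).erase t' := ⟨_, rfl⟩
  have mO : ∀ v, v ∈ O ↔ v ≠ t' ∧ v ≠ t ∧ v ∈ cov H ∧ v ∉ u ∪ cov W := fun v => by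
    rw [hO, mem_erase, mem_erase, mem_sdiff, hcov]
  have cO : (cov H \ cov (un F)).card = O.card + 2 := by
    rw [hO, ← card_erase_add_one o2, ← card_erase_add_one (mem_erase.2 ⟨o1.symm, o3⟩)]
  have hm := h.famH.card_eq
  have hn := h.famH.cov_eq
  have he := h.famH.ee_eq (dg H)
  rw [hsum, h.hosts.2, ha, card_singleton] at hm
  rw [hsum, cov_singleton, hu5, cO] at hn
  rw [hsum] at he
  have he' := ee_eq hB.cc.u5 hB.d3
  obtain ⟨-, a2, -, a4, a5⟩ := hB.arith
  have gW : GB W := gplus U.wcc fun v => (dg_mono U.wsub v).trans (hB.d3 v)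
  unfold GB at gW
  have two : ∀ x, t ∈ q x → t' ∈ q x → False := fun x k k' =>
    disjoint_left.1 h.dis (mem_star.2 ⟨U.qmem x, k⟩) (mem_star.2 ⟨U.qmem x, k'⟩)
  have hdl : ∀ x, dl (fun b => if b then t else t') u W q x =
      (O.filter (fun v => v ∈ q x)).card := by
    intro x
    have k0 := U.qt x
    unfold dl
    congr 1
    ext v
    rw [mem_sdiff, mem_insert, mem_filter, mO, not_or]
    have k1 : v ∈ q x → v ∈ cov H := fun k => mem_cov.2 ⟨_, U.qmem x, k⟩
    cases hs : side x <;> simp only [hs, if_true, Bool.false_eq_true, if_false] at k0 ⊢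
    · exact ⟨fun k => ⟨⟨k.2.1, fun e => two x (e ▸ k.1) k0, k1 k.1, k.2.2⟩, k.1⟩,
        fun k => ⟨k.2, k.1.1, k.1.2.2.2⟩⟩
    · exact ⟨fun k => ⟨⟨fun e => two x k0 (e ▸ k.1), k.2.1, k1 k.1, k.2.2⟩, k.1⟩,
        fun k => ⟨k.2, k.1.2.1, k.1.2.2.2⟩⟩
  have hst : ∀ v ∈ O, ∀ e ∈ star H v, ∃ x, e = q x := by
    intro v hv e he
    obtain ⟨k1, k2⟩ := mem_star.1 he
    have k3 := ((mO v).1 hv).2.2.2
    rcases U.all e k1 with rfl | k | k | k
    · exact absurd (mem_union_left _ k2) k3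
    · exact absurd (mem_union_right _ (mem_cov.2 ⟨e, k, k2⟩)) k3
    · exact absurd k (notMem_empty e)
    · exact k
  have hdg : ∀ v ∈ O, dg H v = (univ.filter (fun x => v ∈ q x)).card := by
    intro v hv
    rw [← card_image_of_injective _ U.qinj, dg]
    congr 1
    ext e
    simp only [mem_image, mem_filter, mem_univ, true_and]
    constructor
    · intro k
      obtain ⟨x, rfl⟩ := hst v hv e k
      exact ⟨x, (mem_star.1 k).2, rfl⟩
    · rintro ⟨x, k, rfl⟩
      exact mem_star.2 ⟨U.qmem x, k⟩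
  have hs : ∑ x, dl (fun b => if b then t else t') u W q x = ∑ v ∈ O, dg H v := by
    rw [sum_congr rfl hdg]
    simp only [hdl, card_filter]
    exact sum_comm
  have s1 : ∑ v ∈ O, dg H v ≤ 3 * O.card := by
    rw [mul_comm, ← sum_const_nat (f := fun _ => 3) fun _ _ => rfl]
    exact sum_le_sum fun v _ => hB.d3 v
  have s2 : 3 * O.card ≤ ∑ v ∈ O, (3 - dg H v) + ∑ v ∈ O, dg H v := by
    rw [mul_comm, ← sum_const_nat (f := fun _ => 3) fun _ _ => rfl, ← sum_add_distrib]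
    exact sum_le_sum fun v _ => by omega
  have s3 : ∑ v ∈ O, (3 - dg H v) ≤ ∑ v ∈ cov H \ cov (un F), (3 - dg H v) :=
    sum_le_sum_of_subset (hO ▸ (erase_subset _ _).trans (erase_subset _ _))
  refine U.false_of O.card (ee H (dg H)) (by omega) (fun x => hdl x ▸ card_filter_le _ _)
    (by omega) (fun h1 => ?_) (by omega) (by omega) (by omega) (fun _ => by omega) fun h3 => ?_
  · obtain ⟨b, hb⟩ := card_eq_one.1 h1
    have mb : b ∈ O := hb ▸ mem_singleton_self b
    obtain ⟨b1, b2, b3, -⟩ := (mO b).1 mb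
    have z : ∀ x, dl (fun b => if b then t else t') u W q x = 0 → b ∉ q x := fun x k k' => by
      rw [hdl, card_eq_zero] at k
      exact notMem_empty b (k ▸ mem_filter.2 ⟨mb, k'⟩)
    constructor
    · by_contra k
      refine hB.noin b t' b3 b1 h.d2 fun e he => ?_
      obtain ⟨x, rfl⟩ := hst b mb e he
      have k1 := (mem_star.1 he).2
      refine mem_star.2 ⟨U.qmem x, ?_⟩
      rcases bad5_six x with rfl | rfl | rfl | rfl | rfl | rfl
      exacts [absurd k1 (z 0 (by omega)), absurd k1 (z 1 (by omega)), absurd k1 (z 2 (by omega)),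
        U.qt 3, U.qt 4, U.qt 5]
    · by_contra k
      refine hB.noin b t b3 b2 h.d1 fun e he => ?_
      obtain ⟨x, rfl⟩ := hst b mb e he
      have k1 := (mem_star.1 he).2
      refine mem_star.2 ⟨U.qmem x, ?_⟩
      rcases bad5_six x with rfl | rfl | rfl | rfl | rfl | rfl
      exacts [U.qt 0, U.qt 1, U.qt 2, absurd k1 (z 3 (by omega)), absurd k1 (z 4 (by omega)),
        absurd k1 (z 5 (by omega))]
  · obtain ⟨b, hb⟩ := card_eq_one.1 (show O.card = 1 by omega)
    refine ⟨b, fun x k => ?_⟩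
    rw [hdl] at k
    obtain ⟨v, hv⟩ := card_pos.1 (k ▸ Nat.one_pos)
    obtain ⟨k1, k2⟩ := mem_filter.1 hv
    rw [hb, mem_singleton] at k1
    exact k1 ▸ k2

end Pool.Agent.Work.MP_d266e7_co.C5
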