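import Pool.Agent.Work.MP_d266e7_co.C5.NLem

/-!
Uncrossing two splits of `K`. Let `X = K \ un F = star K t ∪ A`, `Y = K \ un G = star K s ∪ B`,
`|A| ≤ 1`, `|B| ≤ 1`, `|G| = |B| + 2`, and `star K s` has at least two members in `W`, so it
misses every other piece of `F` and `|Y \ W| ≤ |B| + 1`. Suppose no `M ∈ G` is smaller than `W`.
Let `G0` be the pieces of `G` inside `un F`; each lies in one piece of `F` (`Fam.conn_sub`), not
in `W` (it would miss a member of `star K s ∩ W` and be smaller). A member of `K` outside `un G0`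
adjacent to a piece of `G0` is in `Y \ W`; `nlemma` gives `|G0| ≤ |B|`. At most one piece of `G`
meets `star K t` (separation), so some `M ∈ G` misses `star K t` and contains the member `f` of
`A = {f}`; also at most two pieces meet `X`, so `|G0| = |B|`.
Claim: `B` misses every piece `Z ≠ W` of `F`. If `B = {b}`, `G0 = {M0}`, `M0 ⊆ Z0`, the
neighbours of `M0` are exactly two members `b`, `y` of `Y \ W` (`nl1`), `y ∈ star K s` so
`y ∉ Z0`; if `M0 ≠ Z0` then `nl1` inside `Z0` with `N = {b}` fails; so `M0 = Z0` and `b`, adjacent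
to `Z0` and not in it, is in no piece of `F`.
Now if `M` met a piece `Z ≠ W` of `F`, then `Z ⊆ un G`, so `Z ⊆ M` (`Fam.conn_sub`), and `nl1`
inside `M` with `N = {f}` fails. Hence `M ⊆ insert f (W \ star K s)`, which is smaller than `W`.
-/

namespace Pool.Agent.Work.MP_d266e7_co.C5

open Finset

variable {V : Type} [DecidableEq V]

theorem uncross_adj {H : Finset (Finset V)} {F : Finset (Finset (Finset V))} (hF : Fam H F)
    {Z Z' : Finset (Finset V)} (hZ : Z ∈ F) (hZ' : Z' ∈ F) {e x : Finset V} (he : e ∈ Z)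
    (hx : x ∈ Z') (h : Adj x e) : Z' = Z := by
  by_contra hne
  exact hF.sep Z' hZ' Z hZ hne x hx e he h

theorem uncross_out {H : Finset (Finset V)} {F : Finset (Finset (Finset V))} (hF : Fam H F)
    {Z : Finset (Finset V)} (hZ : Z ∈ F) {x : Finset V} (hx : x ∉ Z) (h : 1 ≤ dd Z x) :
    x ∉ un F := by
  intro hu
  obtain ⟨Z', hZ', hxZ⟩ := mem_un.1 hu
  obtain ⟨e, he, ha⟩ := dd_pos.1 h
  exact hx (uncross_adj hF hZ hZ' he hxZ ha ▸ hxZ)

theorem uncross_star {K W : Finset (Finset V)} {s : V} (hs3 : dg K s = 3) (hWK : W ⊆ K)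
    (h2 : 2 ≤ dg W s) : (star K s \ W).card ≤ 1 := by
  have h1 : star W s ⊆ star K s ∩ W := by
    intro e he
    exact mem_inter.2 ⟨star_mono hWK s he, (mem_star.1 he).1⟩
  have h3 := card_le_card h1
  have h4 := card_sdiff_add_card_inter (star K s) W
  unfold dg at hs3 h2
  omega

theorem uncross_small {W M : Finset (Finset V)} {s : V} (h2 : 2 ≤ dg W s) (f : Finset V)
    (hM : ∀ e ∈ M, s ∉ e) (h : M ⊆ insert f W) : M.card < W.card := by
  have h1 : M ⊆ insert f (W \ star W s) := by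
    intro e he
    rcases mem_insert.1 (h he) with h3 | h3
    · exact mem_insert.2 (Or.inl h3)
    · exact mem_insert_of_mem (mem_sdiff.2 ⟨h3, fun h4 => hM e he (mem_star.1 h4).2⟩)
  have h3 := card_le_card h1
  have h4 := card_insert_le f (W \ star W s)
  have h5 := card_star (S := W) s
  unfold dg at h2
  omega

theorem uncross {K : Finset (Finset V)} (hK : CC K) {t s : V} {F G : Finset (Finset (Finset V))}
    (hs3 : dg K s = 3) (hF : Fam (K \ star K t) F) (hG : Fam (K \ star K s) G)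
    (hA : ((K \ star K t) \ un F).card ≤ 1) (hB : ((K \ star K s) \ un G).card ≤ 1)
    (hr : G.card = ((K \ star K s) \ un G).card + 2)
    {W : Finset (Finset V)} (hW : W ∈ F) (h2 : 2 ≤ dg W s) : ∃ M ∈ G, M.card < W.card := by
  classical
  by_contra hcon
  have hFK : ∀ Z ∈ F, Z ⊆ K := fun Z hZ => (hF.sub Z hZ).trans sdiff_subset
  have hGK : ∀ M ∈ G, M ⊆ K := fun M hM => (hG.sub M hM).trans sdiff_subset
  have hGs : ∀ M ∈ G, ∀ e ∈ M, s ∉ e := fun M hM e he hs =>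
    (mem_sdiff.1 (hG.sub M hM he)).2 (mem_star.2 ⟨hGK M hM he, hs⟩)
  have hsmall : ∀ M ∈ G, ∀ f, ¬ M ⊆ insert f W := fun M hM f h =>
    hcon ⟨M, hM, uncross_small h2 f (hGs M hM) h⟩
  have hst := uncross_star hs3 (hFK W hW) h2
  obtain ⟨w, hw⟩ : (star W s).Nonempty := card_pos.1 (by unfold dg at h2; omega)
  have hwW : w ∈ W := (mem_star.1 hw).1
  have hws : s ∈ w := (mem_star.1 hw).2
  have hZs : ∀ Z ∈ F, Z ≠ W → ∀ e ∈ Z, s ∉ e := fun Z hZ hne e he hs =>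
    hne (uncross_adj hF hW hZ hwW he ⟨s, hs, hws⟩)
  obtain ⟨A, hAdef⟩ : ∃ A, A = (K \ star K t) \ un F := ⟨_, rfl⟩
  obtain ⟨B, hBdef⟩ : ∃ B, B = (K \ star K s) \ un G := ⟨_, rfl⟩
  rw [← hAdef] at hA
  rw [← hBdef] at hB hr
  have memA : ∀ x, x ∈ K → t ∉ x → x ∉ un F → x ∈ A := fun x h1 h3 h4 => by
    rw [hAdef]
    exact mem_sdiff.2 ⟨mem_sdiff.2 ⟨h1, fun h => h3 (mem_star.1 h).2⟩, h4⟩
  have memB : ∀ x, x ∈ K → s ∉ x → x ∉ un G → x ∈ B := fun x h1 h3 h4 => by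
    rw [hBdef]
    exact mem_sdiff.2 ⟨mem_sdiff.2 ⟨h1, fun h => h3 (mem_star.1 h).2⟩, h4⟩
  have outB : ∀ x ∈ B, x ∉ un G := fun x hx => by
    rw [hBdef] at hx
    exact (mem_sdiff.1 hx).2
  -- a piece of `G` inside `un F` lies in a piece other than `W`
  have hin : ∀ M ∈ G, M ⊆ un F → ∃ Z ∈ F, Z ≠ W ∧ M ⊆ Z := by
    intro M hM hMF
    obtain ⟨e, he⟩ := (hG.cc M hM).ne
    obtain ⟨Z, hZ, heZ⟩ := mem_un.1 (hMF he)
    have h1 : M ⊆ Z := hF.conn_sub (hG.cc M hM).conn hMF hZ he heZ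
    refine ⟨Z, hZ, fun h => hsmall M hM e ?_, h1⟩
    rw [← h]
    exact h1.trans (subset_insert _ _)
  -- its neighbours
  have hnb : ∀ M ∈ G, M ⊆ un F → ∀ x ∈ K, x ∉ M → 1 ≤ dd M x →
      x ∈ star K s \ W ∨ x ∈ B := by
    intro M hM hMF x hx hxM hd
    obtain ⟨Z, hZ, hZW, hMZ⟩ := hin M hM hMF
    by_cases hs : s ∈ x
    · left
      refine mem_sdiff.2 ⟨mem_star.2 ⟨hx, hs⟩, fun hxW => ?_⟩
      obtain ⟨e, he, ha⟩ := dd_pos.1 hd
      exact hZW (uncross_adj hF hZ hW (hMZ he) hxW ha).symm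
    · right
      exact memB x hx hs (uncross_out hG hM hxM hd)
  obtain ⟨G0, hG0⟩ : ∃ G0, G0 = G.filter (fun M => M ⊆ un F) := ⟨_, rfl⟩
  have mem0 : ∀ M, M ∈ G0 ↔ M ∈ G ∧ M ⊆ un F := fun M => by rw [hG0, mem_filter]
  have hc0 : G0.card ≤ B.card := by
    rcases G0.eq_empty_or_nonempty with h | h
    · rw [h]; exact Nat.zero_le _
    have hfam : Fam K G0 := hG.mono sdiff_subset (fun M hM => ((mem0 M).1 hM).1)
    have h1 := nlemma (N := (star K s \ W) ∪ B) hK hfam h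
      ⟨w, hFK W hW hwW, fun hu => by
        obtain ⟨M, hM, hwM⟩ := mem_un.1 hu
        exact hGs M ((mem0 M).1 hM).1 w hwM hws⟩
      (by
        intro x hx hxu M hM hd
        exact mem_union.2 (hnb M ((mem0 M).1 hM).1 ((mem0 M).1 hM).2 x hx
          (fun h => hxu (mem_un.2 ⟨M, hM, h⟩)) hd))
    have h3 := card_union_le (star K s \ W) B
    omega
  obtain ⟨G1, hG1⟩ : ∃ G1, G1 = G.filter (fun M => ∃ e ∈ M, t ∈ e) := ⟨_, rfl⟩
  have mem1 : ∀ M, M ∈ G1 ↔ M ∈ G ∧ ∃ e ∈ M, t ∈ e := fun M => by rw [hG1, mem_filter]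
  have hc1 : G1.card ≤ 1 := by
    refine card_le_one.2 fun M hM M' hM' => ?_
    obtain ⟨h1, e, he, hte⟩ := (mem1 M).1 hM
    obtain ⟨h1', e', he', hte'⟩ := (mem1 M').1 hM'
    exact uncross_adj hG h1' h1 he' he ⟨t, hte, hte'⟩
  -- a piece outside `G0` and `G1` contains a member of `A`
  have hrest : ∀ M ∈ G, M ∉ G0 ∪ G1 → (∀ e ∈ M, t ∉ e) ∧ ∃ f ∈ M, f ∈ A ∧ f ∉ un F := by
    intro M hM hn
    have h1 : ∀ e ∈ M, t ∉ e := fun e he ht =>
      hn (mem_union_right _ ((mem1 M).2 ⟨hM, e, he, ht⟩))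
    have h3 : ¬ M ⊆ un F := fun h => hn (mem_union_left _ ((mem0 M).2 ⟨hM, h⟩))
    obtain ⟨f, hf, hfu⟩ := not_subset.1 h3
    exact ⟨h1, f, hf, memA f (hGK M hM hf) (h1 f hf) hfu, hfu⟩
  have hu01 := card_union_le G0 G1
  obtain ⟨M, hM, hMn⟩ : ∃ M ∈ G, M ∉ G0 ∪ G1 := by
    refine not_subset.1 fun h => ?_
    have := card_le_card h
    omega
  obtain ⟨hMt, f, hfM, hfA, hfu⟩ := hrest M hM hMn
  have hAf : ∀ x ∈ A, x = f := fun x hx => card_le_one.1 hA x hx f hfA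
  have hc2 : G.card ≤ G0.card + 2 := by
    have h1 : G ⊆ insert M (G0 ∪ G1) := by
      intro M' hM'
      by_cases h : M' ∈ G0 ∪ G1
      · exact mem_insert_of_mem h
      · obtain ⟨_, f', hf', hfA', _⟩ := hrest M' hM' h
        rw [hAf f' hfA'] at hf'
        obtain ⟨v, hv⟩ := (hG.cc M hM).u5.ne f hfM
        exact mem_insert.2 (Or.inl (uncross_adj hG hM hM' hfM hf' ⟨v, hv, hv⟩))
    have h3 := card_le_card h1
    have h4 := card_insert_le M (G0 ∪ G1)
    omega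
  -- `B` misses the pieces other than `W`
  have hBZ : ∀ Z ∈ F, Z ≠ W → ∀ b ∈ Z, b ∉ B := by
    intro Z hZ _ b hbZ hbB
    have hB1 : 0 < B.card := card_pos.2 ⟨b, hbB⟩
    obtain ⟨M0, hM0⟩ : G0.Nonempty := card_pos.1 (by omega)
    obtain ⟨hM0G, hM0F⟩ := (mem0 M0).1 hM0
    obtain ⟨Z0, hZ0, hZ0W, hMZ⟩ := hin M0 hM0G hM0F
    by_cases hx : ∃ x ∈ Z0, x ∉ M0
    · have h1 := nl1 (N := B) (hF.cc Z0 hZ0) (hG.cc M0 hM0G) hMZ hx (by
        intro x hxZ hxM hd
        rcases hnb M0 hM0G hM0F x (hFK Z0 hZ0 hxZ) hxM hd with h | h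
        · exact absurd (mem_star.1 (mem_sdiff.1 h).1).2 (hZs Z0 hZ0 hZ0W x hxZ)
        · exact h)
      omega
    · have hZM : ∀ x ∈ Z0, x ∈ M0 := fun x h => by
        by_contra h'
        exact hx ⟨x, h, h'⟩
      have h1 := nl1 (N := star K s \ W) hK (hG.cc M0 hM0G) (hGK M0 hM0G)
        ⟨w, hFK W hW hwW, fun h => hGs M0 hM0G w h hws⟩ (by
          intro x hxK hxM hd
          rcases hnb M0 hM0G hM0F x hxK hxM hd with h | h
          · exact h
          · exfalso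
            have hxb : x = b := card_le_one.1 hB x h b hbB
            obtain ⟨e, he, ha⟩ := dd_pos.1 hd
            rw [hxb] at ha hxM
            have h3 : Z = Z0 := uncross_adj hF hZ0 hZ (hMZ he) hbZ ha
            exact hxM (hZM b (h3 ▸ hbZ)))
      omega
  refine hsmall M hM f fun e he => ?_
  by_cases heu : e ∈ un F
  · obtain ⟨Z, hZ, heZ⟩ := mem_un.1 heu
    by_cases hZW : Z = W
    · exact mem_insert_of_mem (hZW ▸ heZ)
    exfalso
    have hZG : Z ⊆ un G := by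
      intro x hx
      by_contra hxu
      exact hBZ Z hZ hZW x hx (memB x (hFK Z hZ hx) (hZs Z hZ hZW x hx) hxu)
    have hZM : Z ⊆ M := hG.conn_sub (hF.cc Z hZ).conn hZG hM heZ he
    have h1 := nl1 (N := A) (hG.cc M hM) (hF.cc Z hZ) hZM
      ⟨f, hfM, fun h => hfu (mem_un.2 ⟨Z, hZ, h⟩)⟩ (by
        intro x hxM hxZ hd
        exact memA x (hGK M hM hxM) (hMt x hxM) (uncross_out hF hZ hxZ hd))
    omega
  · exact mem_insert.2 (Or.inl (hAf e (memA e (hGK M hM he) (hMt e he) heu)))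

end Pool.Agent.Work.MP_d266e7_co.C5
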