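import Pool.Agent.Work.MP_d266e7_co.C5.Bad2
import Pool.Agent.Work.MP_d266e7_co.C5.Uncross

/-!
A double split with a single node piece. Minimise `|W|` over all `DS H t t' F`, `W ∈ F`
(`exists_min'`). `|W|` is odd. If `|W| ≥ 3` there is `s` with `dg H s = 3` and `2 ≤ dg W s`:
otherwise `dg W v ≤ 1 + (3 - dg H v)` on `cov W`, so `5 |W| ≤ |cov W| + ee W (dg H)` (`sum_deg`),
`ee W (dg H) ≤ ee H (dg H) ≤ 2` (`ee_eq`, `arith`), against `3 |cov W| ≤ 5 |W| + 17`.
`star H s` has at most one member outside `W`, so it is disjoint from `star H t` or from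
`star H t'` (`DS.symm`); say from `star H t`. Take `G` from `ds_of` for `(t, s)` and apply
`uncross` in `K = H \ star H t` (`star_sdiff`, `sdiff_star`, `facts`).
-/

namespace Pool.Agent.Work.MP_d266e7_co.C5

open Finset

variable {V : Type} [DecidableEq V]

theorem single_key [Infinite V] {H W : Finset (Finset V)} (hB : Bad H) {t t' s : V}
    {F : Finset (Finset (Finset V))} (h : DS H t t' F) (hW : W ∈ F) (h3 : dg H s = 3)
    (h2 : 2 ≤ dg W s) (dis : Disjoint (star H t) (star H s)) :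
    ∃ G, DS H t s G ∧ ∃ M ∈ G, M.card < W.card := by
  obtain ⟨G, hG⟩ := hB.ds_of h.d1 h3 dis
  have a := h.facts hB
  have b := hG.facts hB
  refine ⟨G, hG, uncross (t := t') (s := s) (hB.step h.d1).1 ?_ ?_ ?_ ?_ ?_ ?_ hW h2⟩
  · rwa [dg, star_sdiff dis]
  · exact sdiff_star h.dis ▸ h.fam
  · exact sdiff_star dis ▸ hG.fam
  · exact sdiff_star h.dis ▸ a.2.1
  · exact sdiff_star dis ▸ b.2.1
  · exact sdiff_star dis ▸ b.1

theorem single_deg [Infinite V] {H W : Finset (Finset V)} (hB : Bad H) (hW : W ⊆ H)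
    (h1 : 3 * (cov W).card ≤ 5 * W.card + 17) (h2 : 3 ≤ W.card) :
    ∃ s, dg H s = 3 ∧ 2 ≤ dg W s := by
  by_contra hn
  have h3 : ∑ v ∈ cov W, (star W v).card ≤ ∑ v ∈ cov W, (1 + (3 - dg H v)) :=
    sum_le_sum fun v _ => by
      have a := dg_mono hW v
      have b := hB.d3 v
      have c : ¬ (dg H v = 3 ∧ 2 ≤ dg W v) := fun c => hn ⟨v, c⟩
      show dg W v ≤ _
      omega
  have h4 : ∑ v ∈ cov W, (3 - dg H v) ≤ ee H (dg H) := sum_le_sum_of_subset (cov_mono hW)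
  have h5 := ee_eq hB.cc.u5 hB.d3
  have h6 := hB.arith.2.1
  rw [sum_deg (hB.cc.u5.mono hW), sum_add_distrib, ← card_eq_sum_ones] at h3
  omega

theorem Bad.exists_single [Infinite V] {H : Finset (Finset V)} (hB : Bad H) :
    ∃ t t' F u, DS H t t' F ∧ ({u} : Finset (Finset V)) ∈ F := by
  obtain ⟨W, ⟨t, t', F, h, hW⟩, hm⟩ := exists_min'
    (fun W => ∃ t t' F, DS H t t' F ∧ W ∈ F) Finset.card (by
      obtain ⟨t, t', F, h⟩ := hB.exists_ds
      obtain ⟨W, hW⟩ := card_pos.1 ((h.facts hB).1 ▸ Nat.succ_pos _ : 0 < F.card)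
      exact ⟨W, t, t', F, h, hW⟩)
  have a := (h.facts hB).2.2
  have a1 := a.1 W hW
  by_cases h1 : W.card = 1
  · obtain ⟨u, rfl⟩ := card_eq_one.1 h1
    exact ⟨t, t', F, u, h, hW⟩
  obtain ⟨s, h3, h2⟩ := single_deg hB (h.famH.sub W hW) (a.2 W hW) (by omega)
  by_cases d1 : Disjoint (star H t) (star H s)
  · obtain ⟨G, hG, M, hM, hlt⟩ := single_key hB h hW h3 h2 d1
    exact absurd (hm M ⟨_, _, G, hG, hM⟩) hlt.not_ge
  by_cases d2 : Disjoint (star H t') (star H s)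
  · obtain ⟨G, hG, M, hM, hlt⟩ := single_key hB h.symm hW h3 h2 d2
    exact absurd (hm M ⟨_, _, G, hG, hM⟩) hlt.not_ge
  obtain ⟨x, x1, x2⟩ := not_disjoint_iff.1 d1
  obtain ⟨y, y1, y2⟩ := not_disjoint_iff.1 d2
  have := dg_lt2 (h.famH.sub W hW) (mem_star.1 x2).1 (mem_star.1 y2).1
    (fun e => disjoint_left.1 h.dis x1 (e ▸ y1))
    (fun e => (mem_sdiff.1 (h.fam.sub W hW e)).2 (mem_union_left _ x1))
    (fun e => (mem_sdiff.1 (h.fam.sub W hW e)).2 (mem_union_right _ y1))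
    (mem_star.1 x2).2 (mem_star.1 y2).2
  omega

end Pool.Agent.Work.MP_d266e7_co.C5
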