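import Mathlib.Algebra.BigOperators.Fin
import Mathlib.Tactic.FinCases
import Pool.Agent.Work.MP_d266e7_co.C5.Bad5
import Pool.Agent.Work.MP_d266e7_co.C5.AbsSide
import Pool.Agent.Work.MP_d266e7_co.C5.Single

/-!
The case with one extra host `f`. `F = {{u}, W1, W2}` with `dd W1 f ≤ dd W2 f`.
Slacks `g_j = 5 |W_j| + 2 |cov W_j| + 3 - 17 tau W_j`; counting gives `g1 + g2 + 2 σ ≤ 1`
(`= 0` if `e = 2`), so `out = {t, t'}`. `eu = ee {u} (dg H)`, `e_j = ee W_j (dg H)`,
`eu + e1 + e2 ≤ ee H (dg H) = e` (`Fam.ee_eq`). `Side3` in `H \ star H t'` with hosts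
`![p 0, p 1, p 2, f]` and in `H \ star H t` with `![p' 0, p' 1, p' 2, f]`, pieces
`![{u}, W1, W2]` (`side3_mk`, `Bad.step`, `rem_tau`, `Side3.sideHyp`, `gain_le`, `Fam.five`).
`hu`, `h1`, `h2` of `absSide2` come from `ee_slots`, `Fam.sum_hosts`, `DS.hosts` and
`21 m_j + 33 + 6 g_j = 12 n_j`, `1 ≤ m_j`.
Then `bad_a1_end`: let `N` be the six hosts with `1 ≤ dd W2 x`; `gad1N` with `f` and `gain_le`
show `|cov N ∩ cov W2| ≤ 1` (else a gain of two), so each `dd W2 x ≤ 1` and at most two hosts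
have `dd W2 x = 1` (they share a vertex of `cov W2` of degree at most three). Hence `e2 = 2`,
`eu = 0`, `g1 = 0`, exactly two such hosts, one on each side (`Shadow.n1` for piece 2).
Apply `DS.uctx` with `W1`, `R = insert f W2` (`absorb`), `dl x = dd W2 (q x)`, and
`UCtx.false_of` with `σ = 1`, `e = 2`.
-/

namespace Pool.Agent.Work.MP_d266e7_co.C5

open Finset

variable {V : Type} [DecidableEq V]

theorem bad6_sum {F : Finset (Finset (Finset V))} {u : Finset V} {W1 W2 : Finset (Finset V)}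
    (hF : F = {{u}, W1, W2}) (n1 : W1 ≠ {u}) (n2 : W2 ≠ {u}) (n3 : W1 ≠ W2)
    (g : Finset (Finset V) → ℕ) : ∑ Z ∈ F, g Z = g {u} + g W1 + g W2 := by
  have a : ({u} : Finset (Finset V)) ∉ ({W1, W2} : Finset (Finset (Finset V))) := by
    simp only [mem_insert, mem_singleton, not_or]
    exact ⟨n1.symm, n2.symm⟩
  rw [hF, sum_insert a, sum_pair n3, add_assoc]

theorem bad6_enum {α : Type} [DecidableEq α] {s : Finset α} {p : Fin 3 → α}
    (hi : Function.Injective p) (h1 : ∀ i, p i ∈ s) (h2 : ∀ e ∈ s, ∃ i, e = p i) (g : α → ℕ) :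
    ∑ e ∈ s, g e = g (p 0) + g (p 1) + g (p 2) := by
  have e : s = univ.image p := by
    ext Z
    simp only [mem_image, mem_univ, true_and]
    exact ⟨fun hZ => (h2 Z hZ).imp fun _ h => h.symm, fun ⟨i, h⟩ => h ▸ h1 i⟩
  rw [e, sum_image fun a _ b _ h => hi h, Fin.sum_univ_three]

theorem bad6_f {H : Finset (Finset V)} {t t' : V} {F : Finset (Finset (Finset V))}
    {f : Finset V} (hf : (H \ (star H t ∪ star H t')) \ un F = {f}) :
    f ∈ H ∧ f ∉ star H t ∧ f ∉ star H t' ∧ f ∉ un F := by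
  have a : f ∈ (H \ (star H t ∪ star H t')) \ un F := hf ▸ mem_singleton_self f
  simp only [mem_sdiff, mem_union, not_or] at a
  exact ⟨a.1.1, a.1.2.1, a.1.2.2, a.2⟩

theorem bad6_star {H : Finset (Finset V)} {t t' : V} {F : Finset (Finset (Finset V))}
    (h : DS H t t' F) {x : Finset V} (hx : x ∈ star H t ∪ star H t') : x ∈ H ∧ x ∉ un F := by
  refine ⟨?_, fun c => (mem_sdiff.1 (h.fam.un_sub c)).2 hx⟩
  rcases mem_union.1 hx with a | a <;> exact (mem_star.1 a).1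

theorem bad6_count [Infinite V] {H : Finset (Finset V)} (hB : Bad H) {t t' : V}
    {F : Finset (Finset (Finset V))} (h : DS H t t' F) {u : Finset V}
    {W1 W2 : Finset (Finset V)} (hF : F = {{u}, W1, W2}) (n1 : W1 ≠ {u}) (n2 : W2 ≠ {u})
    (n3 : W1 ≠ W2) (ha : ((H \ (star H t ∪ star H t')) \ un F).card = 1) :
    tau H = tau W1 + tau W2 + 3 ∧
      ee {u} (dg H) + ee W1 (dg H) + ee W2 (dg H) ≤ ee H (dg H) ∧ ee H (dg H) ≤ 2 ∧
      5 * W1.card + 2 * (cov W1).card + 5 * W2.card + 2 * (cov W2).card +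
        2 * (cov H \ cov (un F)).card + 1 ≤ 17 * tau W1 + 17 * tau W2 ∧
      (ee H (dg H) = 2 → 5 * W1.card + 2 * (cov W1).card + 5 * W2.card + 2 * (cov W2).card +
        2 * (cov H \ cov (un F)).card + 2 ≤ 17 * tau W1 + 17 * tau W2) := by
  have hs := bad6_sum hF n1 n2 n3
  have hu : ({u} : Finset (Finset V)) ∈ F := hF ▸ mem_insert_self _ _
  have u5 : u.card = 5 := (h.famH.cc _ hu).u5 u (mem_singleton_self u)
  have c1 := h.famH.card_eq
  have c2 := h.famH.cov_eq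
  have c3 := h.famH.tau_un
  have c4 := h.famH.ee_eq (dg H)
  have c5 := h.hosts.2
  have c6 := h.tau2
  have c7 := ee_eq hB.cc.u5 hB.d3
  obtain ⟨a1, a2, _, a4, a5⟩ := hB.arith
  rw [hs] at c1 c2 c3 c4
  rw [card_singleton] at c1
  rw [cov_singleton, u5] at c2
  rw [tau_singleton (card_pos.1 (by omega))] at c3
  refine ⟨by omega, by omega, by omega, by omega, fun c => ?_⟩
  have := a5 (by omega)
  omega

theorem bad6_slots {H : Finset (Finset V)} (hB : Bad H) {t t' : V}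
    {F : Finset (Finset (Finset V))} (h : DS H t t' F) {f : Finset V}
    (hf : (H \ (star H t ∪ star H t')) \ un F = {f}) {W : Finset (Finset V)} (hW : W ∈ F) :
    5 * W.card + (∑ x ∈ star H t, dd W x + ∑ x ∈ star H t', dd W x + dd W f) + ee W (dg H) =
      3 * (cov W).card := by
  have c1 := ee_slots (h.famH.sub W hW) (h.famH.cc W hW).u5 hB.d3
  obtain ⟨_, f2, f3, _⟩ := bad6_f hf
  have d : Disjoint (star H t ∪ star H t') {f} :=
    disjoint_singleton_right.2 fun c => (mem_union.1 c).elim f2 f3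
  rw [h.famH.sum_hosts hW, h.hosts.1, hf, sum_union d, sum_union h.dis, sum_singleton] at c1
  exact c1

theorem bad6_host {H : Finset (Finset V)} {t t' : V} {F : Finset (Finset (Finset V))}
    (h : DS H t t' F) (hout : cov H \ cov (un F) = {t, t'}) {x : Finset V}
    (hx : x ∈ star H t) : x \ cov (un F) = {t} := by
  obtain ⟨a1, a2⟩ := mem_star.1 hx
  ext v
  rw [mem_sdiff, mem_singleton]
  constructor
  · rintro ⟨b1, b2⟩
    have b3 : v ∈ cov H \ cov (un F) := mem_sdiff.2 ⟨mem_cov.2 ⟨x, a1, b1⟩, b2⟩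
    rw [hout] at b3
    rcases mem_insert.1 b3 with c | c
    · exact c
    · exact absurd (mem_star.2 ⟨a1, mem_singleton.1 c ▸ b1⟩) (disjoint_left.1 h.dis hx)
  · rintro rfl
    exact ⟨a2, (mem_sdiff.1 h.out.2.1).2⟩

theorem bad6_fout {H : Finset (Finset V)} {t t' : V} {F : Finset (Finset (Finset V))}
    (hout : cov H \ cov (un F) = {t, t'}) {f : Finset V}
    (hf : (H \ (star H t ∪ star H t')) \ un F = {f}) : f \ cov (un F) = ∅ := by
  obtain ⟨f1, f2, f3, _⟩ := bad6_f hf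
  refine eq_empty_of_forall_notMem fun v hv => ?_
  obtain ⟨b1, b2⟩ := mem_sdiff.1 hv
  have b3 : v ∈ cov H \ cov (un F) := mem_sdiff.2 ⟨mem_cov.2 ⟨f, f1, b1⟩, b2⟩
  rw [hout] at b3
  rcases mem_insert.1 b3 with c | c
  · exact f2 (mem_star.2 ⟨f1, c ▸ b1⟩)
  · exact f3 (mem_star.2 ⟨f1, mem_singleton.1 c ▸ b1⟩)

theorem bad6_side [Infinite V] {H : Finset (Finset V)} (hB : Bad H) {t t' : V}
    {F : Finset (Finset (Finset V))} (h : DS H t t' F) {u f : Finset V}
    {W1 W2 : Finset (Finset V)} (hF : F = {{u}, W1, W2}) (n1 : W1 ≠ {u}) (n2 : W2 ≠ {u})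
    (n3 : W1 ≠ W2) (hf : (H \ (star H t ∪ star H t')) \ un F = {f})
    (hout : cov H \ cov (un F) = {t, t'}) {p : Fin 3 → Finset V} (hp : Function.Injective p)
    (hp1 : ∀ x, p x ∈ star H t) (hp2 : ∀ e ∈ star H t, ∃ x, e = p x) {g1 g2 : ℕ}
    (hg1 : 5 * W1.card + 2 * (cov W1).card + 3 ≤ 17 * tau W1 + g1)
    (hg2 : 5 * W2.card + 2 * (cov W2).card + 3 ≤ 17 * tau W2 + g2) :
    SideHyp (fun i x => dd (![{u}, W1, W2] i) (![p 0, p 1, p 2, f] x))
      (fun i x y => NJ (![{u}, W1, W2] i) (![p 0, p 1, p 2, f] x) (![p 0, p 1, p 2, f] y))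
      g1 g2 := by
  have hs := bad6_sum hF n1 n2 n3
  obtain ⟨f1, f2, f3, f4⟩ := bad6_f hf
  have hu : ({u} : Finset (Finset V)) ∈ F := hF ▸ mem_insert_self _ _
  have m1 : W1 ∈ F := hF ▸ mem_insert_of_mem (mem_insert_self _ _)
  have m2 : W2 ∈ F := hF ▸ mem_insert_of_mem (mem_insert_of_mem (mem_singleton_self _))
  have u5 : u.card = 5 := (h.famH.cc _ hu).u5 u (mem_singleton_self u)
  have hK := (hB.step h.d2).1
  have hFK : Fam (H \ star H t') F :=
    h.fam.mono (sdiff_subset_sdiff Subset.rfl subset_union_right) Subset.rfl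
  have r1 := rem_tau hB.cc (t := t') (by rw [h.d2]; omega)
  have r2 := h.tau2
  have r3 := h.famH.tau_un
  rw [hs] at r3
  have d3 : ∀ v, dg (H \ star H t') v ≤ 3 := fun v => (dg_mono sdiff_subset v).trans (hB.d3 v)
  have hpf : ∀ i, p i ≠ f := fun i c => f2 (c ▸ hp1 i)
  have hpK : ∀ i, p i ∈ (H \ star H t') \ un F := fun i =>
    mem_sdiff.2 ⟨mem_sdiff.2 ⟨(mem_star.1 (hp1 i)).1, disjoint_left.1 h.dis (hp1 i)⟩,
      (bad6_star h (mem_union_left _ (hp1 i))).2⟩
  have hS : Side3 (H \ star H t') ![{u}, W1, W2] ![p 0, p 1, p 2, f] := by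
    refine side3_mk hK hFK ?_ ?_ ?_ ?_ ?_ ?_ ?_
    · intro i j hij
      fin_cases i <;> fin_cases j <;> first | rfl | exfalso
      · exact n1 hij.symm
      · exact n2 hij.symm
      · exact n1 hij
      · exact n3 hij
      · exact n2 hij
      · exact n3 hij.symm
    · intro i
      fin_cases i
      exacts [hu, m1, m2]
    · intro Z hZ
      rw [hF] at hZ
      simp only [mem_insert, mem_singleton] at hZ
      rcases hZ with rfl | rfl | rfl
      exacts [⟨0, rfl⟩, ⟨1, rfl⟩, ⟨2, rfl⟩]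
    · intro i j hij
      fin_cases i <;> fin_cases j <;> first
        | rfl
        | exact absurd (hp hij) (by decide)
        | exact absurd hij (hpf _)
        | exact absurd hij.symm (hpf _)
    · intro i
      fin_cases i
      exacts [hpK 0, hpK 1, hpK 2, mem_sdiff.2 ⟨mem_sdiff.2 ⟨f1, f3⟩, f4⟩]
    · intro e he
      by_cases c : e ∈ star H t
      · obtain ⟨i, rfl⟩ := hp2 e c
        fin_cases i
        exacts [⟨0, rfl⟩, ⟨1, rfl⟩, ⟨2, rfl⟩]
      · obtain ⟨a1, a2⟩ := mem_sdiff.1 he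
        obtain ⟨a3, a4⟩ := mem_sdiff.1 a1
        have a5 : e ∈ (H \ (star H t ∪ star H t')) \ un F :=
          mem_sdiff.2 ⟨mem_sdiff.2 ⟨a3, fun c' => (mem_union.1 c').elim c a4⟩, a2⟩
        rw [hf] at a5
        exact ⟨3, mem_singleton.1 a5⟩
    · show tau {u} + tau W1 + tau W2 < _
      omega
  have h4 : ∀ i, dd {u} (p i) + dd W1 (p i) + dd W2 (p i) = 4 := fun i => by
    have a := h.famH.five (hB.cc.u5 _ (mem_star.1 (hp1 i)).1)
    rw [hs, bad6_host h hout (hp1 i), card_singleton] at a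
    omega
  have h5 : dd {u} f + dd W1 f + dd W2 f = 5 := by
    have a := h.famH.five (hB.cc.u5 _ f1)
    rw [hs, bad6_fout hout hf, card_empty] at a
    omega
  refine hS.sideHyp ?_ (fun a b c => ?_) (fun a b c => ?_) (h4 0) (h4 1) (h4 2) h5
  · show (cov {u}).card = 5
    rw [cov_singleton, u5]
  · have := gain_le (hFK.cc _ m1) (hFK.sub _ m1) d3 c
    omega
  · have := gain_le (hFK.cc _ m2) (hFK.sub _ m2) d3 c
    omega

theorem bad6_two {H : Finset (Finset V)} (h3 : ∀ v, dg H v ≤ 3) {W S : Finset (Finset V)}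
    (hW : W ⊆ H) (hS : ∀ x ∈ S, x ∈ H ∧ x ∉ W)
    (hc : (cov (S.filter (fun x => 1 ≤ dd W x)) ∩ cov W).card ≤ 1) :
    (∀ x ∈ S, dd W x ≤ 1) ∧ ∑ x ∈ S, dd W x ≤ 2 := by
  have a1 : ∀ x ∈ S, x ∩ cov W ⊆ cov (S.filter (fun x => 1 ≤ dd W x)) ∩ cov W :=
    fun x hx v hv => mem_inter.2 ⟨mem_cov.2 ⟨x, mem_filter.2 ⟨hx, card_pos.2 ⟨v, hv⟩⟩,
      (mem_inter.1 hv).1⟩, (mem_inter.1 hv).2⟩
  have a2 : ∀ x ∈ S, dd W x ≤ 1 := fun x hx => (card_le_card (a1 x hx)).trans hc
  refine ⟨a2, ?_⟩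
  have a3 : ∑ x ∈ S, dd W x ≤ (S.filter (fun x => 1 ≤ dd W x)).card := by
    rw [card_filter]
    refine sum_le_sum fun x hx => ?_
    have := a2 x hx
    split_ifs <;> omega
  refine a3.trans ?_
  rcases (S.filter (fun x => 1 ≤ dd W x)).eq_empty_or_nonempty with c | ⟨y, hy⟩
  · rw [c]
    simp
  obtain ⟨b, hb⟩ := card_pos.1 (mem_filter.1 hy).2
  have b1 := a1 y (mem_filter.1 hy).1 hb
  have b2 := dg_add (N := S.filter (fun x => 1 ≤ dd W x)) hW
    (fun x hx => (hS x (mem_filter.1 hx).1).1)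
    (disjoint_right.2 fun x hx => (hS x (mem_filter.1 hx).1).2) b
  have b3 := dg_pos.2 (mem_inter.1 b1).2
  have b4 : (S.filter (fun x => 1 ≤ dd W x)).card ≤ dg (S.filter (fun x => 1 ≤ dd W x)) b := by
    refine card_le_card fun x hx => mem_star.2 ⟨hx, ?_⟩
    obtain ⟨v, hv⟩ := card_pos.1 (mem_filter.1 hx).2
    rw [card_le_one.1 hc b b1 v (a1 x (mem_filter.1 hx).1 hv)]
    exact (mem_inter.1 hv).1
  have := h3 b
  omega

theorem bad6_dl {H : Finset (Finset V)} {F : Finset (Finset (Finset V))} (h : Fam H F)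
    {u : Finset V} {W1 W2 : Finset (Finset V)} (hF : F = {{u}, W1, W2}) (n2 : W2 ≠ {u})
    (n3 : W1 ≠ W2) {x : Finset V} {s : V} (hx : x \ cov (un F) = {s}) :
    (x \ insert s (u ∪ cov W1)).card = dd W2 x := by
  have hu : ({u} : Finset (Finset V)) ∈ F := hF ▸ mem_insert_self _ _
  have m1 : W1 ∈ F := hF ▸ mem_insert_of_mem (mem_insert_self _ _)
  have m2 : W2 ∈ F := hF ▸ mem_insert_of_mem (mem_insert_of_mem (mem_singleton_self _))
  have d1 := (h.sep _ m2 _ hu n2).disjoint_cov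
  have d2 := (h.sep _ m2 _ m1 n3.symm).disjoint_cov
  rw [cov_singleton] at d1
  have e1 : ∀ v, v ∈ cov (un F) ↔ v ∈ u ∨ v ∈ cov W1 ∨ v ∈ cov W2 := fun v => by
    rw [faml_cov, hF]
    simp only [biUnion_insert, singleton_biUnion, mem_union, cov_singleton]
  have e2 : ∀ v, (v ∈ x ∧ v ∉ cov (un F)) ↔ v = s := fun v => by
    rw [← mem_sdiff, hx, mem_singleton]
  unfold dd
  congr 1
  ext v
  simp only [mem_sdiff, mem_insert, mem_union, mem_inter, not_or]
  have a1 := e1 v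
  have a2 := e2 v
  have a3 : v ∈ cov W2 → v ∉ u := fun c => disjoint_left.1 d1 c
  have a4 : v ∈ cov W2 → v ∉ cov W1 := fun c => disjoint_left.1 d2 c
  tauto

theorem bad_a1_end [Infinite V] {H : Finset (Finset V)} (hB : Bad H) {t t' : V}
    {F : Finset (Finset (Finset V))} (h : DS H t t' F) {u f : Finset V}
    {W1 W2 : Finset (Finset V)} (hF : F = {{u}, W1, W2}) (n1 : W1 ≠ {u}) (n2 : W2 ≠ {u})
    (n3 : W1 ≠ W2) (hf : (H \ (star H t ∪ star H t')) \ un F = {f})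
    (hout : cov H \ cov (un F) = {t, t'})
    (hfu : dd {u} f = 0) (hf4 : 4 ≤ dd W2 f)
    (hnj : ∀ x ∈ star H t ∪ star H t', 1 ≤ dd W2 x → NJ W2 f x)
    (hT : ∃ x ∈ star H t, 1 ≤ dd W2 x) (hT' : ∃ x ∈ star H t', 1 ≤ dd W2 x) : False := by
  obtain ⟨f1, f2, f3, f4⟩ := bad6_f hf
  have hu : ({u} : Finset (Finset V)) ∈ F := hF ▸ mem_insert_self _ _
  have m1 : W1 ∈ F := hF ▸ mem_insert_of_mem (mem_insert_self _ _)
  have m2 : W2 ∈ F := hF ▸ mem_insert_of_mem (mem_insert_of_mem (mem_singleton_self _))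
  have hFH := h.famH
  obtain ⟨c1, c2, c3, c4, c5⟩ := bad6_count hB h hF n1 n2 n3 (by rw [hf, card_singleton])
  rw [hout, card_pair h.out.1] at c4 c5
  have d1 : ∀ v, dg W1 v ≤ 3 := fun v => (dg_mono (hFH.sub _ m1) v).trans (hB.d3 v)
  have g1 := gplus (hFH.cc _ m1) d1
  unfold GB at g1
  have hSW : ∀ x ∈ star H t ∪ star H t', x ∈ H ∧ x ∉ W2 := fun x hx =>
    ⟨(bad6_star h hx).1, fun c => (bad6_star h hx).2 (sub_un m2 c)⟩
  have hg := gain_le (hFH.cc _ m2) (hFH.sub _ m2) hB.d3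
    (gad1N (N := (star H t ∪ star H t').filter (fun x => 1 ≤ dd W2 x)) (hFH.sub _ m2) f1
      (fun c => f4 (sub_un m2 c)) fun y hy =>
        ⟨(hSW y (mem_filter.1 hy).1).1, (hSW y (mem_filter.1 hy).1).2,
          hnj y (mem_filter.1 hy).1 (mem_filter.1 hy).2⟩)
  have hc : (cov ((star H t ∪ star H t').filter (fun x => 1 ≤ dd W2 x)) ∩ cov W2).card ≤ 1 := by
    by_contra c
    have : 2 ≤ gainT (dd W2 f)
        (cov ((star H t ∪ star H t').filter (fun x => 1 ≤ dd W2 x)) ∩ cov W2).card := by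
      unfold gainT
      split_ifs <;> omega
    omega
  obtain ⟨k1, k2⟩ := bad6_two hB.d3 (hFH.sub _ m2) hSW hc
  rw [sum_union h.dis] at k2
  have s2 := bad6_slots hB h hf m2
  have s3 := (h.facts hB).2.2.1 W2 m2
  have s4 := card_pos.2 (hFH.cc _ m2).ne
  have s5 : dd W2 f ≤ 5 := (dd_le W2 f).trans (hB.cc.u5 f f1).le
  have he : ee H (dg H) = 2 := by omega
  have c6 := c5 he
  have eu : ee {u} (dg H) = 0 := by omega
  obtain ⟨p, p1, p2, p3⟩ := exists_enum (s := star H t) (k := 3) h.d1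
  obtain ⟨p', p1', p2', p3'⟩ := exists_enum (s := star H t') (k := 3) h.d2
  have ab := absorb (hFH.cc _ m2) (x := f) (by omega)
  have hU := h.uctx hB hu (R := insert f W2) m1 n1 (insert_subset f1 (hFH.sub _ m2)) ?_ ?_
    (by omega) p1 p2 p3 p1' p2' p3'
  · have e1 := bad6_enum p1 p2 p3 (dd W2)
    have e2 := bad6_enum p1' p2' p3' (dd W2)
    have hout' : cov H \ cov (un F) = {t', t} := by rw [hout, pair_comm]
    have l1 : ∀ i, (p i \ insert t (u ∪ cov W1)).card = dd W2 (p i) := fun i =>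
      bad6_dl hFH hF n2 n3 (bad6_host h hout (p2 i))
    have l2 : ∀ i, (p' i \ insert t' (u ∪ cov W1)).card = dd W2 (p' i) := fun i =>
      bad6_dl hFH hF n2 n3 (bad6_host h.symm hout' (p2' i))
    obtain ⟨D, hD⟩ : ∃ D, D = dl (fun b => if b then t else t') u W1
      ![p 0, p 1, p 2, p' 0, p' 1, p' 2] := ⟨_, rfl⟩
    have D0 : D 0 = dd W2 (p 0) := hD ▸ l1 0
    have D1 : D 1 = dd W2 (p 1) := hD ▸ l1 1
    have D2 : D 2 = dd W2 (p 2) := hD ▸ l1 2
    have D3 : D 3 = dd W2 (p' 0) := hD ▸ l2 0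
    have D4 : D 4 = dd W2 (p' 1) := hD ▸ l2 1
    have D5 : D 5 = dd W2 (p' 2) := hD ▸ l2 2
    have k3 : ∀ i, dd W2 (p i) ≤ 1 := fun i => k1 _ (mem_union_left _ (p2 i))
    have k4 : ∀ i, dd W2 (p' i) ≤ 1 := fun i => k1 _ (mem_union_right _ (p2' i))
    have t1 : 1 ≤ ∑ x ∈ star H t, dd W2 x := by
      obtain ⟨x, a1, a2⟩ := hT
      exact a2.trans (single_le_sum (f := dd W2) (fun _ _ => Nat.zero_le _) a1)
    have t2 : 1 ≤ ∑ x ∈ star H t', dd W2 x := by
      obtain ⟨x, a1, a2⟩ := hT'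
      exact a2.trans (single_le_sum (f := dd W2) (fun _ _ => Nat.zero_le _) a1)
    have sD : ∑ x, D x = D 0 + D 1 + D 2 + D 3 + D 4 + D 5 := Fin.sum_univ_six D
    refine hU.false_of 1 2 le_rfl ?_ ?_ ?_ ?_ le_rfl (by omega) (fun _ => by omega) ?_ <;>
      rw [← hD]
    · intro x
      fin_cases x
      exacts [D0.le.trans (k3 0), D1.le.trans (k3 1), D2.le.trans (k3 2), D3.le.trans (k4 0),
        D4.le.trans (k4 1), D5.le.trans (k4 2)]
    · omega
    · intro _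
      omega
    · omega
    · intro c
      omega
  · intro e he'
    rcases mem_insert.1 he' with rfl | c
    · unfold dd at hfu
      rw [cov_singleton, card_eq_zero] at hfu
      exact (disjoint_iff_inter_eq_empty.2 hfu).symm
    · exact disjoint_left.2 fun v a b =>
        hFH.sep _ hu _ m2 n2.symm u (mem_singleton_self u) e c ⟨v, a, b⟩
  · intro e he'
    by_cases c : e ∈ un F
    · obtain ⟨Z, z1, z2⟩ := mem_un.1 c
      rw [hF] at z1
      simp only [mem_insert, mem_singleton] at z1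
      rcases z1 with rfl | rfl | rfl
      · exact Or.inl (mem_singleton.1 z2)
      · exact Or.inr (Or.inl z2)
      · exact Or.inr (Or.inr (mem_insert_of_mem z2))
    · have a : e ∈ (H \ (star H t ∪ star H t')) \ un F := mem_sdiff.2 ⟨he', c⟩
      rw [hf] at a
      exact Or.inr (Or.inr (mem_singleton.1 a ▸ mem_insert_self _ _))

theorem bad6_some {d : Fin 3 → Fin 4 → ℕ} {R : Fin 3 → Fin 4 → Fin 4 → Prop} (h : Shadow d R) :
    1 ≤ d 2 0 ∨ 1 ≤ d 2 1 ∨ 1 ≤ d 2 2 := by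
  by_contra c
  have a := h.n1 2
  have b : univ.filter (fun x => 1 ≤ d 2 x) ⊆ {3} := fun x hx => by
    have := (mem_filter.1 hx).2
    fin_cases x
    · exact absurd (Or.inl this) c
    · exact absurd (Or.inr (Or.inl this)) c
    · exact absurd (Or.inr (Or.inr this)) c
    · exact mem_singleton_self _
  have := card_le_card b
  rw [card_singleton] at this
  omega

theorem bad6_main [Infinite V] {H : Finset (Finset V)} (hB : Bad H) {t t' : V}
    {F : Finset (Finset (Finset V))} (h : DS H t t' F) {u f : Finset V}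
    {W1 W2 : Finset (Finset V)} (hF : F = {{u}, W1, W2}) (n1 : W1 ≠ {u}) (n2 : W2 ≠ {u})
    (n3 : W1 ≠ W2) (hf : (H \ (star H t ∪ star H t')) \ un F = {f})
    (hle : dd W1 f ≤ dd W2 f) : False := by
  have hu : ({u} : Finset (Finset V)) ∈ F := hF ▸ mem_insert_self _ _
  have m1 : W1 ∈ F := hF ▸ mem_insert_of_mem (mem_insert_self _ _)
  have m2 : W2 ∈ F := hF ▸ mem_insert_of_mem (mem_insert_of_mem (mem_singleton_self _))
  have hFH := h.famH
  have u5 : u.card = 5 := (hFH.cc _ hu).u5 u (mem_singleton_self u)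
  obtain ⟨c1, c2, c3, c4, c5⟩ := bad6_count hB h hF n1 n2 n3 (by rw [hf, card_singleton])
  have g1 := gplus (hFH.cc _ m1) fun v => (dg_mono (hFH.sub _ m1) v).trans (hB.d3 v)
  have g2 := gplus (hFH.cc _ m2) fun v => (dg_mono (hFH.sub _ m2) v).trans (hB.d3 v)
  unfold GB at g1 g2
  obtain ⟨o1, o2, o3⟩ := h.out
  have o4 : ({t, t'} : Finset V) ⊆ cov H \ cov (un F) :=
    insert_subset o2 (singleton_subset_iff.2 o3)
  have hout : cov H \ cov (un F) = {t, t'} :=
    (eq_of_subset_of_card_le o4 (by rw [card_pair o1]; omega)).symm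
  have hout' : cov H \ cov (un F) = {t', t} := by rw [hout, pair_comm]
  have hf' : (H \ (star H t' ∪ star H t)) \ un F = {f} := by rw [union_comm, hf]
  rw [hout, card_pair o1] at c4 c5
  obtain ⟨a1, ha1⟩ : ∃ a, 5 * W1.card + 2 * (cov W1).card + 3 = 17 * tau W1 + a :=
    Nat.exists_eq_add_of_le (by omega)
  obtain ⟨a2, ha2⟩ : ∃ a, 5 * W2.card + 2 * (cov W2).card + 3 = 17 * tau W2 + a :=
    Nat.exists_eq_add_of_le (by omega)
  obtain ⟨p, p1, p2, p3⟩ := exists_enum (s := star H t) (k := 3) h.d1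
  obtain ⟨p', p1', p2', p3'⟩ := exists_enum (s := star H t') (k := 3) h.d2
  have S1 := bad6_side hB h hF n1 n2 n3 hf hout p1 p2 p3 ha1.le ha2.le
  have S2 := bad6_side hB h.symm hF n1 n2 n3 hf' hout' p1' p2' p3' ha1.le ha2.le
  have s0 := bad6_slots hB h hf hu
  have s1 := bad6_slots hB h hf m1
  have s2 := bad6_slots hB h hf m2
  rw [bad6_enum p1 p2 p3, bad6_enum p1' p2' p3'] at s0 s1 s2
  rw [card_singleton, cov_singleton, u5] at s0
  have v1 := (h.facts hB).2.2.1 W1 m1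
  have v2 := (h.facts hB).2.2.1 W2 m2
  have w1 := card_pos.2 (hFH.cc _ m1).ne
  have w2 := card_pos.2 (hFH.cc _ m2).ne
  obtain ⟨r1, r2, r3, r4⟩ := absSide2 (eu := ee {u} (dg H)) (e1 := ee W1 (dg H))
    (e2 := ee W2 (dg H)) S1 S2 rfl rfl rfl hle (by omega) (by omega)
    (fun c => by
      have := c5 (by omega)
      omega)
    (by
      show dd {u} (p 0) + dd {u} (p 1) + dd {u} (p 2) +
        (dd {u} (p' 0) + dd {u} (p' 1) + dd {u} (p' 2)) + dd {u} f + _ = 10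
      omega)
    (by
      show _ ≤ dd W1 (p 0) + dd W1 (p 1) + dd W1 (p 2) +
        (dd W1 (p' 0) + dd W1 (p' 1) + dd W1 (p' 2)) + dd W1 f + _
      omega)
    (by
      show _ ≤ dd W2 (p 0) + dd W2 (p 1) + dd W2 (p 2) +
        (dd W2 (p' 0) + dd W2 (p' 1) + dd W2 (p' 2)) + dd W2 f + _
      omega)
  refine bad_a1_end hB h hF n1 n2 n3 hf hout r1 r2 (fun x hx hd => ?_) ?_ ?_
  · rcases mem_union.1 hx with c | c
    · obtain ⟨i, rfl⟩ := p3 x c
      fin_cases i
      exacts [r3 0 (by decide) hd, r3 1 (by decide) hd, r3 2 (by decide) hd]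
    · obtain ⟨i, rfl⟩ := p3' x c
      fin_cases i
      exacts [r4 0 (by decide) hd, r4 1 (by decide) hd, r4 2 (by decide) hd]
  · rcases bad6_some S1.sh with c | c | c
    exacts [⟨_, p2 0, c⟩, ⟨_, p2 1, c⟩, ⟨_, p2 2, c⟩]
  · rcases bad6_some S2.sh with c | c | c
    exacts [⟨_, p2' 0, c⟩, ⟨_, p2' 1, c⟩, ⟨_, p2' 2, c⟩]

theorem bad_a1 [Infinite V] {H : Finset (Finset V)} (hB : Bad H) {t t' : V}
    {F : Finset (Finset (Finset V))} (h : DS H t t' F) {u : Finset V}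
    (hu : ({u} : Finset (Finset V)) ∈ F)
    (ha : ((H \ (star H t ∪ star H t')) \ un F).card = 1) : False := by
  obtain ⟨f, hf⟩ := card_eq_one.1 ha
  have c1 := (h.facts hB).1
  have c2 : (F.erase {u}).card = 2 := by
    rw [card_erase_of_mem hu]
    omega
  obtain ⟨W1, W2, n3, hE⟩ := card_eq_two.1 c2
  have m1 : W1 ∈ F.erase {u} := hE ▸ mem_insert_self _ _
  have m2 : W2 ∈ F.erase {u} := hE ▸ mem_insert_of_mem (mem_singleton_self _)
  have hF : F = {{u}, W1, W2} := by rw [← hE, insert_erase hu]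
  rcases le_total (dd W1 f) (dd W2 f) with c | c
  · exact bad6_main hB h hF (mem_erase.1 m1).1 (mem_erase.1 m2).1 n3 hf c
  · exact bad6_main hB h (by rw [hF, pair_comm]) (mem_erase.1 m2).1 (mem_erase.1 m1).1 n3.symm
      hf c

theorem bad_false [Infinite V] {H : Finset (Finset V)} (hB : Bad H) : False := by
  obtain ⟨t, t', F, u, h, hu⟩ := hB.exists_single
  have h1 := (h.facts hB).2.1
  by_cases h0 : ((H \ (star H t ∪ star H t')) \ un F).card = 0
  · exact bad_a0 hB h hu h0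
  · exact bad_a1 hB h hu (by omega)

end Pool.Agent.Work.MP_d266e7_co.C5
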