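import Pool.Agent.Work.MP_d266e7_co.C5.Defs

/-!
Basic facts: degrees, absorption, critical cores and counting over families.
-/

namespace Pool.Agent.Work.MP_d266e7_co.C5

open Finset

variable {V : Type} [DecidableEq V]

theorem mem_un {F : Finset (Finset (Finset V))} {e : Finset V} : e ∈ un F ↔ ∃ W ∈ F, e ∈ W := by
  simp [un]

theorem dg_mono {A B : Finset (Finset V)} (h : A ⊆ B) (v : V) : dg A v ≤ dg B v :=
  card_le_card (star_mono h v)

theorem dg_pos {S : Finset (Finset V)} {v : V} : 1 ≤ dg S v ↔ v ∈ cov S := by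
  refine card_pos.trans ⟨fun ⟨e, he⟩ => mem_cov.2 ⟨e, mem_star.1 he⟩, fun h => ?_⟩
  obtain ⟨e, he⟩ := mem_cov.1 h
  exact ⟨e, mem_star.2 he⟩

/-- members outside `W` through `v` add to the degree -/
theorem dg_add {W H N : Finset (Finset V)} (hW : W ⊆ H) (hN : N ⊆ H) (hd : Disjoint W N) (v : V) :
    dg W v + dg N v ≤ dg H v := by
  unfold dg
  have h1 : Disjoint (star W v) (star N v) := hd.mono (filter_subset _ _) (filter_subset _ _)
  rw [← card_union_of_disjoint h1]
  exact card_le_card (union_subset (star_mono hW v) (star_mono hN v))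

theorem dg_lt {W H : Finset (Finset V)} {x : Finset V} {v : V} (hW : W ⊆ H) (hx : x ∈ H)
    (hxW : x ∉ W) (hv : v ∈ x) : dg W v < dg H v := by
  exact card_lt_card ⟨star_mono hW v, fun h => hxW (mem_star.1 (h (mem_star.2 ⟨hx, hv⟩))).1⟩

theorem dg_lt2 {W H : Finset (Finset V)} {x y : Finset V} {v : V} (hW : W ⊆ H) (hx : x ∈ H)
    (hy : y ∈ H) (hxy : x ≠ y) (hxW : x ∉ W) (hyW : y ∉ W) (hv : v ∈ x) (hv' : v ∈ y) :
    dg W v + 2 ≤ dg H v := by
  have h1 := dg_lt (subset_insert x W) (mem_insert_self x W) hxW hv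
  have h2 := dg_lt (insert_subset hx hW) hy
    (fun h => (mem_insert.1 h).elim (fun e => hxy e.symm) hyW) hv'
  omega

theorem dd_pos {W : Finset (Finset V)} {x : Finset V} : 1 ≤ dd W x ↔ ∃ w ∈ W, Adj x w := by
  refine card_pos.trans ⟨fun ⟨v, hv⟩ => ?_, fun ⟨w, hw, v, h1, h2⟩ =>
    ⟨v, mem_inter.2 ⟨h1, mem_cov.2 ⟨w, hw, h2⟩⟩⟩⟩
  obtain ⟨w, hw, h2⟩ := mem_cov.1 (mem_inter.1 hv).2
  exact ⟨w, hw, v, (mem_inter.1 hv).1, h2⟩

theorem dd_le (W : Finset (Finset V)) (x : Finset V) : dd W x ≤ x.card :=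
  card_le_card inter_subset_left

theorem dd_sep {W W' : Finset (Finset V)} (h : Sep W W') {x : Finset V} (hx : x ∈ W') :
    dd W x = 0 := by
  by_contra h0
  obtain ⟨w, hw, ha⟩ := dd_pos.1 (Nat.one_le_iff_ne_zero.2 h0)
  exact h w hw x hx ha.symm

theorem cov_singleton (u : Finset V) : cov ({u} : Finset (Finset V)) = u := by
  simp [cov]

theorem tau_singleton {u : Finset V} (h : u.Nonempty) : tau ({u} : Finset (Finset V)) = 1 := by
  obtain ⟨v, hv⟩ := h
  refine le_antisymm (tau_le_one v fun e he => mem_singleton.1 he ▸ hv)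
    (tau_pos (fun e he => ⟨v, mem_singleton.1 he ▸ hv⟩) (singleton_nonempty u))

theorem cc_singleton {u : Finset V} (h : u.card = 5) : CC ({u} : Finset (Finset V)) := by
  refine ⟨fun e he => mem_singleton.1 he ▸ h, fun e he => ?_, fun W hW h1 h2 => ?_,
    singleton_nonempty u⟩
  · rw [mem_singleton.1 he, erase_singleton, tau_empty, tau_singleton (card_pos.1 (by omega))]
    exact Nat.one_pos
  · exact absurd (h1.subset_singleton_iff.1 hW) h2

/-- a minimum transversal lies inside the covered vertices -/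
theorem min_sub {W : Finset (Finset V)} {C : Finset V} (hC : Hits C W) (hc : C.card ≤ tau W) :
    C ⊆ cov W := by
  have h1 : tau W ≤ (C ∩ cov W).card := tau_le fun e he => by
    obtain ⟨v, h1, h2⟩ := hC e he
    exact ⟨v, h1, mem_inter.2 ⟨h2, mem_cov.2 ⟨e, he, h1⟩⟩⟩
  exact inter_eq_left.1 (eq_of_subset_of_card_le inter_subset_left (hc.trans h1))

/-- every covered vertex of a critical family is in a minimum transversal -/
theorem exists_cover_mem {W : Finset (Finset V)} (h : CC W) {v : V} (hv : v ∈ cov W) :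
    ∃ C, Hits C W ∧ C.card = tau W ∧ v ∈ C := by
  obtain ⟨e, he, hve⟩ := mem_cov.1 hv
  obtain ⟨T, hT, hc⟩ := exists_opt (h.u5.ne.mono (erase_subset e W))
  have h1 : Hits (insert v T) W := fun f hf => by
    by_cases hfe : f = e
    · exact ⟨v, hfe ▸ hve, mem_insert_self _ _⟩
    · obtain ⟨w, h1, h2⟩ := hT f (mem_erase.2 ⟨hfe, hf⟩)
      exact ⟨w, h1, mem_insert_of_mem h2⟩
  have h2 := card_insert_le v T
  have h3 := h.crit e he
  exact ⟨_, h1, le_antisymm (by omega) (tau_le h1), mem_insert_self _ _⟩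

theorem absorb {W : Finset (Finset V)} (h : CC W) {x : Finset V} (hx : 1 ≤ dd W x) :
    tau (insert x W) ≤ tau W := by
  obtain ⟨v, hv⟩ := card_pos.1 hx
  obtain ⟨C, h1, h2, h3⟩ := exists_cover_mem h (mem_inter.1 hv).2
  refine h2 ▸ tau_le fun e he => ?_
  rcases mem_insert.1 he with rfl | he
  · exact ⟨v, (mem_inter.1 hv).1, h3⟩
  · exact h1 e he

theorem NJ.symm {W : Finset (Finset V)} {x y : Finset V} (h : NJ W x y) : NJ W y x := by
  unfold NJ at *
  rwa [Finset.insert_comm]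

theorem nj_of_cover {H W R : Finset (Finset V)} {x y : Finset V} (hH : NE H) (hW : W ⊆ H)
    (hR : R ⊆ H) (hx : x ∈ H) (hy : y ∈ H) (hall : ∀ e ∈ H, e = x ∨ e = y ∨ e ∈ W ∨ e ∈ R)
    {k : ℕ} (hk : tau R ≤ k) (hlt : tau W + k < tau H) : NJ W x y := by
  have h1 : insert x (insert y W) ⊆ H := insert_subset hx (insert_subset hy hW)
  have h2 := tau_union_le (hH.mono h1) (hH.mono hR)
  have h3 : tau H ≤ tau (insert x (insert y W) ∪ R) :=
    tau_mono (hH.mono (union_subset h1 hR)) fun e he => by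
      simpa only [mem_union, mem_insert, or_assoc] using hall e he
  unfold NJ
  omega

/-- a transversal of minimum size meeting both contradicts `NJ` -/
theorem NJ.no_cover {W : Finset (Finset V)} {x y : Finset V} (h : NJ W x y) {C : Finset V}
    (hC : Hits C W) (hc : C.card ≤ tau W) {v w : V} (hv : v ∈ x) (hw : w ∈ y) (hvC : v ∈ C)
    (hwC : w ∈ C) : False := by
  refine absurd h (not_lt.2 (le_trans (tau_le (T := C) fun e he => ?_) hc))
  rcases mem_insert.1 he with rfl | he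
  · exact ⟨v, hv, hvC⟩
  rcases mem_insert.1 he with rfl | he
  · exact ⟨w, hw, hwC⟩
  · exact hC e he

/-- if not `NJ`, some minimum transversal meets both inside `cov W` -/
theorem joint_of_not_nj {W : Finset (Finset V)} {x y : Finset V} (hW : NE W) (hx : x.Nonempty)
    (hy : y.Nonempty) (h : ¬ NJ W x y) :
    ∃ C, Hits C W ∧ C.card ≤ tau W ∧ (∃ v ∈ x ∩ cov W, v ∈ C) ∧ ∃ w ∈ y ∩ cov W, w ∈ C := by
  obtain ⟨C, h1, h2⟩ := exists_opt (S := insert x (insert y W)) fun e he => by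
    rcases mem_insert.1 he with rfl | he
    · exact hx
    rcases mem_insert.1 he with rfl | he
    · exact hy
    · exact hW e he
  have h3 : Hits C W := fun e he => h1 e (mem_insert_of_mem (mem_insert_of_mem he))
  have h4 : C.card ≤ tau W := h2 ▸ not_lt.1 h
  have h5 := min_sub h3 h4
  obtain ⟨v, a1, a2⟩ := h1 x (mem_insert_self _ _)
  obtain ⟨w, b1, b2⟩ := h1 y (mem_insert_of_mem (mem_insert_self _ _))
  exact ⟨C, h3, h4, ⟨v, mem_inter.2 ⟨a1, h5 a2⟩, a2⟩, w, mem_inter.2 ⟨b1, h5 b2⟩, b2⟩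

theorem NJ.disjoint {W : Finset (Finset V)} (hW : CC W) {x y : Finset V} (h : NJ W x y) :
    Disjoint (x ∩ cov W) (y ∩ cov W) := by
  refine disjoint_left.2 fun v h1 h2 => ?_
  obtain ⟨C, a1, a2, a3⟩ := exists_cover_mem hW (mem_inter.1 h1).2
  exact h.no_cover a1 a2.le (mem_inter.1 h1).1 (mem_inter.1 h2).1 a3 a3

theorem rem_tau {H : Finset (Finset V)} (h : CC H) {t : V} (ht : 1 ≤ dg H t) :
    tau (H \ star H t) + 1 = tau H := by
  obtain ⟨e, he⟩ := card_pos.1 ht
  have h1 := tau_star h.u5.ne t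
  have h2 := h.crit e (mem_star.1 he).1
  have h3 : tau (H \ star H t) ≤ tau (H.erase e) :=
    tau_mono (h.u5.ne.mono (erase_subset _ _)) fun f hf =>
      mem_erase.2 ⟨fun e1 => (mem_sdiff.1 hf).2 (e1 ▸ he), (mem_sdiff.1 hf).1⟩
  omega

theorem tau_star_le (H : Finset (Finset V)) (t : V) : tau (star H t) ≤ 1 :=
  tau_le_one t fun _ he => (mem_star.1 he).2

theorem tt_mono {S : Finset (Finset V)} {d d' : V → ℕ} (h : ∀ v ∈ cov S, d' v ≤ d v) :
    tt S d ≤ tt S d' := by
  refine card_le_card fun x hx => ?_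
  obtain ⟨h1, h2⟩ := mem_filter.1 hx
  refine mem_filter.2 ⟨h1, h2.trans (card_le_card fun v hv => ?_)⟩
  obtain ⟨h3, h4⟩ := mem_filter.1 hv
  exact mem_filter.2 ⟨h3, (h v (mem_cov.2 ⟨x, h1, h3⟩)).trans h4⟩

theorem ee_mono {S : Finset (Finset V)} {d d' : V → ℕ} (h : ∀ v ∈ cov S, d' v ≤ d v) :
    ee S d ≤ ee S d' := by
  exact sum_le_sum fun v hv => Nat.sub_le_sub_left (h v hv) 3

/-- double counting of the incidences at the vertices of `W` -/
theorem slots {W H : Finset (Finset V)} (hW : W ⊆ H) (h5 : U5 W) :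
    ∑ v ∈ cov W, dg H v = 5 * W.card + ∑ x ∈ H \ W, dd W x := by
  have h1 := sum_card_bipartiteAbove_eq_sum_card_bipartiteBelow (s := cov W) (t := H)
    (r := fun v e => v ∈ e)
  have h2 : ∀ e ∈ H, ((cov W).bipartiteBelow (fun v e => v ∈ e) e).card = dd W e := by
    intro e _
    unfold dd
    congr 1
    ext v
    simp only [mem_bipartiteBelow, mem_inter, and_comm]
  have h3 : ∀ e ∈ W, dd W e = 5 := fun e he => by
    rw [dd, inter_eq_left.2 fun v hv => mem_cov.2 ⟨e, he, hv⟩, h5 e he]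
  rw [sum_congr rfl h2, ← sum_sdiff hW, sum_const_nat h3, add_comm, mul_comm] at h1
  exact h1

theorem ee_slots {W H : Finset (Finset V)} (hW : W ⊆ H) (h5 : U5 W) (h3 : ∀ v, dg H v ≤ 3) :
    5 * W.card + ∑ x ∈ H \ W, dd W x + ee W (dg H) = 3 * (cov W).card := by
  rw [← slots hW h5, ee, ← sum_add_distrib, mul_comm]
  exact sum_const_nat fun v _ => Nat.add_sub_cancel' (h3 v)

theorem ee_eq {H : Finset (Finset V)} (h5 : U5 H) (h3 : ∀ v, dg H v ≤ 3) :
    5 * H.card + ee H (dg H) = 3 * (cov H).card := by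
  simpa using ee_slots Subset.rfl h5 h3

theorem four_le {H : Finset (Finset V)} (h5 : U5 H) (h4 : ∀ v, dg H v ≤ 4) :
    5 * H.card ≤ 4 * (cov H).card := by
  rw [← sum_deg h5, mul_comm]
  exact sum_le_card_nsmul _ _ 4 fun v _ => h4 v

end Pool.Agent.Work.MP_d266e7_co.C5
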