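import Pool.Agent.Work.MP_d266e7_co.ThreeFour

/-!
Definitions for the proof of `16 * tau ≤ 3 n + 3 m` (5-uniform families). See `PROOF.md`.
Words: a member of the family is a node, a vertex is a block, `dg S v` is the size of block `v`.
-/

namespace Pool.Agent.Work.MP_d266e7_co.C5

open Finset

variable {V : Type} [DecidableEq V]

/-- degree of the vertex `v` in `S` -/
def dg (S : Finset (Finset V)) (v : V) : ℕ := (star S v).card

/-- 5-uniform, critical, connected, nonempty -/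
structure CC (S : Finset (Finset V)) : Prop where
  u5 : U5 S
  crit : Crit S
  conn : Conn S
  ne : S.Nonempty

/-- union of a family of pieces -/
def un (F : Finset (Finset (Finset V))) : Finset (Finset V) := F.biUnion id

/-- pairwise separated critical connected pieces of `H` -/
structure Fam (H : Finset (Finset V)) (F : Finset (Finset (Finset V))) : Prop where
  sub : ∀ W ∈ F, W ⊆ H
  cc : ∀ W ∈ F, CC W
  sep : ∀ W ∈ F, ∀ W' ∈ F, W ≠ W' → Sep W W'

/-- number of vertices of `x` covered by `W` -/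
def dd (W : Finset (Finset V)) (x : Finset V) : ℕ := (x ∩ cov W).card

/-- number of members of `S` with at least two vertices of `d`-value at most one -/
def tt (S : Finset (Finset V)) (d : V → ℕ) : ℕ :=
  (S.filter (fun x => 2 ≤ (x.filter (fun v => d v ≤ 1)).card)).card

/-- deficiency below three (truncated subtraction) -/
def ee (S : Finset (Finset V)) (d : V → ℕ) : ℕ := ∑ v ∈ cov S, (3 - d v)

/-- no minimum transversal of `W` meets both `x` and `y` -/
def NJ (W : Finset (Finset V)) (x y : Finset V) : Prop := tau W < tau (insert x (insert y W))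

/-- no minimum transversal of `W` meets both vertex sets -/
def Cross (W : Finset (Finset V)) (A B : Finset V) : Prop :=
  ∀ C, Hits C W → C.card ≤ tau W → ∀ v ∈ A, ∀ w ∈ B, v ∈ C → w ∈ C → False

/-- two non-joint vertex families of sizes at least `p`, `q`, with room below the bound `d` -/
def Gad (W : Finset (Finset V)) (d : V → ℕ) (p q : ℕ) : Prop :=
  ∃ A B : Finset V, A ⊆ cov W ∧ B ⊆ cov W ∧ (∀ v ∈ A ∪ B, dg W v < d v) ∧ Cross W A B ∧
    p ≤ A.card ∧ q ≤ B.card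

/-- gain of the pair gadget for `GB` -/
def gainT (p q : ℕ) : ℕ :=
  if 4 ≤ p ∧ 4 ≤ q then 5 else if 3 ≤ p ∧ 3 ≤ q then 3
  else if (4 ≤ p ∧ 2 ≤ q) ∨ (2 ≤ p ∧ 4 ≤ q) then 2 else if 2 ≤ p ∧ 2 ≤ q then 1 else 0

/-- the bound for maximum degree three -/
def GB (S : Finset (Finset V)) : Prop :=
  17 * tau S + tt S (dg S) ≤ 5 * S.card + 2 * (cov S).card + 3

/-- the bound for maximum degree four -/
def UB (S : Finset (Finset V)) : Prop :=
  256 * tau S + ee S (dg S) ≤ 53 * S.card + 44 * (cov S).card + 10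

/-- two pieces and three hosts -/
structure Side2 (H W1 W2 : Finset (Finset V)) (q : Fin 3 → Finset V) : Prop where
  cc : CC H
  c1 : CC W1
  c2 : CC W2
  s1 : W1 ⊆ H
  s2 : W2 ⊆ H
  sep : Sep W1 W2
  qmem : ∀ x, q x ∈ H
  q1 : ∀ x, q x ∉ W1
  q2 : ∀ x, q x ∉ W2
  qinj : Function.Injective q
  all : ∀ e ∈ H, e ∈ W1 ∨ e ∈ W2 ∨ ∃ x, e = q x
  lt : tau W1 + tau W2 < tau H

/-- two pieces and four hosts -/
structure Quad2 (H W1 W2 : Finset (Finset V)) (q : Fin 4 → Finset V) : Prop where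
  cc : CC H
  c1 : CC W1
  c2 : CC W2
  s1 : W1 ⊆ H
  s2 : W2 ⊆ H
  sep : Sep W1 W2
  qmem : ∀ x, q x ∈ H
  q1 : ∀ x, q x ∉ W1
  q2 : ∀ x, q x ∉ W2
  qinj : Function.Injective q
  all : ∀ e ∈ H, e ∈ W1 ∨ e ∈ W2 ∨ ∃ x, e = q x
  lt : tau W1 + tau W2 < tau H

/-- three pieces and four hosts -/
structure Side3 (H : Finset (Finset V)) (W : Fin 3 → Finset (Finset V)) (q : Fin 4 → Finset V) :
    Prop where
  cc : CC H
  wcc : ∀ i, CC (W i)
  wsub : ∀ i, W i ⊆ H
  sep : ∀ i j, i ≠ j → Sep (W i) (W j)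
  qmem : ∀ x, q x ∈ H
  qout : ∀ x i, q x ∉ W i
  qinj : Function.Injective q
  all : ∀ e ∈ H, (∃ i, e ∈ W i) ∨ ∃ x, e = q x
  lt : tau (W 0) + tau (W 1) + tau (W 2) < tau H

/-- numerical shadow of `Side3`: matching rule and neighbourhood bounds -/
structure Shadow (d : Fin 3 → Fin 4 → ℕ) (R : Fin 3 → Fin 4 → Fin 4 → Prop) : Prop where
  rule : ∀ i j k : Fin 3, ∀ x y z w : Fin 4, i ≠ j → i ≠ k → j ≠ k → x ≠ y → x ≠ z → x ≠ w →
    y ≠ z → y ≠ w → z ≠ w → 1 ≤ d j z → 1 ≤ d k w → R i x y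
  n1 : ∀ i, 2 ≤ (univ.filter (fun x => 1 ≤ d i x)).card
  n2 : ∀ i j, i ≠ j → 3 ≤ (univ.filter (fun x => 1 ≤ d i x ∨ 1 ≤ d j x)).card

/-- numerical shadow of one side of a double split with one extra host (index 3);
piece 0 is a single node -/
structure SideHyp (d : Fin 3 → Fin 4 → ℕ) (R : Fin 3 → Fin 4 → Fin 4 → Prop) (g1 g2 : ℕ) :
    Prop where
  sh : Shadow d R
  s0 : d 0 0 + d 1 0 + d 2 0 = 4
  s1 : d 0 1 + d 1 1 + d 2 1 = 4
  s2 : d 0 2 + d 1 2 + d 2 2 = 4
  s3 : d 0 3 + d 1 3 + d 2 3 = 5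
  u2 : ∀ x y, x ≠ y → R 0 x y → d 0 x + d 0 y ≤ 5
  u3 : ∀ x y z, x ≠ y → x ≠ z → y ≠ z → R 0 x y → R 0 x z → R 0 y z → d 0 x + d 0 y + d 0 z ≤ 5
  a11 : ∀ x y, x ≠ y → R 1 x y → gainT (d 1 x) (d 1 y) ≤ g1
  a12 : ∀ x y z, x ≠ y → x ≠ z → y ≠ z → R 1 x y → R 1 x z → R 1 y z →
    gainT (d 1 x) (d 1 y + d 1 z) ≤ g1
  b11 : ∀ x y, x ≠ y → R 2 x y → gainT (d 2 x) (d 2 y) ≤ g2
  b12 : ∀ x y z, x ≠ y → x ≠ z → y ≠ z → R 2 x y → R 2 x z → R 2 y z →
    gainT (d 2 x) (d 2 y + d 2 z) ≤ g2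

/-- a counterexample to the refined bound for maximum degree three and `2 tau = m` -/
structure Bad (H : Finset (Finset V)) : Prop where
  cc : CC H
  d3 : ∀ v, dg H v ≤ 3
  val : 2 * tau H = H.card
  small : 41 * (cov H).card + 10 < 70 * H.card

/-- a double split: two disjoint blocks of size three and the critical core of the rest -/
structure DS (H : Finset (Finset V)) (t t' : V) (F : Finset (Finset (Finset V))) : Prop where
  d1 : dg H t = 3
  d2 : dg H t' = 3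
  dis : Disjoint (star H t) (star H t')
  fam : Fam (H \ (star H t ∪ star H t')) F
  tau2 : tau (un F) + 2 = tau H

/-- hosts 0,1,2 are on side `true`, hosts 3,4,5 on side `false` -/
def side (x : Fin 6) : Bool := decide (x.val < 3)

/-- three different hosts of one side -/
def Tri (x y z : Fin 6) : Prop :=
  x ≠ y ∧ x ≠ z ∧ y ≠ z ∧ side x = side y ∧ side x = side z

/-- a single node `u`, a piece `W`, a rest `R` and six hosts on two blocks -/
structure UCtx (H : Finset (Finset V)) (tv : Bool → V) (u : Finset V) (W R : Finset (Finset V))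
    (q : Fin 6 → Finset V) : Prop where
  u5 : U5 H
  d3 : ∀ v, dg H v ≤ 3
  noin : ∀ v w, v ∈ cov H → v ≠ w → dg H w = 3 → ¬ star H v ⊆ star H w
  wcc : CC W
  wsub : W ⊆ H
  rsub : R ⊆ H
  umem : u ∈ H
  uW : dd W u = 0
  uR : ∀ e ∈ R, Disjoint u e
  qmem : ∀ x, q x ∈ H
  qinj : Function.Injective q
  qW : ∀ x, q x ∉ W
  qu : ∀ x, q x ≠ u
  qt : ∀ x, tv (side x) ∈ q x
  tu : ∀ b, tv b ∉ u
  tW : ∀ b, tv b ∉ cov W
  all : ∀ e ∈ H, e = u ∨ e ∈ W ∨ e ∈ R ∨ ∃ x, e = q x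
  le : tau W + tau R + 3 ≤ tau H

/-- vertices of the host `x` other than its block, outside `u` and `W` -/
def dl (tv : Bool → V) (u : Finset V) (W : Finset (Finset V)) (q : Fin 6 → Finset V)
    (x : Fin 6) : ℕ :=
  (q x \ insert (tv (side x)) (u ∪ cov W)).card

end Pool.Agent.Work.MP_d266e7_co.C5
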