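import Pool.Agent.Work.MP_d266e7_co.C5.Core

/-!
Families of separated pieces: existence of the critical core, additivity.
-/

namespace Pool.Agent.Work.MP_d266e7_co.C5

open Finset

variable {V : Type} [DecidableEq V]

theorem Fam.un_sub {H : Finset (Finset V)} {F : Finset (Finset (Finset V))} (h : Fam H F) :
    un F ⊆ H := fun _ he =>
  (mem_un.1 he).elim fun W a => h.sub W a.1 a.2

theorem Fam.mono {H H' : Finset (Finset V)} {F F' : Finset (Finset (Finset V))} (h : Fam H F)
    (hH : H ⊆ H') (hF : F' ⊆ F) : Fam H' F' :=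
  ⟨fun W hW => (h.sub W (hF hW)).trans hH, fun W hW => h.cc W (hF hW),
    fun W hW W' hW' => h.sep W (hF hW) W' (hF hW')⟩

theorem sub_un {F : Finset (Finset (Finset V))} {W : Finset (Finset V)} (h : W ∈ F) : W ⊆ un F :=
  fun _ he => mem_un.2 ⟨W, h, he⟩

theorem faml_sep {A B : Finset (Finset V)} {F G : Finset (Finset (Finset V))} (h : Sep A B)
    (hF : Fam A F) (hG : Fam B G) : Fam (A ∪ B) (F ∪ G) := by
  refine ⟨fun W hW => ?_, fun W hW => ?_, fun W hW W' hW' hne => ?_⟩
  · exact (mem_union.1 hW).elim (fun a => (hF.sub W a).trans subset_union_left)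
      fun a => (hG.sub W a).trans subset_union_right
  · exact (mem_union.1 hW).elim (hF.cc W) (hG.cc W)
  · rcases mem_union.1 hW with a | a <;> rcases mem_union.1 hW' with b | b
    · exact hF.sep W a W' b hne
    · exact h.mono (hF.sub W a) (hG.sub W' b)
    · exact h.symm.mono (hG.sub W a) (hF.sub W' b)
    · exact hG.sep W a W' b hne

/-- take a minimal subfamily with the same `tau` (it is critical) and split it into connected
pieces (induction on the size, `not_conn`, `crit_of_sep`) -/
theorem exists_core {S : Finset (Finset V)} (h : U5 S) : ∃ F, Fam S F ∧ tau (un F) = tau S := by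
  induction S using Finset.strongInduction with
  | H S ih =>
    rcases S.eq_empty_or_nonempty with rfl | hne
    · exact ⟨∅, ⟨by simp, by simp, by simp⟩, rfl⟩
    by_cases hc : Crit S
    · by_cases hn : Conn S
      · exact ⟨{S}, ⟨by simp, by simpa using ⟨h, hc, hn, hne⟩, by simp⟩, by simp [un]⟩
      · obtain ⟨W, h1, h2, h3, h4⟩ := not_conn hn
        have a := h.mono h1
        have b : U5 (S \ W) := h.mono sdiff_subset
        obtain ⟨F, hF, eF⟩ := ih W (Finset.ssubset_iff_subset_ne.2 ⟨h1, h3⟩) a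
        obtain ⟨G, hG, eG⟩ := ih _ (sdiff_ssubset h1 h2) b
        have h5 := faml_sep h4 hF hG
        have h6 := tau_union_sep a.ne b.ne h4
        rw [union_sdiff_of_subset h1] at h5 h6
        refine ⟨F ∪ G, h5, ?_⟩
        rw [h6, ← eF, ← eG, ← tau_union_sep (a.ne.mono hF.un_sub) (b.ne.mono hG.un_sub)
          (h4.mono hF.un_sub hG.un_sub), un, union_biUnion]
        rfl
    · obtain ⟨e, he, h1⟩ : ∃ e ∈ S, tau S ≤ tau (S.erase e) := by simpa [Crit] using hc
      obtain ⟨F, hF, eF⟩ := ih _ (erase_ssubset he) (h.mono (erase_subset _ _))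
      exact ⟨F, hF.mono (erase_subset _ _) subset_rfl,
        eF.trans (le_antisymm (tau_mono h.ne (erase_subset _ _)) h1)⟩

theorem Fam.tau_un {H : Finset (Finset V)} {F : Finset (Finset (Finset V))} (h : Fam H F) :
    tau (un F) = ∑ W ∈ F, tau W := by
  induction F using Finset.induction_on with
  | empty => exact tau_empty
  | insert W F hW ih =>
    rw [sum_insert hW, ← ih (h.mono subset_rfl (subset_insert _ _)), un, biUnion_insert]
    refine tau_union_sep (h.cc W (mem_insert_self _ _)).u5.ne (fun e he => ?_) fun e he f hf => ?_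
    · obtain ⟨W', a, b⟩ := mem_un.1 he
      exact (h.cc W' (mem_insert_of_mem a)).u5.ne e b
    · obtain ⟨W', a, b⟩ := mem_un.1 hf
      exact h.sep W (mem_insert_self _ _) W' (mem_insert_of_mem a) (fun c => hW (c ▸ a)) e he f b

theorem faml_cov (F : Finset (Finset (Finset V))) : cov (un F) = F.biUnion cov := by
  ext v
  simp only [mem_cov, mem_un, mem_biUnion]
  exact ⟨fun ⟨e, ⟨W, a, b⟩, c⟩ => ⟨W, a, e, b, c⟩, fun ⟨W, a, e, b, c⟩ => ⟨e, ⟨W, a, b⟩, c⟩⟩

theorem Fam.card_filter {H : Finset (Finset V)} {F : Finset (Finset (Finset V))} (h : Fam H F)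
    (p : Finset V → Prop) [DecidablePred p] :
    ((un F).filter p).card = ∑ W ∈ F, (W.filter p).card := by
  rw [un, filter_biUnion]
  exact card_biUnion fun W a W' b c =>
    disjoint_filter_filter ((h.sep W a W' b c).disjoint (h.cc W a).u5.ne)

theorem Fam.card_un {H : Finset (Finset V)} {F : Finset (Finset (Finset V))} (h : Fam H F) :
    (un F).card = ∑ W ∈ F, W.card := by
  simpa using h.card_filter fun _ => True

theorem Fam.sum_cov {H : Finset (Finset V)} {F : Finset (Finset (Finset V))} (h : Fam H F)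
    (f : V → ℕ) : ∑ v ∈ cov (un F), f v = ∑ W ∈ F, ∑ v ∈ cov W, f v := by
  rw [faml_cov]
  exact sum_biUnion fun W a W' b c => (h.sep W a W' b c).disjoint_cov

theorem Fam.cov_un {H : Finset (Finset V)} {F : Finset (Finset (Finset V))} (h : Fam H F) :
    (cov (un F)).card = ∑ W ∈ F, (cov W).card := by
  simpa using h.sum_cov fun _ => 1

theorem Fam.dd_un {H : Finset (Finset V)} {F : Finset (Finset (Finset V))} (h : Fam H F)
    (x : Finset V) : dd (un F) x = ∑ W ∈ F, dd W x := by
  simpa [dd, inter_comm x] using h.sum_cov fun v => if v ∈ x then 1 else 0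

theorem Fam.card_eq {H : Finset (Finset V)} {F : Finset (Finset (Finset V))} (h : Fam H F) :
    H.card = ∑ W ∈ F, W.card + (H \ un F).card := by
  rw [← h.card_un, add_comm, card_sdiff_add_card_eq_card h.un_sub]

theorem Fam.cov_eq {H : Finset (Finset V)} {F : Finset (Finset (Finset V))} (h : Fam H F) :
    (cov H).card = ∑ W ∈ F, (cov W).card + (cov H \ cov (un F)).card := by
  rw [← h.cov_un, add_comm, card_sdiff_add_card_eq_card (cov_mono h.un_sub)]

theorem Fam.five {H : Finset (Finset V)} {F : Finset (Finset (Finset V))} (h : Fam H F)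
    {x : Finset V} (hx : x.card = 5) : ∑ W ∈ F, dd W x + (x \ cov (un F)).card = 5 := by
  rw [← h.dd_un, dd, card_inter_add_card_sdiff, hx]

theorem Fam.ee_eq {H : Finset (Finset V)} {F : Finset (Finset (Finset V))} (h : Fam H F)
    (d : V → ℕ) : ee H d = ∑ W ∈ F, ee W d + ∑ v ∈ cov H \ cov (un F), (3 - d v) := by
  simp only [ee]
  rw [← h.sum_cov, add_comm, sum_sdiff (cov_mono h.un_sub)]

theorem Fam.tt_eq {H : Finset (Finset V)} {F : Finset (Finset (Finset V))} (h : Fam H F)
    (d : V → ℕ) : tt H d = ∑ W ∈ F, tt W d + tt (H \ un F) d := by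
  simp only [tt]
  rw [← h.card_filter, ← card_union_of_disjoint (disjoint_filter_filter disjoint_sdiff),
    ← filter_union, union_sdiff_of_subset h.un_sub]

theorem faml_two {H : Finset (Finset V)} {x y : Finset V} {v : V} (hx : x ∈ H) (hy : y ∈ H)
    (hv : v ∈ x) (hv' : v ∈ y) (h : dg H v ≤ 1) : x = y :=
  card_le_one.1 h x (mem_star.2 ⟨hx, hv⟩) y (mem_star.2 ⟨hy, hv'⟩)

/-- private vertices of members outside the pieces are outside vertices, and different members
have different private vertices -/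
theorem Fam.tt_out {H : Finset (Finset V)} {F : Finset (Finset (Finset V))} (h : Fam H F) :
    2 * tt (H \ un F) (dg H) ≤ ((cov H \ cov (un F)).filter (fun v => dg H v ≤ 1)).card := by
  rw [tt, mul_comm, ← Nat.nsmul_eq_mul]
  refine (card_nsmul_le_sum _ (fun x : Finset V => (x.filter fun v => dg H v ≤ 1).card) 2
    fun x hx => (mem_filter.1 hx).2).trans ?_
  rw [← card_biUnion]
  · refine card_le_card fun v hv => ?_
    obtain ⟨x, hx, hv⟩ := mem_biUnion.1 hv
    have a := mem_sdiff.1 (mem_filter.1 hx).1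
    have b := mem_filter.1 hv
    refine mem_filter.2 ⟨mem_sdiff.2 ⟨mem_cov.2 ⟨x, a.1, b.1⟩, fun c => ?_⟩, b.2⟩
    obtain ⟨e, he, c⟩ := mem_cov.1 c
    exact a.2 (faml_two (h.un_sub he) a.1 c b.1 b.2 ▸ he)
  · intro x hx y hy hne
    refine disjoint_left.2 fun v a b => hne ?_
    exact faml_two (mem_sdiff.1 (mem_filter.1 hx).1).1 (mem_sdiff.1 (mem_filter.1 hy).1).1
      (mem_filter.1 a).1 (mem_filter.1 b).1 (mem_filter.1 a).2

/-- a connected subfamily of the union lies in one piece -/
theorem Fam.conn_sub {H : Finset (Finset V)} {F : Finset (Finset (Finset V))} (h : Fam H F)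
    {S : Finset (Finset V)} (hS : Conn S) (hSF : S ⊆ un F) {W : Finset (Finset V)} (hW : W ∈ F)
    {e : Finset V} (he : e ∈ S) (heW : e ∈ W) : S ⊆ W := by
  by_contra hn
  obtain ⟨u, hu, z, hz, hz', a⟩ := hS (S ∩ W) inter_subset_left ⟨e, mem_inter.2 ⟨he, heW⟩⟩
    fun c => hn (inter_eq_left.1 c)
  obtain ⟨W', b, c⟩ := mem_un.1 (hSF hz)
  exact h.sep W hW W' b (fun d => hz' (mem_inter.2 ⟨hz, d ▸ c⟩)) u (mem_inter.1 hu).2 z c a

theorem exists_step {H : Finset (Finset V)} (h : CC H) {t : V} (ht : 1 ≤ dg H t) :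
    ∃ F, Fam (H \ star H t) F ∧ ∑ W ∈ F, tau W + 1 = tau H := by
  obtain ⟨F, hF, e⟩ := exists_core (S := H \ star H t) (h.u5.mono sdiff_subset)
  exact ⟨F, hF, by rw [← hF.tau_un, e, rem_tau h ht]⟩

/-- the removed vertex is an outside vertex -/
theorem step_out {H : Finset (Finset V)} {t : V} (ht : 1 ≤ dg H t)
    {F : Finset (Finset (Finset V))} (hF : Fam (H \ star H t) F) : t ∈ cov H \ cov (un F) := by
  refine mem_sdiff.2 ⟨dg_pos.1 ht, fun a => ?_⟩
  obtain ⟨e, he, a⟩ := mem_cov.1 a
  have b := mem_sdiff.1 (hF.un_sub he)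
  exact b.2 (mem_star.2 ⟨b.1, a⟩)

/-- the hosts are the star and the dropped members -/
theorem step_card {H : Finset (Finset V)} {t : V} {F : Finset (Finset (Finset V))}
    (hF : Fam (H \ star H t) F) :
    (H \ un F).card = dg H t + ((H \ star H t) \ un F).card := by
  have h1 := card_sdiff_add_card_eq_card hF.un_sub
  have h2 := card_sdiff_add_card_eq_card (hF.un_sub.trans sdiff_subset)
  have h3 := card_star (S := H) t
  unfold dg
  omega

end Pool.Agent.Work.MP_d266e7_co.C5
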