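import Pool.Agent.Work.MP_d266e7_co.C5.ULevel
import Pool.Agent.Work.MP_d266e7_co.Greedy

/-!
The final bound (same induction as `three_four_aux`: degree at least five, non critical and
disconnected cases by induction, else `ihu` and `four_le`), the greedy corollaries and the
transfer from `ℕ` to `Fin n` (map the members along `Fin.valEmbedding`).
-/

namespace Pool.Agent.Work.MP_d266e7_co.C5

open Finset

variable {V : Type} [DecidableEq V]

theorem final_aux [Infinite V] (n : ℕ) : ∀ K : Finset (Finset V), K.card < n → U5 K →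
    16 * tau K ≤ 3 * (cov K).card + 3 * K.card := by
  induction n with
  | zero => intro K h; omega
  | succ n ih =>
    intro K hn hK
    have IH : ∀ S ⊆ K, S.card < K.card → 16 * tau S ≤ 3 * (cov S).card + 3 * S.card :=
      fun S h1 h2 => ih S (by omega) (hK.mono h1)
    by_contra hcon
    have hN := hK.ne
    have deg4 : ∀ v, dg K v ≤ 4 := by
      intro v
      by_contra h
      rw [dg] at h
      have h1 := tau_star hN v
      have h2 := card_star (S := K) v
      have h3 := cov_star (card_pos.1 (show 0 < (star K v).card by omega))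
      have h4 := IH (K \ star K v) sdiff_subset (by omega)
      omega
    have crit : Crit K := by
      intro e he
      have h1 := card_erase_add_one he
      have h2 := IH (K.erase e) (erase_subset _ _) (by omega)
      have h3 := card_le_card (cov_mono (erase_subset e K))
      omega
    have conn : Conn K := by
      by_contra h
      obtain ⟨W, w1, w2, w3, w4⟩ := not_conn h
      have e1 := tau_union_le (hN.mono w1) (hN.mono (sdiff_subset (s := K) (t := W)))
      have e5 := w4.card_cov
      rw [union_sdiff_of_subset w1] at e1 e5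
      have e2 := card_sdiff_add_card_eq_card w1
      have e3 : W.card < K.card := card_lt_card (Finset.ssubset_iff_subset_ne.2 ⟨w1, w3⟩)
      have e4 := card_pos.2 w2
      have i1 := IH W w1 e3
      have i2 := IH (K \ W) sdiff_subset (by omega)
      omega
    have hne : K.Nonempty := by
      refine nonempty_iff_ne_empty.2 fun e => hcon ?_
      rw [e, tau_empty]
      exact Nat.zero_le _
    have h1 := ihu K.card K le_rfl ⟨hK, crit, conn, hne⟩ deg4
    have h2 := four_le hK deg4
    rw [UB] at h1
    omega

theorem c5_inf [Infinite V] {K : Finset (Finset V)} (hK : U5 K) :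
    16 * tau K ≤ 3 * (cov K).card + 3 * K.card :=
  final_aux _ K (Nat.lt_succ_self _) hK

theorem c5_71_53 [Infinite V] {K : Finset (Finset V)} (hK : U5 K) :
    336 * tau K ≤ 71 * (cov K).card + 53 * K.card :=
  greedy 71 53 336 3 (by norm_num) (fun K hK h => by have := c5_inf hK; omega) _ K
    (Nat.lt_succ_self _) hK

theorem c5_37_28 [Infinite V] {K : Finset (Finset V)} (hK : U5 K) :
    176 * tau K ≤ 37 * (cov K).card + 28 * K.card :=
  greedy 37 28 176 3 (by norm_num) (fun K hK h => by have := c5_inf hK; omega) _ K
    (Nat.lt_succ_self _) hK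

theorem export_inf (a b c : ℕ)
    (h : ∀ K : Finset (Finset ℕ), U5 K → c * tau K ≤ a * (cov K).card + b * K.card)
    (n : ℕ) (E : Finset (Finset (Fin n))) (hE : ∀ e ∈ E, e.card = 5) :
    ∃ T : Finset (Fin n), (∀ e ∈ E, (e ∩ T).Nonempty) ∧ c * T.card ≤ a * n + b * E.card := by
  have h5 : U5 (E.image (map Fin.valEmbedding)) := fun e he => by
    obtain ⟨f, hf, rfl⟩ := mem_image.1 he
    rw [card_map, hE f hf]
  obtain ⟨T, h1, h2⟩ := exists_opt h5.ne
  have h3 : tau E ≤ T.card := by
    refine (tau_le (T := univ.filter fun v : Fin n => v.1 ∈ T) fun e he => ?_).trans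
      (card_le_card_of_injOn Fin.val (fun v hv => (mem_filter.1 hv).2) Fin.val_injective.injOn)
    obtain ⟨v, hv, h3⟩ := h1 _ (mem_image_of_mem _ he)
    obtain ⟨w, hw, rfl⟩ := mem_map.1 hv
    exact ⟨w, hw, mem_filter.2 ⟨mem_univ _, h3⟩⟩
  have h4 : (cov (E.image (map Fin.valEmbedding))).card ≤ (cov E).card := by
    refine (card_le_card fun v hv => ?_).trans (card_map Fin.valEmbedding).le
    obtain ⟨e, he, hv⟩ := mem_cov.1 hv
    obtain ⟨f, hf, rfl⟩ := mem_image.1 he
    obtain ⟨w, hw, rfl⟩ := mem_map.1 hv
    exact mem_map_of_mem _ (mem_cov.2 ⟨f, hf, hw⟩)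
  exact export_bound hE a b c ((Nat.mul_le_mul_left c (h3.trans h2.le)).trans ((h _ h5).trans
    (Nat.add_le_add (Nat.mul_le_mul_left a h4) (Nat.mul_le_mul_left b card_image_le))))

end Pool.Agent.Work.MP_d266e7_co.C5
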