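import Pool.Agent.Work.MP_d266e7_co.C5.Pair

/-!
Gains from the pair gadget. For `gainT p q` choose subsets of sizes (4,4), (3,3), (4,2) (swap
the two families if needed) or (2,2) with `exists_subset_card_eq`, apply `exists_pair` and the
bound for `X`. In the (4,2) case the new node with two private vertices adds one to `tt`.
For `gain_double`: if the first gain is zero use `gainT_le` with `d = fun _ => 3`; else build `X`
from subsets of `A`, `B` and apply `gainT_le` to `X` with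
`d = fun v => if v ∈ cov W then 3 else dg X v`; `Cross X A' B'`: a transversal `C` of `X` of size
`≤ tau W + 1` is either inside `cov W` (use `hcc`) or `C ∩ cov W` has size `≤ tau W` (use `hc'`).
-/

namespace Pool.Agent.Work.MP_d266e7_co.C5

open Finset

variable {V : Type} [DecidableEq V]

/-- `GB` for all families of size at most `k` -/
def IHG (V : Type) [DecidableEq V] (k : ℕ) : Prop :=
  ∀ X : Finset (Finset V), X.card ≤ k → CC X → (∀ v, dg X v ≤ 3) → GB X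

/-- `UB` for all families of size at most `k` -/
def IHU (V : Type) [DecidableEq V] (k : ℕ) : Prop :=
  ∀ X : Finset (Finset V), X.card ≤ k → CC X → (∀ v, dg X v ≤ 4) → UB X

theorem Cross.symm {W : Finset (Finset V)} {A B : Finset V} (h : Cross W A B) : Cross W B A :=
  fun C h1 h2 v hv w hw hvC hwC => h C h1 h2 w hw v hv hwC hvC

theorem Cross.mono {W : Finset (Finset V)} {A B A' B' : Finset V} (h : Cross W A B)
    (hA : A' ⊆ A) (hB : B' ⊆ B) : Cross W A' B' :=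
  fun C h1 h2 v hv w hw => h C h1 h2 v (hA hv) w (hB hw)

theorem Gad.mono {W : Finset (Finset V)} {d : V → ℕ} {p q p' q' : ℕ} (h : Gad W d p q)
    (hp : p' ≤ p) (hq : q' ≤ q) : Gad W d p' q' := by
  obtain ⟨A, B, h1, h2, h3, h4, h5, h6⟩ := h
  exact ⟨A, B, h1, h2, h3, h4, hp.trans h5, hq.trans h6⟩

theorem gain_sel {p q : ℕ} (h : gainT p q ≠ 0) : ∃ a b, 1 ≤ b ∧ b ≤ a ∧ a ≤ 4 ∧
    ((a ≤ p ∧ b ≤ q) ∨ (a ≤ q ∧ b ≤ p)) ∧
    (gainT p q + 3 ≤ 2 * b ∨ (gainT p q + 2 ≤ 2 * b ∧ b + 2 ≤ a)) := by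
  unfold gainT at h ⊢
  split_ifs at h ⊢ with h1 h2 h3 h4
  · exact ⟨4, 4, by omega⟩
  · exact ⟨3, 3, by omega⟩
  · exact ⟨4, 2, by omega⟩
  · exact ⟨2, 2, by omega⟩
  · exact absurd rfl h

theorem gain_ite {A B A' B' : Finset V} (hA : A' ⊆ A) (hB : B' ⊆ B) (v : V) :
    (if v ∈ A' ∪ B' then 1 else 0) ≤ (if v ∈ A ∪ B then 1 else 0 : ℕ) := by
  by_cases h : v ∈ A' ∪ B'
  · rw [if_pos h, if_pos (union_subset_union hA hB h)]
  · rw [if_neg h]
    exact Nat.zero_le _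

theorem gain_X [Infinite V] {W : Finset (Finset V)} (hW : CC W) {A B : Finset V}
    (hA : A ⊆ cov W) (hB : B ⊆ cov W) (hc : Cross W A B) {p q : ℕ} (hp : p ≤ A.card)
    (hq : q ≤ B.card) (h : gainT p q ≠ 0) :
    ∃ (X : Finset (Finset V)) (b : ℕ), CC X ∧ W ⊆ X ∧ X.card = W.card + 2 ∧ tau X = tau W + 1 ∧
      (cov X).card + b = (cov W).card + 5 ∧
      (∀ v ∈ cov W, dg X v ≤ dg W v + if v ∈ A ∪ B then 1 else 0) ∧
      (∀ v, v ∉ cov W → dg X v ≤ 2) ∧
      (gainT p q + 3 ≤ 2 * b ∨ (gainT p q + 2 ≤ 2 * b ∧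
        ∃ e ∈ X, e ∉ W ∧ 2 ≤ (e.filter (fun v => v ∉ cov W ∧ dg X v ≤ 1)).card)) ∧
      (∀ C, Hits C X → C ⊆ cov W → (∃ v ∈ A, v ∈ C) ∧ ∃ w ∈ B, w ∈ C) := by
  obtain ⟨a, b, h1, h2, h3, h4 | h4, h5⟩ := gain_sel h
  · obtain ⟨A0, a1, rfl⟩ := exists_subset_card_eq (h4.1.trans hp)
    obtain ⟨B0, b1, rfl⟩ := exists_subset_card_eq (h4.2.trans hq)
    obtain ⟨X, x1, x2, x3, x4, x5, x6, x7, -, x8, x9⟩ :=
      exists_pair hW (a1.trans hA) (b1.trans hB) (hc.mono a1 b1) h1 h2 h3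
    refine ⟨X, _, x1, x2, x3, x4, x5, fun v hv => ?_, x7,
      h5.imp_right fun k => ⟨k.1, x8 k.2⟩, fun C c1 c2 => ?_⟩
    · rw [x6 v hv]
      exact Nat.add_le_add_left (gain_ite a1 b1 v) _
    · obtain ⟨⟨v, v1, v2⟩, w, w1, w2⟩ := x9 C c1 c2
      exact ⟨⟨v, a1 v1, v2⟩, w, b1 w1, w2⟩
  · obtain ⟨A0, a1, rfl⟩ := exists_subset_card_eq (h4.1.trans hq)
    obtain ⟨B0, b1, rfl⟩ := exists_subset_card_eq (h4.2.trans hp)
    obtain ⟨X, x1, x2, x3, x4, x5, x6, x7, -, x8, x9⟩ :=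
      exists_pair hW (a1.trans hB) (b1.trans hA) (hc.symm.mono a1 b1) h1 h2 h3
    refine ⟨X, _, x1, x2, x3, x4, x5, fun v hv => ?_, x7,
      h5.imp_right fun k => ⟨k.1, x8 k.2⟩, fun C c1 c2 => ?_⟩
    · rw [x6 v hv, union_comm A B]
      exact Nat.add_le_add_left (gain_ite a1 b1 v) _
    · obtain ⟨⟨v, v1, v2⟩, w, w1, w2⟩ := x9 C c1 c2
      exact ⟨⟨w, b1 w1, w2⟩, v, a1 v1, v2⟩

theorem gain_room {W : Finset (Finset V)} {d : V → ℕ} {A B : Finset V}
    (hd : ∀ v ∈ cov W, dg W v ≤ d v) (h : ∀ v ∈ A ∪ B, dg W v < d v) {v : V} (hv : v ∈ cov W) :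
    (dg W v + if v ∈ A ∪ B then 1 else 0) ≤ d v := by
  by_cases k : v ∈ A ∪ B
  · rw [if_pos k]
    exact h v k
  · rw [if_neg k]
    exact hd v hv

theorem gain_sub {W X : Finset (Finset V)} {d d' : V → ℕ} (h : W ⊆ X)
    (hd : ∀ v ∈ cov W, d' v ≤ d v) :
    W.filter (fun x => 2 ≤ (x.filter (fun v => d v ≤ 1)).card) ⊆
      X.filter (fun x => 2 ≤ (x.filter (fun v => d' v ≤ 1)).card) := by
  intro x hx
  obtain ⟨h1, h2⟩ := mem_filter.1 hx
  refine mem_filter.2 ⟨h h1, h2.trans (card_le_card fun v hv => ?_)⟩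
  obtain ⟨h3, h4⟩ := mem_filter.1 hv
  exact mem_filter.2 ⟨h3, (hd v (mem_cov.2 ⟨x, h1, h3⟩)).trans h4⟩

theorem gain_out {W : Finset (Finset V)} {v : V} (hv : v ∉ cov W) : dg W v = 0 := by
  have := mt dg_pos.1 hv
  omega

theorem gainT_le [Infinite V] {k : ℕ} (hG : IHG V k) {W : Finset (Finset V)}
    (hk : W.card + 2 ≤ k) (hW : CC W) {d : V → ℕ} (hd3 : ∀ v, d v ≤ 3)
    (hd : ∀ v ∈ cov W, dg W v ≤ d v) {p q : ℕ} (hg : Gad W d p q) :
    17 * tau W + tt W d + gainT p q ≤ 5 * W.card + 2 * (cov W).card + 3 := by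
  by_cases h0 : gainT p q = 0
  · have h1 : GB W := hG W (by omega) hW fun v => by
      by_cases hv : v ∈ cov W
      · exact (hd v hv).trans (hd3 v)
      · rw [gain_out hv]
        exact Nat.zero_le _
    have h2 := tt_mono hd
    unfold GB at h1
    omega
  obtain ⟨A, B, hA, hB, hr, hc, hp, hq⟩ := hg
  obtain ⟨X, b, x1, x2, x3, x4, x5, x6, x7, x8, -⟩ := gain_X hW hA hB hc hp hq h0
  have h1 : ∀ v ∈ cov W, dg X v ≤ d v := fun v hv => (x6 v hv).trans (gain_room hd hr hv)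
  have h2 : GB X := hG X (by omega) x1 fun v => by
    by_cases hv : v ∈ cov W
    · exact (h1 v hv).trans (hd3 v)
    · exact (x7 v hv).trans (by omega)
  have h3 := gain_sub x2 h1
  unfold GB at h2
  rcases x8 with k | ⟨k, e, e1, e2, e3⟩
  · have h4 : tt W d ≤ tt X (dg X) := card_le_card h3
    omega
  · have h4 : tt W d < tt X (dg X) := card_lt_card ⟨h3, fun h => e2 (mem_filter.1 (h
      (mem_filter.2 ⟨e1, e3.trans (card_le_card fun v hv =>
        mem_filter.2 ⟨(mem_filter.1 hv).1, (mem_filter.1 hv).2.2⟩)⟩))).1⟩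
    omega

theorem gainQ_le [Infinite V] {k : ℕ} (hU : IHU V k) {W : Finset (Finset V)}
    (hk : W.card + 2 ≤ k) (hW : CC W) {d : V → ℕ} (hd4 : ∀ v, d v ≤ 4)
    (hd : ∀ v ∈ cov W, dg W v ≤ d v) (hg : Gad W d 2 2) :
    256 * tau W + ee W d + 21 ≤ 53 * W.card + 44 * (cov W).card + 10 := by
  obtain ⟨A, B, hA, hB, hr, hc, hp, hq⟩ := hg
  obtain ⟨A0, a1, a2⟩ := exists_subset_card_eq hp
  obtain ⟨B0, b1, b2⟩ := exists_subset_card_eq hq
  obtain ⟨X, x1, x2, x3, x4, x5, x6, x7, x8, -⟩ :=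
    exists_pair hW (a1.trans hA) (b1.trans hB) (hc.mono a1 b1) (by omega) (by omega) (by omega)
  have h1 : ∀ v ∈ cov W, dg X v ≤ d v := fun v hv =>
    (x6 v hv).trans_le ((Nat.add_le_add_left (gain_ite a1 b1 v) _).trans (gain_room hd hr hv))
  have h2 : UB X := hU X (by omega) x1 fun v => by
    by_cases hv : v ∈ cov W
    · exact (h1 v hv).trans (hd4 v)
    · exact (x7 v hv).trans (by omega)
  have h3 : ∑ v ∈ cov X \ cov W, (3 - dg X v) + ee W (dg X) = ee X (dg X) :=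
    sum_sdiff (cov_mono x2)
  have h4 := ee_mono h1
  unfold UB at h2
  omega

theorem gain_double [Infinite V] (hG : ∀ k, IHG V k) {W : Finset (Finset V)} (hW : CC W)
    {A B A' B' : Finset V} (hA : A ⊆ cov W) (hB : B ⊆ cov W) (hA' : A' ⊆ cov W)
    (hB' : B' ⊆ cov W)
    (hdeg : ∀ v ∈ cov W,
      (dg W v + (if v ∈ A ∪ B then 1 else 0) + if v ∈ A' ∪ B' then 1 else 0) ≤ 3)
    (hc : Cross W A B) (hc' : Cross W A' B')
    (hcc : ∀ C, Hits C W → C.card ≤ tau W + 1 → (∃ v ∈ A, v ∈ C) → (∃ v ∈ B, v ∈ C) →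
      (∃ v ∈ A', v ∈ C) → (∃ v ∈ B', v ∈ C) → False) :
    17 * tau W + gainT A.card B.card + gainT A'.card B'.card ≤
      5 * W.card + 2 * (cov W).card + 3 := by
  by_cases h0 : gainT A.card B.card = 0
  · have h1 := gainT_le (hG _) le_rfl hW (d := fun _ => 3) (fun _ => le_rfl)
      (fun v hv => by have := hdeg v hv; omega) ⟨A', B', hA', hB', fun v hv => by
        have := hdeg v (union_subset hA' hB' hv)
        rw [if_pos hv] at this
        change dg W v < 3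
        omega, hc', le_rfl, le_rfl⟩
    omega
  obtain ⟨X, b, x1, x2, x3, x4, x5, x6, x7, x8, x9⟩ := gain_X hW hA hB hc le_rfl le_rfl h0
  have h1 := gainT_le (hG _) le_rfl x1 (d := fun v => if v ∈ cov W then 3 else dg X v)
    (fun v => by
      split_ifs with hv
      · exact le_rfl
      · exact (x7 v hv).trans (by omega))
    (fun v _ => by
      split_ifs with hv
      · have := hdeg v hv
        have := x6 v hv
        omega
      · exact le_rfl)
    ⟨A', B', hA'.trans (cov_mono x2), hB'.trans (cov_mono x2), fun v hv => by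
      have k := union_subset hA' hB' hv
      have := hdeg v k
      have := x6 v k
      simp only [if_pos hv, if_pos k] at *
      omega, fun C c1 c2 v hv w hw v1 w1 => by
      have c3 : Hits C W := fun e he => c1 e (x2 he)
      by_cases k : C ⊆ cov W
      · exact hcc C c3 (x4 ▸ c2) (x9 C c1 k).1 (x9 C c1 k).2 ⟨v, hv, v1⟩ ⟨w, hw, w1⟩
      · have k1 : (C ∩ cov W).card < C.card :=
          card_lt_card ⟨inter_subset_left, fun h => k (h.trans inter_subset_right)⟩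
        refine hc' (C ∩ cov W) (fun e he => ?_) (by omega) v hv w hw
          (mem_inter.2 ⟨v1, hA' hv⟩) (mem_inter.2 ⟨w1, hB' hw⟩)
        obtain ⟨u, u1, u2⟩ := c3 e he
        exact ⟨u, u1, mem_inter.2 ⟨u2, mem_cov.2 ⟨e, he, u1⟩⟩⟩, le_rfl, le_rfl⟩
  rcases x8 with k | ⟨k, e, e1, -, e3⟩
  · omega
  · have h4 : 0 < tt X fun v => if v ∈ cov W then 3 else dg X v :=
      card_pos.2 ⟨e, mem_filter.2 ⟨e1, e3.trans (card_le_card fun v hv => by
        obtain ⟨k1, k2, k3⟩ := mem_filter.1 hv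
        exact mem_filter.2 ⟨k1, (if_neg k2).trans_le k3⟩)⟩⟩
    omega

end Pool.Agent.Work.MP_d266e7_co.C5
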