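import Pool.Agent.Work.MP_d266e7_co.C5.FamL
import Mathlib.Combinatorics.Hall.Basic

/-!
The neighbourhood lemma. Proof: take a subfamily `G ⊆ F`, nonempty, minimal with
`|nb G| ≤ |G|` where `nb G` is the set of members of `H` outside `un F` (equivalently outside
`un G`, by separation) adjacent to a piece of `G`. `nb G` is nonempty by connectivity. Hall's
condition holds for matching `nb G` into `G` (else remove the pieces adjacent to a violating set
and get a smaller violator). With the matching, `absorb` gives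
`tau (un G ∪ nb G) ≤ ∑ tau W = tau (un G)`. Let `Z = H \ (un G ∪ nb G)`, separated from `un G`.
For `x ∈ nb G`: `tau H ≤ tau (un G) + tau Z = tau (un G ∪ Z) ≤ tau (H.erase x) < tau H`.
-/

namespace Pool.Agent.Work.MP_d266e7_co.C5

open Finset

variable {V : Type} [DecidableEq V]

/-- the members outside the pieces that are adjacent to a piece of `G` -/
def nlem_nb (H : Finset (Finset V)) (F G : Finset (Finset (Finset V))) : Finset (Finset V) :=
  (H \ un F).filter (fun x => ∃ W ∈ G, 1 ≤ dd W x)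

theorem nlem_mem {H : Finset (Finset V)} {F G : Finset (Finset (Finset V))} {x : Finset V} :
    x ∈ nlem_nb H F G ↔ (x ∈ H ∧ x ∉ un F) ∧ ∃ W ∈ G, 1 ≤ dd W x := by
  rw [nlem_nb, mem_filter, mem_sdiff]

theorem nlem_adj {H : Finset (Finset V)} {F G : Finset (Finset (Finset V))} (hF : Fam H F)
    (hG : G ⊆ F) {u z : Finset V} (hu : u ∈ un G) (hz : z ∈ H) (hz' : z ∉ un G) (h : Adj u z) :
    z ∈ nlem_nb H F G := by
  obtain ⟨W, hW, huW⟩ := mem_un.1 hu
  refine nlem_mem.2 ⟨⟨hz, fun k => ?_⟩, W, hW, dd_pos.2 ⟨u, huW, h.symm⟩⟩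
  obtain ⟨W', hW', hzW⟩ := mem_un.1 k
  exact hF.sep W (hG hW) W' hW' (fun e => hz' (sub_un hW (e ▸ hzW))) u huW z hzW h

theorem nlem_ne {H : Finset (Finset V)} (hH : CC H) : NE H := fun e he =>
  card_pos.1 (by rw [hH.u5 e he]; omega)

theorem nlem_hall {H : Finset (Finset V)} {F G : Finset (Finset (Finset V))} (hG : G ⊆ F)
    (hle : (nlem_nb H F G).card ≤ G.card)
    (hmin : ∀ G' ⊆ F, G'.Nonempty → (nlem_nb H F G').card ≤ G'.card → G.card ≤ G'.card) :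
    ∃ f : nlem_nb H F G → Finset (Finset V), Function.Injective f ∧
      ∀ x, f x ∈ G ∧ 1 ≤ dd (f x) x.1 := by
  have key := (all_card_le_biUnion_card_iff_exists_injective
    (fun x : nlem_nb H F G => G.filter fun W => 1 ≤ dd W x.1)).1 fun s => ?_
  · obtain ⟨f, h1, h2⟩ := key
    exact ⟨f, h1, fun x => mem_filter.1 (h2 x)⟩
  by_contra hlt
  rw [not_le] at hlt
  obtain ⟨B, hB⟩ : ∃ B, B = s.biUnion fun x : nlem_nb H F G => G.filter fun W => 1 ≤ dd W x.1 :=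
    ⟨_, rfl⟩
  rw [← hB] at hlt
  have mB : ∀ W, W ∈ B ↔ ∃ x ∈ s, W ∈ G ∧ 1 ≤ dd W x.1 := fun W => by
    simp only [hB, mem_biUnion, mem_filter]
  have hBG : B ⊆ G := fun W hW => by
    obtain ⟨x, -, h, -⟩ := (mB W).1 hW
    exact h
  have hBp : 0 < B.card := by
    obtain ⟨x, hx⟩ := card_pos.1 (lt_of_le_of_lt (Nat.zero_le _) hlt)
    obtain ⟨-, W, hW, hd⟩ := nlem_mem.1 x.2
    exact card_pos.2 ⟨W, (mB W).2 ⟨x, hx, hW, hd⟩⟩
  have h1 : nlem_nb H F (G \ B) ⊆ nlem_nb H F G \ s.map (Function.Embedding.subtype _) :=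
    fun x hx => by
      obtain ⟨h2, W, hW, hd⟩ := nlem_mem.1 hx
      rw [mem_sdiff] at hW ⊢
      refine ⟨nlem_mem.2 ⟨h2, W, hW.1, hd⟩, fun k => ?_⟩
      obtain ⟨y, hy, rfl⟩ := mem_map.1 k
      exact hW.2 ((mB W).2 ⟨y, hy, hW.1, hd⟩)
  have h2 : s.map (Function.Embedding.subtype _) ⊆ nlem_nb H F G := fun x hx => by
    obtain ⟨y, -, rfl⟩ := mem_map.1 hx
    exact y.2
  have h3 := card_le_card h1
  have h4 := card_sdiff_add_card_eq_card h2
  have h5 := card_sdiff_add_card_eq_card hBG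
  rw [card_map] at h4
  have := hmin (G \ B) (sdiff_subset.trans hG) (card_pos.1 (by omega)) (by omega)
  omega

theorem nlem_tau {H M : Finset (Finset V)} {G : Finset (Finset (Finset V))} (hH : NE H)
    (hG : Fam H G) (hM : M ⊆ H) (f : M → Finset (Finset V)) (hf : Function.Injective f)
    (h : ∀ x, f x ∈ G ∧ 1 ≤ dd (f x) x.1) : tau (un G ∪ M) ≤ tau (un G) := by
  have key : ∀ W ∈ G, ∃ C, Hits C W ∧ C.card ≤ tau W ∧ ∀ x, f x = W → ∃ v ∈ x.1, v ∈ C := by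
    intro W hW
    by_cases k : ∃ x, f x = W
    · obtain ⟨x, rfl⟩ := k
      obtain ⟨C, h1, h2⟩ := exists_opt (hH.mono (insert_subset (hM x.2) (hG.sub _ hW)))
      refine ⟨C, fun e he => h1 e (mem_insert_of_mem he),
        h2.le.trans (absorb (hG.cc _ hW) (h x).2), fun y hy => ?_⟩
      rw [hf hy]
      exact h1 _ (mem_insert_self _ _)
    · obtain ⟨C, h1, h2⟩ := exists_opt (hH.mono (hG.sub _ hW))
      exact ⟨C, h1, h2.le, fun x hx => absurd ⟨x, hx⟩ k⟩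
  choose! C c1 c2 c3 using key
  rw [hG.tau_un]
  refine (tau_le (T := G.biUnion C) fun e he => ?_).trans (card_biUnion_le.trans (sum_le_sum c2))
  rcases mem_union.1 he with he | he
  · obtain ⟨W, hW, heW⟩ := mem_un.1 he
    obtain ⟨v, h1, h2⟩ := c1 W hW e heW
    exact ⟨v, h1, mem_biUnion.2 ⟨W, hW, h2⟩⟩
  · obtain ⟨v, h1, h2⟩ := c3 _ (h ⟨e, he⟩).1 ⟨e, he⟩ rfl
    exact ⟨v, h1, mem_biUnion.2 ⟨_, (h ⟨e, he⟩).1, h2⟩⟩

theorem nlemma {H N : Finset (Finset V)} {F : Finset (Finset (Finset V))} (hH : CC H)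
    (hF : Fam H F) (hne : F.Nonempty) (hx : ∃ x ∈ H, x ∉ un F)
    (hN : ∀ x ∈ H, x ∉ un F → ∀ W ∈ F, 1 ≤ dd W x → x ∈ N) : F.card + 1 ≤ N.card := by
  by_contra hcon
  have hne' := nlem_ne hH
  obtain ⟨G, ⟨hG, hGn, hle⟩, hmin⟩ := exists_min'
    (fun G => G ⊆ F ∧ G.Nonempty ∧ (nlem_nb H F G).card ≤ G.card) card
    ⟨F, Subset.rfl, hne, (card_le_card fun x hx => by
      obtain ⟨⟨h1, h2⟩, W, hW, hd⟩ := nlem_mem.1 hx
      exact hN x h1 h2 W hW hd).trans (by omega)⟩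
  have hG' : Fam H G := hF.mono Subset.rfl hG
  have hGF : un G ⊆ un F := fun e he => by
    obtain ⟨W, hW, heW⟩ := mem_un.1 he
    exact sub_un (hG hW) heW
  have hM : nlem_nb H F G ⊆ H := fun x hx => (nlem_mem.1 hx).1.1
  obtain ⟨f, hf, hf'⟩ := nlem_hall hG hle fun G' h1 h2 h3 => hmin G' ⟨h1, h2, h3⟩
  have t1 := nlem_tau hne' hG' hM f hf hf'
  obtain ⟨u, hu, z, hz, hz', ha⟩ := hH.conn (un G) hG'.un_sub (by
    obtain ⟨W, hW⟩ := hGn
    exact (hG'.cc W hW).ne.mono (sub_un hW)) (fun e => by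
    obtain ⟨x, h1, h2⟩ := hx
    exact h2 (hGF (e.symm ▸ h1)))
  have hzM := nlem_adj hF hG hu hz hz' ha
  have hU : un G ∪ nlem_nb H F G ⊆ H := union_subset hG'.un_sub hM
  have t2 := tau_union_le (hne'.mono hU) (hne'.mono (sdiff_subset (t := un G ∪ nlem_nb H F G)))
  rw [union_sdiff_of_subset hU] at t2
  have t3 := tau_union_sep (hne'.mono hG'.un_sub)
    (hne'.mono (sdiff_subset (t := un G ∪ nlem_nb H F G))) fun e he y hy k => by
      rw [mem_sdiff, mem_union, not_or] at hy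
      exact hy.2.2 (nlem_adj hF hG he hy.1 hy.2.1 k)
  have t4 : tau (un G ∪ H \ (un G ∪ nlem_nb H F G)) ≤ tau (H.erase z) :=
    tau_mono (hne'.mono (erase_subset _ _)) fun e he => by
      rcases mem_union.1 he with he | he
      · exact mem_erase.2 ⟨fun k => hz' (k ▸ he), hG'.un_sub he⟩
      · rw [mem_sdiff] at he
        exact mem_erase.2 ⟨fun k => he.2 (mem_union_right _ (k ▸ hzM)), he.1⟩
  have t5 := hH.crit z hz
  omega

theorem nl_all {H : Finset (Finset V)} {F : Finset (Finset (Finset V))} (hH : CC H)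
    (hF : Fam H F) (hx : ∃ x ∈ H, x ∉ un F) : F.card + 1 ≤ (H \ un F).card := by
  rcases F.eq_empty_or_nonempty with rfl | hne
  · obtain ⟨x, h1, h2⟩ := hx
    exact card_pos.2 ⟨x, mem_sdiff.2 ⟨h1, h2⟩⟩
  · exact nlemma hH hF hne hx fun x h1 h2 _ _ _ => mem_sdiff.2 ⟨h1, h2⟩

theorem nl1 {H W N : Finset (Finset V)} (hH : CC H) (hW : CC W) (hs : W ⊆ H)
    (hx : ∃ x ∈ H, x ∉ W) (hN : ∀ x ∈ H, x ∉ W → 1 ≤ dd W x → x ∈ N) : 2 ≤ N.card := by
  have hu : un {W} = W := by simp [un]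
  have := nlemma (N := N) (F := {W}) hH ⟨fun W' h => mem_singleton.1 h ▸ hs,
    fun W' h => mem_singleton.1 h ▸ hW,
    fun W' h W'' h' k => absurd ((mem_singleton.1 h).trans (mem_singleton.1 h').symm) k⟩
    (singleton_nonempty W) (hu.symm ▸ hx) fun x h1 h2 W' h hd =>
      hN x h1 (hu ▸ h2) (mem_singleton.1 h ▸ hd)
  rwa [card_singleton] at this

theorem nl2 {H W W' N : Finset (Finset V)} (hH : CC H) (hW : CC W) (hW' : CC W') (hs : W ⊆ H)
    (hs' : W' ⊆ H) (hsep : Sep W W') (hx : ∃ x ∈ H, x ∉ W ∧ x ∉ W')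
    (hN : ∀ x ∈ H, x ∉ W → x ∉ W' → (1 ≤ dd W x ∨ 1 ≤ dd W' x) → x ∈ N) : 3 ≤ N.card := by
  have hne : W ≠ W' := by
    rintro rfl
    obtain ⟨e, he⟩ := hW.ne
    obtain ⟨v, hv⟩ := nlem_ne hW e he
    exact hsep e he e he ⟨v, hv, hv⟩
  have hu : ∀ x, x ∉ un {W, W'} ↔ x ∉ W ∧ x ∉ W' := fun x => by simp [un]
  have := nlemma (N := N) (F := {W, W'}) hH ⟨by simp [hs, hs'], by simp [hW, hW'],
    by simp [hsep, hsep.symm]⟩ (insert_nonempty _ _) (by simpa only [hu] using hx)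
    fun x h1 h2 W'' h hd => hN x h1 ((hu x).1 h2).1 ((hu x).1 h2).2 (by
      rcases mem_insert.1 h with rfl | h
      · exact Or.inl hd
      · exact Or.inr (mem_singleton.1 h ▸ hd))
  rwa [card_pair hne] at this

end Pool.Agent.Work.MP_d266e7_co.C5
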