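import Pool.Agent.Work.MP_d266e7_co.C5.Gain
import Pool.Agent.Work.MP_d266e7_co.C5.NLem

/-!
Gadget data from hosts, and constructors of `Side2`, `Quad2`, `Side3` from a family.
-/

namespace Pool.Agent.Work.MP_d266e7_co.C5

open Finset

variable {V : Type} [DecidableEq V]

theorem cross_of_nj {W N M : Finset (Finset V)} (h : ∀ x ∈ N, ∀ y ∈ M, NJ W x y) :
    Cross W (cov N ∩ cov W) (cov M ∩ cov W) := by
  intro C hC hc v hv w hw hvC hwC
  obtain ⟨x, hx, hvx⟩ := mem_cov.1 (mem_inter.1 hv).1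
  obtain ⟨y, hy, hwy⟩ := mem_cov.1 (mem_inter.1 hw).1
  exact (h x hx y hy).no_cover hC hc hvx hwy hvC hwC

theorem hosts_gad {W H N M : Finset (Finset V)} {p q : ℕ} (hs : W ⊆ H)
    (hN : ∀ x ∈ N, x ∈ H ∧ x ∉ W) (hM : ∀ x ∈ M, x ∈ H ∧ x ∉ W) (h : ∀ x ∈ N, ∀ y ∈ M, NJ W x y)
    (hp : p ≤ (cov N ∩ cov W).card) (hq : q ≤ (cov M ∩ cov W).card) : Gad W (dg H) p q := by
  refine ⟨cov N ∩ cov W, cov M ∩ cov W, inter_subset_right, inter_subset_right, fun v hv => ?_,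
    cross_of_nj h, hp, hq⟩
  rcases mem_union.1 hv with hv | hv
  · obtain ⟨x, hx, hvx⟩ := mem_cov.1 (mem_inter.1 hv).1
    exact dg_lt hs (hN x hx).1 (hN x hx).2 hvx
  · obtain ⟨x, hx, hvx⟩ := mem_cov.1 (mem_inter.1 hv).1
    exact dg_lt hs (hM x hx).1 (hM x hx).2 hvx

theorem hosts_one (W : Finset (Finset V)) (x : Finset V) :
    dd W x ≤ (cov {x} ∩ cov W).card := by
  rw [cov_singleton]
  exact le_rfl

theorem hosts_two {W : Finset (Finset V)} {x y : Finset V} (hW : CC W) (h : NJ W x y) :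
    dd W x + dd W y ≤ (cov {x, y} ∩ cov W).card := by
  rw [dd, dd, ← card_union_of_disjoint (h.disjoint hW)]
  refine card_le_card fun v hv => ?_
  rcases mem_union.1 hv with hv | hv
  · exact mem_inter.2 ⟨mem_cov.2 ⟨x, by simp, (mem_inter.1 hv).1⟩, (mem_inter.1 hv).2⟩
  · exact mem_inter.2 ⟨mem_cov.2 ⟨y, by simp, (mem_inter.1 hv).1⟩, (mem_inter.1 hv).2⟩

theorem gad1N {W H N : Finset (Finset V)} {x : Finset V} (hs : W ⊆ H) (hx : x ∈ H)
    (hxW : x ∉ W) (hN : ∀ y ∈ N, y ∈ H ∧ y ∉ W ∧ NJ W x y) :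
    Gad W (dg H) (dd W x) (cov N ∩ cov W).card := by
  refine hosts_gad (N := {x}) hs (fun y hy => ?_) (fun y hy => ⟨(hN y hy).1, (hN y hy).2.1⟩)
    (fun y hy z hz => ?_) (hosts_one W x) le_rfl
  · rw [mem_singleton.1 hy]
    exact ⟨hx, hxW⟩
  · rw [mem_singleton.1 hy]
    exact (hN z hz).2.2

theorem gad11 {W H : Finset (Finset V)} {x y : Finset V} (hs : W ⊆ H) (hx : x ∈ H)
    (hy : y ∈ H) (hxW : x ∉ W) (hyW : y ∉ W) (h : NJ W x y) :
    Gad W (dg H) (dd W x) (dd W y) := by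
  refine hosts_gad (N := {x}) (M := {y}) hs ?_ ?_ ?_ (hosts_one W x) (hosts_one W y) <;>
    simp only [mem_singleton, forall_eq]
  exacts [⟨hx, hxW⟩, ⟨hy, hyW⟩, h]

theorem gad12 {W H : Finset (Finset V)} {x y z : Finset V} (hW : CC W) (hs : W ⊆ H) (hx : x ∈ H)
    (hy : y ∈ H) (hz : z ∈ H) (hxW : x ∉ W) (hyW : y ∉ W) (hzW : z ∉ W) (h1 : NJ W x y)
    (h2 : NJ W x z) (h3 : NJ W y z) : Gad W (dg H) (dd W x) (dd W y + dd W z) := by
  refine hosts_gad (N := {x}) (M := {y, z}) hs ?_ ?_ ?_ (hosts_one W x) (hosts_two hW h3) <;>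
    simp only [mem_insert, mem_singleton, forall_eq_or_imp, forall_eq]
  exacts [⟨hx, hxW⟩, ⟨⟨hy, hyW⟩, hz, hzW⟩, ⟨h1, h2⟩]

theorem gad22 {W H : Finset (Finset V)} {x y z w : Finset V} (hW : CC W) (hs : W ⊆ H)
    (hx : x ∈ H) (hy : y ∈ H) (hz : z ∈ H) (hw : w ∈ H) (hxW : x ∉ W) (hyW : y ∉ W)
    (hzW : z ∉ W) (hwW : w ∉ W) (h1 : NJ W x y) (h2 : NJ W x z) (h3 : NJ W x w) (h4 : NJ W y z)
    (h5 : NJ W y w) (h6 : NJ W z w) : Gad W (dg H) (dd W x + dd W y) (dd W z + dd W w) := by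
  refine hosts_gad (N := {x, y}) (M := {z, w}) hs ?_ ?_ ?_ (hosts_two hW h1) (hosts_two hW h6) <;>
    simp only [mem_insert, mem_singleton, forall_eq_or_imp, forall_eq]
  exacts [⟨⟨hx, hxW⟩, hy, hyW⟩, ⟨⟨hz, hzW⟩, hw, hwW⟩, ⟨⟨h2, h3⟩, h4, h5⟩]

theorem nj_sum2 {W : Finset (Finset V)} {x y : Finset V} (hW : CC W) (h : NJ W x y) :
    dd W x + dd W y ≤ (cov W).card := by
  exact (hosts_two hW h).trans (card_le_card inter_subset_right)

theorem nj_sum3 {W : Finset (Finset V)} {x y z : Finset V} (hW : CC W) (h1 : NJ W x y)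
    (h2 : NJ W x z) (h3 : NJ W y z) : dd W x + dd W y + dd W z ≤ (cov W).card := by
  rw [dd, dd, dd, ← card_union_of_disjoint (h1.disjoint hW), ← card_union_of_disjoint
    (disjoint_union_left.2 ⟨h2.disjoint hW, h3.disjoint hW⟩)]
  exact card_le_card (union_subset (union_subset inter_subset_right inter_subset_right)
    inter_subset_right)

theorem exists_enum {α : Type} [DecidableEq α] {s : Finset α} {k : ℕ} (h : s.card = k) :
    ∃ q : Fin k → α, Function.Injective q ∧ (∀ x, q x ∈ s) ∧ ∀ e ∈ s, ∃ x, e = q x := by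
  let e := (s.equivFinOfCardEq h).symm
  refine ⟨fun x => (e x).1, Subtype.val_injective.comp e.injective, fun x => (e x).2,
    fun a ha => ⟨e.symm ⟨a, ha⟩, ?_⟩⟩
  simp only [Equiv.apply_symm_apply]

theorem hosts_pair {H : Finset (Finset V)} {W1 W2 : Finset (Finset V)} {e : Finset V} :
    e ∈ H \ un {W1, W2} ↔ e ∈ H ∧ e ∉ W1 ∧ e ∉ W2 := by
  simp only [mem_sdiff, mem_un, mem_insert, mem_singleton, exists_eq_or_imp, exists_eq_left,
    not_or]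

theorem side2_of {H : Finset (Finset V)} {F : Finset (Finset (Finset V))} (hH : CC H)
    (hF : Fam H F) {W1 W2 : Finset (Finset V)} (hFe : F = {W1, W2}) (hne : W1 ≠ W2)
    (hN : (H \ un F).card = 3) (hlt : tau W1 + tau W2 < tau H) :
    ∃ q, Side2 H W1 W2 q ∧ ∀ x, q x ∈ H \ un F := by
  obtain ⟨q, q1, q2, q3⟩ := exists_enum hN
  subst hFe
  have m1 : W1 ∈ ({W1, W2} : Finset (Finset (Finset V))) := by simp
  have m2 : W2 ∈ ({W1, W2} : Finset (Finset (Finset V))) := by simp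
  refine ⟨q, ⟨hH, hF.cc _ m1, hF.cc _ m2, hF.sub _ m1, hF.sub _ m2, hF.sep _ m1 _ m2 hne,
    fun x => (hosts_pair.1 (q2 x)).1, fun x => (hosts_pair.1 (q2 x)).2.1,
    fun x => (hosts_pair.1 (q2 x)).2.2, q1, fun e he => ?_, hlt⟩, q2⟩
  by_cases c1 : e ∈ W1
  · exact Or.inl c1
  by_cases c2 : e ∈ W2
  · exact Or.inr (Or.inl c2)
  exact Or.inr (Or.inr (q3 e (hosts_pair.2 ⟨he, c1, c2⟩)))

theorem quad2_of {H : Finset (Finset V)} {F : Finset (Finset (Finset V))} (hH : CC H)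
    (hF : Fam H F) {W1 W2 : Finset (Finset V)} (hFe : F = {W1, W2}) (hne : W1 ≠ W2)
    (hN : (H \ un F).card = 4) (hlt : tau W1 + tau W2 < tau H) :
    ∃ q, Quad2 H W1 W2 q ∧ ∀ x, q x ∈ H \ un F := by
  obtain ⟨q, q1, q2, q3⟩ := exists_enum hN
  subst hFe
  have m1 : W1 ∈ ({W1, W2} : Finset (Finset (Finset V))) := by simp
  have m2 : W2 ∈ ({W1, W2} : Finset (Finset (Finset V))) := by simp
  refine ⟨q, ⟨hH, hF.cc _ m1, hF.cc _ m2, hF.sub _ m1, hF.sub _ m2, hF.sep _ m1 _ m2 hne,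
    fun x => (hosts_pair.1 (q2 x)).1, fun x => (hosts_pair.1 (q2 x)).2.1,
    fun x => (hosts_pair.1 (q2 x)).2.2, q1, fun e he => ?_, hlt⟩, q2⟩
  by_cases c1 : e ∈ W1
  · exact Or.inl c1
  by_cases c2 : e ∈ W2
  · exact Or.inr (Or.inl c2)
  exact Or.inr (Or.inr (q3 e (hosts_pair.2 ⟨he, c1, c2⟩)))

theorem sum_three {F : Finset (Finset (Finset V))} {W : Fin 3 → Finset (Finset V)}
    (hi : Function.Injective W) (h1 : ∀ i, W i ∈ F) (h2 : ∀ Z ∈ F, ∃ i, Z = W i)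
    (f : Finset (Finset V) → ℕ) : ∑ Z ∈ F, f Z = f (W 0) + f (W 1) + f (W 2) := by
  have e : F = univ.image W := by
    ext Z
    simp only [mem_image, mem_univ, true_and]
    exact ⟨fun hZ => (h2 Z hZ).imp fun _ h => h.symm, fun ⟨i, h⟩ => h ▸ h1 i⟩
  have e3 : (univ : Finset (Fin 3)) = {0, 1, 2} := by decide
  rw [e, sum_image fun a _ b _ h => hi h, e3, sum_insert (by decide), sum_insert (by decide),
    sum_singleton, add_assoc]

theorem side3_mk {H : Finset (Finset V)} {F : Finset (Finset (Finset V))} (hH : CC H)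
    (hF : Fam H F) {W : Fin 3 → Finset (Finset V)} (hi : Function.Injective W)
    (h1 : ∀ i, W i ∈ F) (h2 : ∀ Z ∈ F, ∃ i, Z = W i) {q : Fin 4 → Finset V}
    (hq : Function.Injective q) (h3 : ∀ x, q x ∈ H \ un F) (h4 : ∀ e ∈ H \ un F, ∃ x, e = q x)
    (hlt : tau (W 0) + tau (W 1) + tau (W 2) < tau H) : Side3 H W q := by
  refine ⟨hH, fun i => hF.cc _ (h1 i), fun i => hF.sub _ (h1 i),
    fun i j hij => hF.sep _ (h1 i) _ (h1 j) fun e => hij (hi e), fun x => (mem_sdiff.1 (h3 x)).1,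
    fun x i hx => (mem_sdiff.1 (h3 x)).2 (mem_un.2 ⟨_, h1 i, hx⟩), hq, fun e he => ?_, hlt⟩
  by_cases c : e ∈ un F
  · obtain ⟨Z, hZ, heZ⟩ := mem_un.1 c
    obtain ⟨i, rfl⟩ := h2 Z hZ
    exact Or.inl ⟨i, heZ⟩
  · exact Or.inr (h4 e (mem_sdiff.2 ⟨he, c⟩))

end Pool.Agent.Work.MP_d266e7_co.C5
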