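import Pool.Agent.Work.MP_d266e7_co.C5.Core

/-!
The pair gadget. Take fresh disjoint vertex sets `Sh` (size `5 - |A|`, nonempty) and `P`
(size `|A| - |B|`) outside `cov W` (`Infinite.exists_superset_card_eq`), put `a = A ∪ Sh`,
`b = B ∪ Sh ∪ P`, `X = insert a (insert b W)`. `A` and `B` are disjoint (`exists_cover_mem`, `hc`).
`tau X ≤ tau W + 1` by a vertex of `Sh`; `tau X > tau W` by `min_sub` and `hc`. Critical:
erasing `a` or `b` leaves `tau ≤ tau W` (`absorb`), erasing `e ∈ W` leaves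
`tau ≤ tau (W.erase e) + 1`. Connected: `W` is connected, `a` and `b` meet `W`.
-/

namespace Pool.Agent.Work.MP_d266e7_co.C5

open Finset

variable {V : Type} [DecidableEq V]

theorem exists_fresh [Infinite V] (S : Finset V) (k : ℕ) :
    ∃ Y : Finset V, Y.card = k ∧ Disjoint Y S := by
  obtain ⟨T, hST, hT⟩ := Infinite.exists_superset_card_eq S (S.card + k) (Nat.le_add_right _ _)
  refine ⟨T \ S, ?_, sdiff_disjoint⟩
  rw [card_sdiff_of_subset hST, hT]
  omega

theorem pair_dg_insert {W : Finset (Finset V)} {x : Finset V} (hx : x ∉ W) (v : V) :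
    dg (insert x W) v = dg W v + if v ∈ x then 1 else 0 := by
  unfold dg star
  rw [filter_insert]
  split_ifs with h
  · exact card_insert_of_notMem fun h' => hx (mem_filter.1 h').1
  · rfl

theorem pair_cov_insert (W : Finset (Finset V)) (x : Finset V) :
    cov (insert x W) = x ∪ cov W := by
  simp [cov]

theorem pair_conn_insert {W : Finset (Finset V)} (hW : Conn W) {x : Finset V}
    (hx : ∃ w ∈ W, Adj x w) : Conn (insert x W) := by
  intro U hU hne hUne
  obtain ⟨w, hw, hxw⟩ := hx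
  by_cases hxU : x ∈ U
  · by_cases hwU : w ∈ U
    · have h1 : U ∩ W ≠ W := fun h => hUne (Subset.antisymm hU (insert_subset hxU fun e he =>
        (mem_inter.1 (h.symm ▸ he : e ∈ U ∩ W)).1))
      obtain ⟨u, hu, z, hz, hz', ha⟩ :=
        hW (U ∩ W) inter_subset_right ⟨w, mem_inter.2 ⟨hwU, hw⟩⟩ h1
      exact ⟨u, (mem_inter.1 hu).1, z, mem_insert_of_mem hz,
        fun h => hz' (mem_inter.2 ⟨h, hz⟩), ha⟩
    · exact ⟨x, hxU, w, mem_insert_of_mem hw, hwU, hxw⟩
  · have hUW : U ⊆ W := fun e he =>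
      (mem_insert.1 (hU he)).resolve_left fun h => hxU (h ▸ he)
    by_cases h2 : U = W
    · exact ⟨w, h2 ▸ hw, x, mem_insert_self _ _, hxU, hxw.symm⟩
    · obtain ⟨u, hu, z, hz, hz', ha⟩ := hW U hUW hne h2
      exact ⟨u, hu, z, mem_insert_of_mem hz, hz', ha⟩

theorem exists_pair [Infinite V] {W : Finset (Finset V)} (hW : CC W) {A B : Finset V}
    (hA : A ⊆ cov W) (hB : B ⊆ cov W) (hc : Cross W A B) (h1 : 1 ≤ B.card)
    (h2 : B.card ≤ A.card) (h4 : A.card ≤ 4) :
    ∃ X : Finset (Finset V), CC X ∧ W ⊆ X ∧ X.card = W.card + 2 ∧ tau X = tau W + 1 ∧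
      (cov X).card + B.card = (cov W).card + 5 ∧
      (∀ v ∈ cov W, dg X v = dg W v + if v ∈ A ∪ B then 1 else 0) ∧
      (∀ v, v ∉ cov W → dg X v ≤ 2) ∧
      5 + A.card ≤ 2 * B.card + ∑ v ∈ cov X \ cov W, (3 - dg X v) ∧
      (B.card + 2 ≤ A.card →
        ∃ b ∈ X, b ∉ W ∧ 2 ≤ (b.filter (fun v => v ∉ cov W ∧ dg X v ≤ 1)).card) ∧
      (∀ C, Hits C X → C ⊆ cov W → (∃ v ∈ A, v ∈ C) ∧ ∃ w ∈ B, w ∈ C) := by
  obtain ⟨Sh, hSh, dSh⟩ := exists_fresh (cov W) (5 - A.card)
  obtain ⟨P, hP, dP⟩ := exists_fresh (cov W ∪ Sh) (A.card - B.card)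
  have nSh : ∀ v ∈ Sh, v ∉ cov W := fun v hv => disjoint_left.1 dSh hv
  have nP : ∀ v ∈ P, v ∉ cov W := fun v hv h => disjoint_left.1 dP hv (mem_union_left _ h)
  have nPS : ∀ v ∈ P, v ∉ Sh := fun v hv h => disjoint_left.1 dP hv (mem_union_right _ h)
  have hAB : ∀ v ∈ A, v ∉ B := fun v h1 h2 => by
    obtain ⟨C, a1, a2, a3⟩ := exists_cover_mem hW (hA h1)
    exact hc C a1 a2.le v h1 v h2 a3 a3
  obtain ⟨s, hs⟩ : Sh.Nonempty := card_pos.1 (by omega)
  obtain ⟨vA, hvA⟩ : A.Nonempty := card_pos.1 (by omega)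
  obtain ⟨vB, hvB⟩ : B.Nonempty := card_pos.1 (by omega)
  have dSP : Disjoint Sh P := disjoint_right.2 nPS
  have cSP : (Sh ∪ P).card = Sh.card + P.card := card_union_of_disjoint dSP
  obtain ⟨a, ha⟩ : ∃ a, a = A ∪ Sh := ⟨_, rfl⟩
  obtain ⟨b, hb⟩ : ∃ b, b = B ∪ (Sh ∪ P) := ⟨_, rfl⟩
  have ma : ∀ v, v ∈ a ↔ v ∈ A ∨ v ∈ Sh := fun v => by rw [ha, mem_union]
  have mb : ∀ v, v ∈ b ↔ v ∈ B ∨ v ∈ Sh ∨ v ∈ P := fun v => by rw [hb, mem_union, mem_union]
  have sa : s ∈ a := (ma s).2 (Or.inr hs)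
  have sb : s ∈ b := (mb s).2 (Or.inr (Or.inl hs))
  have ca : a.card = 5 := by
    rw [ha, card_union_of_disjoint (disjoint_right.2 fun v hv h => nSh v hv (hA h))]
    omega
  have cb : b.card = 5 := by
    rw [hb, card_union_of_disjoint (disjoint_right.2 fun v hv h =>
      (mem_union.1 hv).elim (fun h' => nSh v h' (hB h)) (fun h' => nP v h' (hB h)))]
    omega
  have aW : a ∉ W := fun h => nSh s hs (mem_cov.2 ⟨a, h, sa⟩)
  have bW : b ∉ W := fun h => nSh s hs (mem_cov.2 ⟨b, h, sb⟩)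
  have hab : a ≠ b := fun h => by
    rcases (mb vA).1 (h ▸ (ma vA).2 (Or.inl hvA)) with h' | h' | h'
    · exact hAB vA hvA h'
    · exact nSh vA h' (hA hvA)
    · exact nP vA h' (hA hvA)
  have abW : a ∉ insert b W := fun h => (mem_insert.1 h).elim hab aW
  have da : 1 ≤ dd W a := card_pos.2 ⟨vA, mem_inter.2 ⟨(ma vA).2 (Or.inl hvA), hA hvA⟩⟩
  have db : 1 ≤ dd W b := card_pos.2 ⟨vB, mem_inter.2 ⟨(mb vB).2 (Or.inl hvB), hB hvB⟩⟩
  have u5 : U5 (insert a (insert b W)) := fun e he => by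
    rcases mem_insert.1 he with rfl | he
    · exact ca
    rcases mem_insert.1 he with rfl | he
    · exact cb
    · exact hW.u5 e he
  have hsub : W ⊆ insert a (insert b W) := (subset_insert _ _).trans (subset_insert _ _)
  have hlast : ∀ C, Hits C (insert a (insert b W)) → C ⊆ cov W →
      (∃ v ∈ A, v ∈ C) ∧ ∃ w ∈ B, w ∈ C := fun C hC hCW => by
    obtain ⟨v, a1, a2⟩ := hC a (mem_insert_self _ _)
    obtain ⟨w, b1, b2⟩ := hC b (mem_insert_of_mem (mem_insert_self _ _))
    refine ⟨⟨v, ((ma v).1 a1).resolve_right fun h => nSh v h (hCW a2), a2⟩, w, ?_, b2⟩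
    rcases (mb w).1 b1 with h | h | h
    · exact h
    · exact absurd (hCW b2) (nSh w h)
    · exact absurd (hCW b2) (nP w h)
  have htau : tau (insert a (insert b W)) = tau W + 1 := by
    refine le_antisymm (tau_le_succ hW.u5.ne s fun e he => ?_) ?_
    · rcases mem_insert.1 he with rfl | he
      · exact Or.inr sa
      rcases mem_insert.1 he with rfl | he
      · exact Or.inr sb
      · exact Or.inl he
    · by_contra hlt
      obtain ⟨C, c1, c2⟩ := exists_opt u5.ne
      have c3 : Hits C W := fun e he => c1 e (hsub he)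
      have c4 : C.card ≤ tau W := by omega
      obtain ⟨⟨v, a1, a2⟩, w, b1, b2⟩ := hlast C c1 (min_sub c3 c4)
      exact hc C c3 c4 v a1 w b1 a2 b2
  have hdg : ∀ v, dg (insert a (insert b W)) v =
      dg W v + (if v ∈ b then 1 else 0) + if v ∈ a then 1 else 0 := fun v => by
    rw [pair_dg_insert abW, pair_dg_insert bW]
  have hz : ∀ v, v ∉ cov W → dg W v = 0 := fun v hv => by
    by_contra h0
    exact hv (dg_pos.1 (Nat.one_le_iff_ne_zero.2 h0))
  have hcov : cov (insert a (insert b W)) = cov W ∪ (Sh ∪ P) := by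
    rw [pair_cov_insert, pair_cov_insert]
    ext v
    simp only [mem_union, ma, mb]
    have := @hA v
    have := @hB v
    tauto
  have dW : Disjoint (cov W) (Sh ∪ P) := disjoint_right.2 fun v hv =>
    (mem_union.1 hv).elim (nSh v) (nP v)
  have dgP : ∀ v ∈ P, dg (insert a (insert b W)) v = 1 := fun v hv => by
    rw [hdg, hz v (nP v hv), if_pos ((mb v).2 (Or.inr (Or.inr hv))), if_neg fun h =>
      ((ma v).1 h).elim (fun h' => nP v hv (hA h')) (nPS v hv)]
  have dgS : ∀ v ∈ Sh, dg (insert a (insert b W)) v = 2 := fun v hv => by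
    rw [hdg, hz v (nSh v hv), if_pos ((mb v).2 (Or.inr (Or.inl hv))),
      if_pos ((ma v).2 (Or.inr hv))]
  refine ⟨insert a (insert b W), ⟨u5, fun e he => ?_, ?_, insert_nonempty _ _⟩, hsub, ?_, htau,
    ?_, fun v hv => ?_, fun v hv => ?_, ?_, fun h => ⟨b, mem_insert_of_mem (mem_insert_self _ _),
    bW, ?_⟩, hlast⟩
  · rw [htau]
    rcases mem_insert.1 he with rfl | he
    · rw [erase_insert abW]
      exact Nat.lt_succ_of_le (absorb hW db)
    rcases mem_insert.1 he with rfl | he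
    · rw [Finset.insert_comm, erase_insert fun h => (mem_insert.1 h).elim hab.symm bW]
      exact Nat.lt_succ_of_le (absorb hW da)
    · have h5 := hW.crit e he
      have h6 : tau ((insert a (insert b W)).erase e) ≤ tau (W.erase e) + 1 :=
        tau_le_succ (hW.u5.ne.mono (erase_subset _ _)) s fun f hf => by
          obtain ⟨f1, f2⟩ := mem_erase.1 hf
          rcases mem_insert.1 f2 with rfl | f2
          · exact Or.inr sa
          rcases mem_insert.1 f2 with rfl | f2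
          · exact Or.inr sb
          · exact Or.inl (mem_erase.2 ⟨f1, f2⟩)
      omega
  · obtain ⟨w, hw, haw⟩ := dd_pos.1 da
    obtain ⟨w', hw', hbw⟩ := dd_pos.1 db
    exact pair_conn_insert (pair_conn_insert hW.conn ⟨w', hw', hbw⟩)
      ⟨w, mem_insert_of_mem hw, haw⟩
  · rw [card_insert_of_notMem abW, card_insert_of_notMem bW]
  · rw [hcov, card_union_of_disjoint dW]
    omega
  · have e1 : v ∈ a ↔ v ∈ A := (ma v).trans ⟨fun h => h.resolve_right fun h' => nSh v h' hv, Or.inl⟩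
    have e2 : v ∈ b ↔ v ∈ B := (mb v).trans ⟨fun h => h.resolve_right fun h' =>
      h'.elim (fun h' => nSh v h' hv) (fun h' => nP v h' hv), Or.inl⟩
    have e3 := hAB v
    rw [hdg]
    simp only [e1, e2, mem_union]
    by_cases x1 : v ∈ A <;> by_cases x2 : v ∈ B <;> simp_all
  · rw [hdg, hz v hv]
    split_ifs <;> omega
  · rw [hcov, union_sdiff_cancel_left dW, sum_union dSP,
      sum_const_nat (m := 1) fun v hv => by rw [dgS v hv],
      sum_const_nat (m := 2) fun v hv => by rw [dgP v hv]]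
    omega
  · have : P ⊆ b.filter (fun v => v ∉ cov W ∧ dg (insert a (insert b W)) v ≤ 1) := fun v hv =>
      mem_filter.2 ⟨(mb v).2 (Or.inr (Or.inr hv)), nP v hv, (dgP v hv).le⟩
    have := card_le_card this
    omega

end Pool.Agent.Work.MP_d266e7_co.C5
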