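import Pool.Agent.Work.MP_d266e7_co.C5.Gain

/-!
The triple gadget. Fresh vertices `s ≠ r` outside `cov W`. For a host `x` put
`x' = insert s (x ∩ cov W)` if `dd W x = 4` and `x' = insert r (insert s (x ∩ cov W))` if
`dd W x = 3`. `X = insert x' (insert y' (insert z' W))`. `tau X = tau W + 1` (`≤` by `s`; a
transversal of size `≤ tau W` lies in `cov W` by `min_sub` and contradicts `h3`). Erasing a new
node leaves `tau ≤ tau W` (`joint_of_not_nj`); in particular the new nodes are different.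
Erasing `e ∈ W` leaves `tau ≤ tau (W.erase e) + 1`. `cov X = insert r (insert s (cov W))`,
`dg X r = 12 - (dd x + dd y + dd z)`, `dg X s = 3`, `dg X v ≤ dg H v` on `cov W`.
-/

namespace Pool.Agent.Work.MP_d266e7_co.C5

open Finset

variable {V : Type} [DecidableEq V]

theorem triple_conn {W X : Finset (Finset V)} (hW : Conn W) (hs : W ⊆ X)
    (h : ∀ e ∈ X, ∃ w ∈ W, Adj e w) : Conn X := by
  intro Y hY ⟨u, hu⟩ hne
  by_cases h1 : W ⊆ Y
  · obtain ⟨z, hz, hzY⟩ := exists_of_ssubset (lt_of_le_of_ne hY hne)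
    obtain ⟨w, hw, a⟩ := h z hz
    exact ⟨w, h1 hw, z, hz, hzY, a.symm⟩
  obtain ⟨w, hw, a⟩ := h u (hY hu)
  by_cases h2 : w ∈ Y
  · obtain ⟨p, hp, q, hq, hq', b⟩ := hW (Y ∩ W) inter_subset_right ⟨w, mem_inter.2 ⟨h2, hw⟩⟩
      fun e => h1 (inter_eq_right.1 e)
    exact ⟨p, (mem_inter.1 hp).1, q, hs hq, fun k => hq' (mem_inter.2 ⟨k, hq⟩), b⟩
  · exact ⟨u, hu, w, hs hw, h2, a⟩

/-- the new node that replaces a host -/
theorem triple_node (W : Finset (Finset V)) {s r : V} (hr : r ∉ cov W)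
    (hs : s ∉ insert r (cov W)) : ∃ g : Finset V → Finset V, ∀ x, s ∈ g x ∧
      (∀ v ∈ cov W, v ∈ g x ↔ v ∈ x) ∧ g x ⊆ insert s (insert r (cov W)) ∧
      (r ∈ g x ↔ dd W x = 3) ∧ (3 ≤ dd W x → dd W x ≤ 4 → (g x).card = 5) := by
  have h1 : ∀ x : Finset V, r ∉ x ∩ cov W := fun x k => hr (mem_inter.1 k).2
  have h2 : ∀ x : Finset V, insert r (x ∩ cov W) ⊆ insert r (cov W) := fun x =>
    insert_subset_insert _ inter_subset_right
  have h3 : r ≠ s := fun e => hs (e ▸ mem_insert_self _ _)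
  have h4 : ∀ v ∈ cov W, v ≠ s ∧ v ≠ r := fun v hv =>
    ⟨fun e => hs (e ▸ mem_insert_of_mem hv), fun e => hr (e ▸ hv)⟩
  refine ⟨fun x => insert s (if dd W x = 3 then insert r (x ∩ cov W) else x ∩ cov W),
    fun x => ⟨mem_insert_self _ _, fun v hv => ?_, insert_subset_insert _ ?_, ?_, fun a b => ?_⟩⟩ <;>
    beta_reduce
  · split_ifs <;> simp [h4 v hv, hv]
  · split_ifs
    exacts [h2 x, (subset_insert _ _).trans (h2 x)]
  · split_ifs with k <;> simp [k, h3, hr]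
  · split_ifs with k
    · rw [card_insert_of_notMem fun e => hs (h2 x e), card_insert_of_notMem (h1 x)]
      exact congrArg (· + 1 + 1) k
    · rw [card_insert_of_notMem fun e => hs (h2 x (mem_insert_of_mem e))]
      exact congrArg (· + 1) (show dd W x = 4 by omega)

theorem triple_main [Infinite V] {k : ℕ} (hU : IHU V k) {W H N : Finset (Finset V)}
    (hk : W.card + 3 ≤ k) (hW : CC W) (hs : W ⊆ H) (h4 : ∀ v, dg H v ≤ 4) (hN : N ⊆ H)
    (hd : Disjoint W N) (hc : N.card ≤ 3) (h34 : ∀ e ∈ N, 3 ≤ dd W e ∧ dd W e ≤ 4)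
    (h1 : ∃ e ∈ N, dd W e = 3) (hj : ∀ e ∈ N, ∃ C, Hits C W ∧ C.card ≤ tau W ∧
      ∀ f ∈ N, f ≠ e → ∃ v ∈ f ∩ cov W, v ∈ C) (h3 : tau W < tau (N ∪ W)) :
    256 * tau W + ee W (dg H) + 2 ≤
      53 * W.card + 44 * (cov W).card + (N.filter fun e => dd W e = 3).card := by
  obtain ⟨r, hr⟩ := Infinite.exists_notMem_finset (cov W)
  obtain ⟨s, hs'⟩ := Infinite.exists_notMem_finset (insert r (cov W))
  obtain ⟨g, hg⟩ := triple_node W hr hs'
  obtain ⟨X, hX⟩ : ∃ X, X = N.image g ∪ W := ⟨_, rfl⟩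
  have mem : ∀ e, e ∈ X ↔ (∃ a ∈ N, g a = e) ∨ e ∈ W := fun e => by rw [hX, mem_union, mem_image]
  have sub : W ⊆ X := hX ▸ subset_union_right
  have u5 : U5 X := fun e he => by
    rcases (mem e).1 he with ⟨a, ha, rfl⟩ | h
    exacts [(hg a).2.2.2.2 (h34 a ha).1 (h34 a ha).2, hW.u5 e h]
  have t1 : tau W < tau X := by
    obtain ⟨T, hT, e⟩ := exists_opt u5.ne
    have hTW : Hits T W := fun f hf => hT f (sub hf)
    by_contra hn
    refine h3.not_ge ((tau_le fun f hf => ?_).trans (e.trans_le (not_lt.1 hn)))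
    rcases mem_union.1 hf with h | h
    · obtain ⟨v, v1, v2⟩ := hT (g f) ((mem _).2 (.inl ⟨f, h, rfl⟩))
      exact ⟨v, ((hg f).2.1 v (min_sub hTW (e.trans_le (not_lt.1 hn)) v2)).1 v1, v2⟩
    · exact hTW f h
  have cc : CC X := by
    refine ⟨u5, fun e he => lt_of_le_of_lt ?_ t1, triple_conn hW.conn sub fun e he => ?_,
      hW.ne.mono sub⟩
    · rcases (mem e).1 he with ⟨a, ha, rfl⟩ | h
      · obtain ⟨C, c1, c2, c3⟩ := hj a ha
        refine (tau_le fun f hf => ?_).trans c2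
        rcases (mem f).1 (mem_of_mem_erase hf) with ⟨b, hb, rfl⟩ | h
        · obtain ⟨v, v1, v2⟩ := c3 b hb fun k => ne_of_mem_erase hf (congrArg g k)
          exact ⟨v, ((hg b).2.1 v (mem_inter.1 v1).2).2 (mem_inter.1 v1).1, v2⟩
        · exact c1 f h
      · refine (tau_le_succ (hW.u5.ne.mono (erase_subset e W)) s fun f hf => ?_).trans (hW.crit e h)
        rcases (mem f).1 (mem_of_mem_erase hf) with ⟨b, -, rfl⟩ | k
        exacts [.inr (hg b).1, .inl (mem_erase.2 ⟨ne_of_mem_erase hf, k⟩)]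
    · rcases (mem e).1 he with ⟨a, ha, rfl⟩ | h
      · obtain ⟨w, hw, v, v1, v2⟩ := dd_pos.1 (le_trans (by norm_num) (h34 a ha).1)
        exact ⟨w, hw, v, ((hg a).2.1 v (mem_cov.2 ⟨w, hw, v2⟩)).2 v1, v2⟩
      · obtain ⟨v, hv⟩ := hW.u5.ne e h
        exact ⟨e, h, v, hv, hv⟩
  have d0 : ∀ v, dg X v ≤ dg W v + (N.filter fun a => v ∈ g a).card := fun v => by
    refine (card_le_card (t := star W v ∪ (N.filter fun a => v ∈ g a).image g) fun e he => ?_).trans
      ((card_union_le _ _).trans (add_le_add le_rfl card_image_le))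
    obtain ⟨e1, e2⟩ := mem_star.1 he
    rcases (mem e).1 e1 with ⟨a, ha, rfl⟩ | h
    · exact mem_union_right _ (mem_image_of_mem g (mem_filter.2 ⟨ha, e2⟩))
    · exact mem_union_left _ (mem_star.2 ⟨h, e2⟩)
  have d1 : ∀ v ∈ cov W, dg X v ≤ dg H v := fun v hv => by
    refine (d0 v).trans (le_trans (le_of_eq ?_) (dg_add hs hN hd v))
    rw [filter_congr fun a _ => (hg a).2.1 v hv]
    rfl
  have d2 : ∀ v, v ∉ cov W → dg X v ≤ (N.filter fun a => v ∈ g a).card := fun v hv => by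
    have k1 := d0 v
    have k2 : ¬ 1 ≤ dg W v := fun k => hv (dg_pos.1 k)
    omega
  have d3 : dg X r ≤ (N.filter fun e => dd W e = 3).card := by
    rw [← filter_congr fun a _ => (hg a).2.2.2.1]
    exact d2 r hr
  have c1 : X.card ≤ W.card + 3 := by
    have k1 := card_union_le (N.image g) W
    have k2 := card_image_le (s := N) (f := g)
    rw [← hX] at k1
    omega
  have c2 : (cov X).card ≤ (cov W).card + 2 := by
    refine (card_le_card (t := insert s (insert r (cov W))) fun v hv => ?_).trans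
      ((card_insert_le _ _).trans (Nat.succ_le_succ (card_insert_le _ _)))
    obtain ⟨e, e1, e2⟩ := mem_cov.1 hv
    rcases (mem e).1 e1 with ⟨a, -, rfl⟩ | h
    · exact (hg a).2.2.1 e2
    · exact mem_insert_of_mem (mem_insert_of_mem (mem_cov.2 ⟨e, h, e2⟩))
  have c3 : 3 - dg X r + ee W (dg X) ≤ ee X (dg X) := by
    rw [ee, ← sum_insert (f := fun v => 3 - dg X v) hr]
    obtain ⟨a, ha, e⟩ := h1
    exact sum_le_sum_of_subset (insert_subset
      (mem_cov.2 ⟨g a, (mem _).2 (.inl ⟨a, ha, rfl⟩), (hg a).2.2.2.1.2 e⟩) (cov_mono sub))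
  have c4 := ee_mono d1
  have c5 : UB X := hU X (c1.trans hk) cc fun v => by
    by_cases hv : v ∈ cov W
    · exact (d1 v hv).trans (h4 v)
    · exact (d2 v hv).trans ((card_filter_le _ _).trans (hc.trans (by norm_num)))
  unfold UB at c5
  omega

theorem gain_triple [Infinite V] {k : ℕ} (hU : IHU V k) {W H : Finset (Finset V)}
    (hk : W.card + 3 ≤ k) (hW : CC W) (hs : W ⊆ H) (h4 : ∀ v, dg H v ≤ 4) {x y z : Finset V}
    (hx : x ∈ H) (hy : y ∈ H) (hz : z ∈ H) (hxW : x ∉ W) (hyW : y ∉ W) (hzW : z ∉ W)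
    (hxy : x ≠ y) (hxz : x ≠ z) (hyz : y ≠ z)
    (x3 : 3 ≤ dd W x) (x4 : dd W x ≤ 4) (y3 : 3 ≤ dd W y) (y4 : dd W y ≤ 4)
    (z3 : 3 ≤ dd W z) (z4 : dd W z ≤ 4) (hsum : dd W x + dd W y + dd W z ≤ 11)
    (j1 : ¬ NJ W x y) (j2 : ¬ NJ W x z) (j3 : ¬ NJ W y z)
    (h3 : tau W < tau (insert x (insert y (insert z W)))) :
    256 * tau W + ee W (dg H) + dd W x + dd W y + dd W z ≤
      53 * W.card + 44 * (cov W).card + 10 := by
  have ne : ∀ e, 3 ≤ dd W e → e.Nonempty := fun e h => card_pos.1 (by have := dd_le W e; omega)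
  obtain ⟨C1, a1, a2, a3, a4⟩ := joint_of_not_nj hW.u5.ne (ne x x3) (ne y y3) j1
  obtain ⟨C2, b1, b2, b3, b4⟩ := joint_of_not_nj hW.u5.ne (ne x x3) (ne z z3) j2
  obtain ⟨C3, c1, c2, c3, c4⟩ := joint_of_not_nj hW.u5.ne (ne y y3) (ne z z3) j3
  have key := triple_main hU (N := {x, y, z}) hk hW hs h4
    (by simp [insert_subset_iff, hx, hy, hz]) (by simp [hxW, hyW, hzW]) card_le_three
    (by simp [x3, x4, y3, y4, z3, z4])
    (by
      simp only [mem_insert, mem_singleton, exists_eq_or_imp, exists_eq_left]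
      omega)
    (by
      simp only [mem_insert, mem_singleton, forall_eq_or_imp, forall_eq]
      exact ⟨⟨C3, c1, c2, fun h => absurd rfl h, fun _ => c3, fun _ => c4⟩,
        ⟨C2, b1, b2, fun _ => b3, fun h => absurd rfl h, fun _ => b4⟩,
        C1, a1, a2, fun _ => a3, fun _ => a4, fun h => absurd rfl h⟩)
    (by simpa only [insert_union, ← insert_eq])
  rw [card_filter, sum_insert (by simp [hxy, hxz]), sum_pair hyz] at key
  split_ifs at key <;> omega

end Pool.Agent.Work.MP_d266e7_co.C5
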