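import Pool.Agent.Work.MP_d266e7_co.C5.Hosts
import Pool.Agent.Work.MP_d266e7_co.C5.Triple

/-!
Two pieces and four hosts. Write `a x = dd W1 (q x)`, `b x = dd W2 (q x)`. Each piece has
`256 tau + ee ≤ 53 m + 44 n + 10` (`hU`, `ee_mono`); a gain of 10 is needed. A `Gad _ _ 2 2`
on either piece gains 21 (`gainQ_le`); assume there is none. For distinct `x y z w`:
`NJ W1 x y ∨ NJ W2 z w` (`Quad2.split`). So no split has `a x, a y ≥ 2` and `b z, b w ≥ 2`;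
hence three hosts have `a ≥ 3`, or three have `b ≥ 3` (symmetric). At least two hosts have
`b ≥ 1` (`nl1`). So there are distinct `x y z w` with `a x, a y, a z ≥ 3`, `b w ≥ 1` and
`a x + a y + a z ≤ 11` (`quad2_core`). The pairs among `x y z` are not `NJ` in `W1`, the triple
satisfies `h3` of `gain_triple` (absorb `w` in `W2`), gain `a x + a y + a z`. If it is 9, all
`b x = b y = b z = 1`, and `NJ W2 x w`, `NJ W2 y w`, `NJ W2 z w`. If `b w = 1` then `a w = 3`,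
all pairs are `NJ` in `W2`, `gad22`. If `b w ≥ 2`, `gad1N` with `N = {x, y, z}`: either
`Gad 2 2`, or one vertex `v ∈ cov W2` lies in all three, so `dg W2 v ≤ 1`, `dg H v ≥ 4` and
`ee W2 (dg H) + 1 ≤ ee W2 (dg W2)`.
-/

namespace Pool.Agent.Work.MP_d266e7_co.C5

open Finset

variable {V : Type} [DecidableEq V]

theorem Quad2.symm {H W1 W2 : Finset (Finset V)} {q : Fin 4 → Finset V} (h : Quad2 H W1 W2 q) :
    Quad2 H W2 W1 q := by
  exact ⟨h.cc, h.c2, h.c1, h.s2, h.s1, h.sep.symm, h.qmem, h.q2, h.q1, h.qinj,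
    fun e he => or_left_comm.1 (h.all e he), by rw [add_comm]; exact h.lt⟩

theorem quad_all : ∀ x y z w t : Fin 4, x ≠ y → x ≠ z → x ≠ w → y ≠ z → y ≠ w → z ≠ w →
    t = x ∨ t = y ∨ t = z ∨ t = w := by
  decide

theorem quad_cover {H A B : Finset (Finset V)} (h : CC H) (hA : A ⊆ H) (hB : B ⊆ H)
    (hall : ∀ e ∈ H, e ∈ A ∨ e ∈ B) : tau H ≤ tau A + tau B :=
  (tau_mono (h.u5.ne.mono (union_subset hA hB)) fun e he => mem_union.2 (hall e he)).trans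
    (tau_union_le (h.u5.ne.mono hA) (h.u5.ne.mono hB))

theorem Quad2.split {H W1 W2 : Finset (Finset V)} {q : Fin 4 → Finset V} (h : Quad2 H W1 W2 q)
    {x y z w : Fin 4} (h1 : x ≠ y) (h2 : x ≠ z) (h3 : x ≠ w) (h4 : y ≠ z) (h5 : y ≠ w)
    (h6 : z ≠ w) : NJ W1 (q x) (q y) ∨ NJ W2 (q z) (q w) := by
  by_contra hn
  simp only [NJ, not_or, not_lt] at hn
  have := h.lt
  have := quad_cover h.cc (A := insert (q x) (insert (q y) W1))
    (B := insert (q z) (insert (q w) W2))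
    (insert_subset (h.qmem x) (insert_subset (h.qmem y) h.s1))
    (insert_subset (h.qmem z) (insert_subset (h.qmem w) h.s2)) fun e he => by
      rcases h.all e he with a | a | ⟨t, rfl⟩
      · simp [a]
      · simp [a]
      · rcases quad_all x y z w t h1 h2 h3 h4 h5 h6 with rfl | rfl | rfl | rfl <;> simp
  omega

theorem quad_gad [Infinite V] {k : ℕ} (hU : IHU V k) {H W1 W2 : Finset (Finset V)}
    {q : Fin 4 → Finset V} (h : Quad2 H W1 W2 q) (hk1 : W1.card + 3 ≤ k) (hk2 : W2.card + 3 ≤ k)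
    (h4 : ∀ v, dg H v ≤ 4) (g : Gad W1 (dg H) 2 2 ∨ Gad W2 (dg H) 2 2) :
    256 * (tau W1 + tau W2) + ee W1 (dg H) + ee W2 (dg H) ≤
      53 * (W1.card + W2.card) + 44 * ((cov W1).card + (cov W2).card) + 10 := by
  have a1 : 256 * tau W1 + ee W1 (dg W1) ≤ 53 * W1.card + 44 * (cov W1).card + 10 :=
    hU W1 (by omega) h.c1 fun v => (dg_mono h.s1 v).trans (h4 v)
  have a2 : ee W1 (dg H) ≤ ee W1 (dg W1) := ee_mono fun v _ => dg_mono h.s1 v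
  have b1 : 256 * tau W2 + ee W2 (dg W2) ≤ 53 * W2.card + 44 * (cov W2).card + 10 :=
    hU W2 (by omega) h.c2 fun v => (dg_mono h.s2 v).trans (h4 v)
  have b2 : ee W2 (dg H) ≤ ee W2 (dg W2) := ee_mono fun v _ => dg_mono h.s2 v
  rcases g with g | g
  · have := gainQ_le hU (by omega) h.c1 h4 (fun v _ => dg_mono h.s1 v) g
    omega
  · have := gainQ_le hU (by omega) h.c2 h4 (fun v _ => dg_mono h.s2 v) g
    omega

theorem quad2_core [Infinite V] {k : ℕ} (hU : IHU V k) {H W1 W2 : Finset (Finset V)}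
    {q : Fin 4 → Finset V} (h : Quad2 H W1 W2 q) (hk1 : W1.card + 3 ≤ k) (hk2 : W2.card + 3 ≤ k)
    (h4 : ∀ v, dg H v ≤ 4) (hs : ∀ x, dd W1 (q x) + dd W2 (q x) = 4)
    {x y z w : Fin 4} (h1 : x ≠ y) (h2 : x ≠ z) (h3 : x ≠ w) (h4' : y ≠ z) (h5 : y ≠ w)
    (h6 : z ≠ w) (hx : 3 ≤ dd W1 (q x)) (hy : 3 ≤ dd W1 (q y)) (hz : 3 ≤ dd W1 (q z))
    (hw : 1 ≤ dd W2 (q w)) (hsum : dd W1 (q x) + dd W1 (q y) + dd W1 (q z) ≤ 11) :
    256 * (tau W1 + tau W2) + ee W1 (dg H) + ee W2 (dg H) ≤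
      53 * (W1.card + W2.card) + 44 * ((cov W1).card + (cov W2).card) + 10 := by
  by_cases g : Gad W1 (dg H) 2 2 ∨ Gad W2 (dg H) 2 2
  · exact quad_gad hU h hk1 hk2 h4 g
  obtain ⟨g1, g2⟩ := not_or.1 g
  have nj : ∀ s t, 2 ≤ dd W1 (q s) → 2 ≤ dd W1 (q t) → ¬ NJ W1 (q s) (q t) := fun s t a b c =>
    g1 ((gad11 h.s1 (h.qmem s) (h.qmem t) (h.q1 s) (h.q1 t) c).mono a b)
  have sx := hs x
  have sy := hs y
  have sz := hs z
  have sw := hs w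
  have nxy := nj x y (by omega) (by omega)
  have nxz := nj x z (by omega) (by omega)
  have nyz := nj y z (by omega) (by omega)
  have t3 : tau W1 < tau (insert (q x) (insert (q y) (insert (q z) W1))) := by
    have := h.lt
    have := absorb h.c2 hw
    have := quad_cover h.cc (A := insert (q x) (insert (q y) (insert (q z) W1)))
      (B := insert (q w) W2)
      (insert_subset (h.qmem x) (insert_subset (h.qmem y) (insert_subset (h.qmem z) h.s1)))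
      (insert_subset (h.qmem w) h.s2) fun e he => by
        rcases h.all e he with a | a | ⟨t, rfl⟩
        · simp [a]
        · simp [a]
        · rcases quad_all x y z w t h1 h2 h3 h4' h5 h6 with rfl | rfl | rfl | rfl <;> simp
    omega
  have b1 := gain_triple hU hk1 h.c1 h.s1 h4 (h.qmem x) (h.qmem y) (h.qmem z) (h.q1 x) (h.q1 y)
    (h.q1 z) (h.qinj.ne h1) (h.qinj.ne h2) (h.qinj.ne h4') hx (by omega) hy (by omega) hz
    (by omega) hsum nxy nxz nyz t3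
  have b2 : 256 * tau W2 + ee W2 (dg W2) ≤ 53 * W2.card + 44 * (cov W2).card + 10 :=
    hU W2 (by omega) h.c2 fun v => (dg_mono h.s2 v).trans (h4 v)
  have b3 : ee W2 (dg H) ≤ ee W2 (dg W2) := ee_mono fun v _ => dg_mono h.s2 v
  by_cases h10 : 10 ≤ dd W1 (q x) + dd W1 (q y) + dd W1 (q z)
  · omega
  have jz := (h.split h1 h2 h3 h4' h5 h6).resolve_left nxy
  have jy := (h.split h2 h1 h3 h4'.symm h6 h5).resolve_left nxz
  have jx := (h.split h4' h1.symm h5 h2.symm h6 h3).resolve_left nyz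
  by_cases hw2 : 2 ≤ dd W2 (q w)
  · have g3 := gad1N (N := {q x, q y}) h.s2 (h.qmem w) (h.q2 w) fun e he => by
      rcases mem_insert.1 he with rfl | he
      · exact ⟨h.qmem x, h.q2 x, jx.symm⟩
      · rw [mem_singleton.1 he]
        exact ⟨h.qmem y, h.q2 y, jy.symm⟩
    have c1 : (cov {q x, q y} ∩ cov W2).card ≤ 1 :=
      not_lt.1 fun c => g2 (g3.mono hw2 c)
    obtain ⟨v, hv⟩ : (q x ∩ cov W2).Nonempty := card_pos.1 (show 0 < dd W2 (q x) by omega)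
    obtain ⟨v', hv'⟩ : (q y ∩ cov W2).Nonempty := card_pos.1 (show 0 < dd W2 (q y) by omega)
    rw [mem_inter] at hv hv'
    obtain rfl : v = v' := card_le_one.1 c1 v
      (mem_inter.2 ⟨mem_cov.2 ⟨q x, by simp, hv.1⟩, hv.2⟩) v'
      (mem_inter.2 ⟨mem_cov.2 ⟨q y, by simp, hv'.1⟩, hv'.2⟩)
    have d1 := dg_lt2 h.s2 (h.qmem x) (h.qmem y) (h.qinj.ne h1) (h.q2 x) (h.q2 y) hv.1 hv'.1
    have d2 := h4 v
    have b4 : ee W2 (dg H) < ee W2 (dg W2) :=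
      sum_lt_sum (fun u _ => Nat.sub_le_sub_left (dg_mono h.s2 u) 3) ⟨v, hv.2, by omega⟩
    omega
  · have kxy := (h.split h6 h2.symm h4'.symm h3.symm h5.symm h1).resolve_left
      (nj z w (by omega) (by omega))
    have kxz := (h.split h5 h1.symm h4' h3.symm h6.symm h2).resolve_left
      (nj y w (by omega) (by omega))
    have kyz := (h.split h3 h1 h2 h5.symm h6.symm h4').resolve_left
      (nj x w (by omega) (by omega))
    exact absurd ((gad22 h.c2 h.s2 (h.qmem x) (h.qmem y) (h.qmem z) (h.qmem w) (h.q2 x) (h.q2 y)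
      (h.q2 z) (h.q2 w) kxy kxz jx kyz jy jz).mono (by omega) (by omega)) g2

theorem quad_nb {H W1 W2 : Finset (Finset V)} {q : Fin 4 → Finset V} (h : Quad2 H W1 W2 q)
    {x y z w : Fin 4} (h1 : x ≠ y) (h2 : x ≠ z) (h3 : x ≠ w) (h4 : y ≠ z) (h5 : y ≠ w)
    (h6 : z ≠ w) : 1 ≤ dd W2 (q x) + dd W2 (q y) + dd W2 (q z) := by
  by_contra hn
  have := nl1 (N := {q w}) h.cc h.c2 h.s2 ⟨q w, h.qmem w, h.q2 w⟩ fun e he a b => by
    rcases h.all e he with c | c | ⟨t, rfl⟩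
    · have := dd_sep h.sep.symm c
      omega
    · exact absurd c a
    · rcases quad_all x y z w t h1 h2 h3 h4 h5 h6 with rfl | rfl | rfl | rfl
      · omega
      · omega
      · omega
      · exact mem_singleton_self _
  simp at this

theorem quad_eight {a0 a1 a2 a3 b0 b1 b2 b3 : ℕ} (s0 : a0 + b0 = 4) (s1 : a1 + b1 = 4)
    (s2 : a2 + b2 = 4) (s3 : a3 + b3 = 4) (ha : 1 ≤ a0 + a1 + a2) (hb : 1 ≤ b0 + b1 + b2)
    (c0 : (a1 < 3 ∨ a2 < 3 ∨ a3 < 3 ∨ b0 = 0) ∧ (b1 < 3 ∨ b2 < 3 ∨ b3 < 3 ∨ a0 = 0))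
    (c1 : (a0 < 3 ∨ a2 < 3 ∨ a3 < 3 ∨ b1 = 0) ∧ (b0 < 3 ∨ b2 < 3 ∨ b3 < 3 ∨ a1 = 0))
    (c2 : (a0 < 3 ∨ a1 < 3 ∨ a3 < 3 ∨ b2 = 0) ∧ (b0 < 3 ∨ b1 < 3 ∨ b3 < 3 ∨ a2 = 0))
    (c3 : (a0 < 3 ∨ a1 < 3 ∨ a2 < 3 ∨ b3 = 0) ∧ (b0 < 3 ∨ b1 < 3 ∨ b2 < 3 ∨ a3 = 0))
    (n1 : ¬ (2 ≤ a0 ∧ 2 ≤ a1 ∧ 2 ≤ b2 ∧ 2 ≤ b3)) (n2 : ¬ (2 ≤ a0 ∧ 2 ≤ a2 ∧ 2 ≤ b1 ∧ 2 ≤ b3))
    (n3 : ¬ (2 ≤ a0 ∧ 2 ≤ a3 ∧ 2 ≤ b1 ∧ 2 ≤ b2)) (n4 : ¬ (2 ≤ a1 ∧ 2 ≤ a2 ∧ 2 ≤ b0 ∧ 2 ≤ b3))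
    (n5 : ¬ (2 ≤ a1 ∧ 2 ≤ a3 ∧ 2 ≤ b0 ∧ 2 ≤ b2)) (n6 : ¬ (2 ≤ a2 ∧ 2 ≤ a3 ∧ 2 ≤ b0 ∧ 2 ≤ b1)) :
    False := by
  grind (splits := 40)

theorem quad_num {a b : Fin 4 → ℕ} (hs : ∀ x, a x + b x = 4)
    (hn : ∀ x y z w, x ≠ y → x ≠ z → x ≠ w → y ≠ z → y ≠ w → z ≠ w →
      ¬ (2 ≤ a x ∧ 2 ≤ a y ∧ 2 ≤ b z ∧ 2 ≤ b w))
    (ha : ∀ x y z w, x ≠ y → x ≠ z → x ≠ w → y ≠ z → y ≠ w → z ≠ w → 1 ≤ a x + a y + a z)
    (hb : ∀ x y z w, x ≠ y → x ≠ z → x ≠ w → y ≠ z → y ≠ w → z ≠ w → 1 ≤ b x + b y + b z) :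
    ∃ x y z w, x ≠ y ∧ x ≠ z ∧ x ≠ w ∧ y ≠ z ∧ y ≠ w ∧ z ≠ w ∧
      ((3 ≤ a x ∧ 3 ≤ a y ∧ 3 ≤ a z ∧ 1 ≤ b w ∧ a x + a y + a z ≤ 11) ∨
        (3 ≤ b x ∧ 3 ≤ b y ∧ 3 ≤ b z ∧ 1 ≤ a w ∧ b x + b y + b z ≤ 11)) := by
  by_contra hc
  have hc' : ∀ x y z w, x ≠ y → x ≠ z → x ≠ w → y ≠ z → y ≠ w → z ≠ w →
      (a x < 3 ∨ a y < 3 ∨ a z < 3 ∨ b w = 0) ∧ (b x < 3 ∨ b y < 3 ∨ b z < 3 ∨ a w = 0) := by
    intro x y z w h1 h2 h3 h4 h5 h6
    have := ha x y z w h1 h2 h3 h4 h5 h6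
    have := hb x y z w h1 h2 h3 h4 h5 h6
    have := hs x
    have := hs y
    have := hs z
    constructor <;> by_contra hd <;>
      exact hc ⟨x, y, z, w, h1, h2, h3, h4, h5, h6, by omega⟩
  exact quad_eight (hs 0) (hs 1) (hs 2) (hs 3)
    (ha 0 1 2 3 (by decide) (by decide) (by decide) (by decide) (by decide) (by decide))
    (hb 0 1 2 3 (by decide) (by decide) (by decide) (by decide) (by decide) (by decide))
    (hc' 1 2 3 0 (by decide) (by decide) (by decide) (by decide) (by decide) (by decide))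
    (hc' 0 2 3 1 (by decide) (by decide) (by decide) (by decide) (by decide) (by decide))
    (hc' 0 1 3 2 (by decide) (by decide) (by decide) (by decide) (by decide) (by decide))
    (hc' 0 1 2 3 (by decide) (by decide) (by decide) (by decide) (by decide) (by decide))
    (hn 0 1 2 3 (by decide) (by decide) (by decide) (by decide) (by decide) (by decide))
    (hn 0 2 1 3 (by decide) (by decide) (by decide) (by decide) (by decide) (by decide))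
    (hn 0 3 1 2 (by decide) (by decide) (by decide) (by decide) (by decide) (by decide))
    (hn 1 2 0 3 (by decide) (by decide) (by decide) (by decide) (by decide) (by decide))
    (hn 1 3 0 2 (by decide) (by decide) (by decide) (by decide) (by decide) (by decide))
    (hn 2 3 0 1 (by decide) (by decide) (by decide) (by decide) (by decide) (by decide))

theorem quad2 [Infinite V] {k : ℕ} (hU : IHU V k) {H W1 W2 : Finset (Finset V)}
    {q : Fin 4 → Finset V} (h : Quad2 H W1 W2 q) (hk1 : W1.card + 3 ≤ k) (hk2 : W2.card + 3 ≤ k)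
    (h4 : ∀ v, dg H v ≤ 4) (hs : ∀ x, dd W1 (q x) + dd W2 (q x) = 4) :
    256 * (tau W1 + tau W2) + ee W1 (dg H) + ee W2 (dg H) ≤
      53 * (W1.card + W2.card) + 44 * ((cov W1).card + (cov W2).card) + 10 := by
  by_cases g : Gad W1 (dg H) 2 2 ∨ Gad W2 (dg H) 2 2
  · exact quad_gad hU h hk1 hk2 h4 g
  obtain ⟨g1, g2⟩ := not_or.1 g
  obtain ⟨x, y, z, w, h1, h2, h3, h4', h5, h6, c | c⟩ :=
    quad_num (a := fun x => dd W1 (q x)) (b := fun x => dd W2 (q x)) hs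
      (fun x y z w h1 h2 h3 h4' h5 h6 ⟨a, b, c, d⟩ =>
        (h.split h1 h2 h3 h4' h5 h6).elim
          (fun j => g1 ((gad11 h.s1 (h.qmem x) (h.qmem y) (h.q1 x) (h.q1 y) j).mono a b))
          fun j => g2 ((gad11 h.s2 (h.qmem z) (h.qmem w) (h.q2 z) (h.q2 w) j).mono c d))
      (fun x y z w => quad_nb h.symm) fun x y z w => quad_nb h
  · exact quad2_core hU h hk1 hk2 h4 hs h1 h2 h3 h4' h5 h6 c.1 c.2.1 c.2.2.1 c.2.2.2.1 c.2.2.2.2
  · have := quad2_core hU h.symm hk2 hk1 h4 (fun x => (add_comm _ _).trans (hs x)) h1 h2 h3 h4'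
      h5 h6 c.1 c.2.1 c.2.2.1 c.2.2.2.1 c.2.2.2.2
    omega

end Pool.Agent.Work.MP_d266e7_co.C5
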