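import Pool.Agent.Work.MP_d266e7_co.C5.Hosts
import Pool.Agent.Work.MP_d266e7_co.C5.Abs3

/-!
Semantics of `Side2` and `Side3`. `nj`: use `nj_of_cover` with `R = insert (q z) W2`
(resp. the union of two such sets) and `absorb`. Neighbourhood bounds: `nl1`, `nl2` with
`N` the image under `q` of the filter, members of other pieces have `dd = 0` (`dd_sep`).
`twoT`: instantiate `g11`, `g12` on both sides for all permutations, bound the six numbers and
finish by `interval_cases`/`decide`/`omega` (checked externally).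
-/

namespace Pool.Agent.Work.MP_d266e7_co.C5

open Finset

variable {V : Type} [DecidableEq V]

theorem sides_three : ∀ x y z w : Fin 3, x ≠ y → x ≠ z → y ≠ z → w = x ∨ w = y ∨ w = z := by
  decide

theorem sides_four : ∀ x y z w v : Fin 4, x ≠ y → x ≠ z → x ≠ w → y ≠ z → y ≠ w → z ≠ w →
    v = x ∨ v = y ∨ v = z ∨ v = w := by
  decide +kernel

theorem sides_sum (f : Fin 3 → ℕ) {i j k : Fin 3} (hij : i ≠ j) (hik : i ≠ k) (hjk : j ≠ k) :
    f i + (f j + f k) = f 0 + f 1 + f 2 := by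
  rcases sides_three 0 1 2 i (by decide) (by decide) (by decide) with rfl | rfl | rfl <;>
  rcases sides_three 0 1 2 j (by decide) (by decide) (by decide) with rfl | rfl | rfl <;>
  rcases sides_three 0 1 2 k (by decide) (by decide) (by decide) with rfl | rfl | rfl <;>
  first | contradiction | omega

/-- the best gain that the gadgets give on one side -/
def sides_L (a0 a1 a2 b0 b1 b2 : ℕ) : ℕ :=
  max (max (if 1 ≤ b2 then gainT a0 a1 else 0)
    (max (if 1 ≤ b1 then gainT a0 a2 else 0) (if 1 ≤ b0 then gainT a1 a2 else 0)))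
    (if 1 ≤ b0 ∧ 1 ≤ b1 ∧ 1 ≤ b2 then
      max (gainT a0 (a1 + a2)) (max (gainT a1 (a0 + a2)) (gainT a2 (a0 + a1))) else 0)

/-- the final inequality -/
def sides_P (s a0 b0 a1 b1 a2 b2 : ℕ) : Prop :=
  ((1 ≤ a0 ∧ 1 ≤ a1) ∨ (1 ≤ a0 ∧ 1 ≤ a2) ∨ (1 ≤ a1 ∧ 1 ≤ a2)) →
    ((1 ≤ b0 ∧ 1 ≤ b1) ∨ (1 ≤ b0 ∧ 1 ≤ b2) ∨ (1 ≤ b1 ∧ 1 ≤ b2)) →
    3 ≤ sides_L a0 a1 a2 b0 b1 b2 + sides_L b0 b1 b2 a0 a1 a2 + 2 * s

instance sides_dec (s a0 b0 a1 b1 a2 b2 : ℕ) : Decidable (sides_P s a0 b0 a1 b1 a2 b2) := by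
  unfold sides_P
  infer_instance

/-- the pairs that can occur at one host -/
def sides_prs (s : ℕ) : List (ℕ × ℕ) :=
  (List.range 6 ×ˢ List.range 6).filter fun p => decide (4 ≤ p.1 + p.2 + s ∧ p.1 + p.2 ≤ 5)

theorem sides_mem {s a b : ℕ} (h5 : a + b ≤ 5) (h : 4 ≤ a + b + s) : (a, b) ∈ sides_prs s :=
  List.mem_filter.2 ⟨List.mem_product.2 ⟨List.mem_range.2 (by omega), List.mem_range.2 (by omega)⟩,
    decide_eq_true ⟨h, h5⟩⟩

theorem sides_dd {W W' : Finset (Finset V)} (h : Sep W W') (x : Finset V) :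
    dd W x + dd W' x ≤ x.card := by
  rw [dd, dd, ← card_union_of_disjoint (h.disjoint_cov.mono inter_subset_right inter_subset_right)]
  exact card_le_card (union_subset inter_subset_left inter_subset_left)

theorem sides_chk : ∀ s < 2, ∀ p ∈ sides_prs s, ∀ q ∈ sides_prs s, ∀ r ∈ sides_prs s,
    sides_P s p.1 p.2 q.1 q.2 r.1 r.2 := by
  decide +kernel

theorem sides_le {a b : Fin 3 → ℕ} {g : ℕ}
    (a1 : ∀ x y z, x ≠ y → x ≠ z → y ≠ z → 1 ≤ b z → gainT (a x) (a y) ≤ g)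
    (a2 : ∀ x y z, x ≠ y → x ≠ z → y ≠ z → 1 ≤ b x → 1 ≤ b y → 1 ≤ b z →
      gainT (a x) (a y + a z) ≤ g) : sides_L (a 0) (a 1) (a 2) (b 0) (b 1) (b 2) ≤ g := by
  have key : ∀ {c : Prop} [Decidable c] {n : ℕ}, (c → n ≤ g) → (if c then n else 0) ≤ g := by
    intro c _ n h
    split_ifs with hc
    exacts [h hc, Nat.zero_le _]
  exact max_le (max_le (key (a1 0 1 2 (by decide) (by decide) (by decide)))
    (max_le (key (a1 0 2 1 (by decide) (by decide) (by decide)))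
      (key (a1 1 2 0 (by decide) (by decide) (by decide))))) (key fun h =>
    max_le (a2 0 1 2 (by decide) (by decide) (by decide) h.1 h.2.1 h.2.2)
      (max_le (a2 1 0 2 (by decide) (by decide) (by decide) h.2.1 h.1 h.2.2)
        (a2 2 0 1 (by decide) (by decide) (by decide) h.2.2 h.1 h.2.1)))

theorem Side2.symm {H W1 W2 : Finset (Finset V)} {q : Fin 3 → Finset V} (h : Side2 H W1 W2 q) :
    Side2 H W2 W1 q := by
  refine ⟨h.cc, h.c2, h.c1, h.s2, h.s1, h.sep.symm, h.qmem, h.q2, h.q1, h.qinj, fun e he => ?_,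
    (Nat.add_comm _ _).trans_lt h.lt⟩
  rcases h.all e he with a | a | a
  exacts [.inr (.inl a), .inl a, .inr (.inr a)]

theorem Side2.nj {H W1 W2 : Finset (Finset V)} {q : Fin 3 → Finset V} (h : Side2 H W1 W2 q)
    {x y z : Fin 3} (hxy : x ≠ y) (hxz : x ≠ z) (hyz : y ≠ z) (hz : 1 ≤ dd W2 (q z)) :
    NJ W1 (q x) (q y) := by
  refine nj_of_cover h.cc.u5.ne h.s1 (insert_subset (h.qmem z) h.s2) (h.qmem x) (h.qmem y)
    (fun e he => ?_) (absorb h.c2 hz) h.lt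
  rcases h.all e he with a | a | ⟨w, rfl⟩
  · exact .inr (.inr (.inl a))
  · exact .inr (.inr (.inr (mem_insert_of_mem a)))
  · rcases sides_three x y z w hxy hxz hyz with rfl | rfl | rfl
    exacts [.inl rfl, .inr (.inl rfl), .inr (.inr (.inr (mem_insert_self _ _)))]

theorem Side2.n1 {H W1 W2 : Finset (Finset V)} {q : Fin 3 → Finset V} (h : Side2 H W1 W2 q) :
    (1 ≤ dd W1 (q 0) ∧ 1 ≤ dd W1 (q 1)) ∨ (1 ≤ dd W1 (q 0) ∧ 1 ≤ dd W1 (q 2)) ∨
      (1 ≤ dd W1 (q 1) ∧ 1 ≤ dd W1 (q 2)) := by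
  have h1 := nl1 (N := (univ.filter fun x => 1 ≤ dd W1 (q x)).image q) h.cc h.c1 h.s1
    ⟨q 0, h.qmem 0, h.q1 0⟩ fun e he h1 h2 => by
      rcases h.all e he with a | a | ⟨w, rfl⟩
      · exact absurd a h1
      · exact absurd h2 (by rw [dd_sep h.sep a]; omega)
      · exact mem_image_of_mem _ (mem_filter.2 ⟨mem_univ _, h2⟩)
  obtain ⟨x, hx, y, hy, hxy⟩ := one_lt_card.1 (h1.trans card_image_le)
  have h2 := (mem_filter.1 hx).2
  have h3 := (mem_filter.1 hy).2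
  rcases sides_three 0 1 2 x (by decide) (by decide) (by decide) with rfl | rfl | rfl <;>
  rcases sides_three 0 1 2 y (by decide) (by decide) (by decide) with rfl | rfl | rfl <;>
  first | contradiction | omega

theorem Side2.g11 {H W1 W2 : Finset (Finset V)} {q : Fin 3 → Finset V} (h : Side2 H W1 W2 q)
    {x y z : Fin 3} (hxy : x ≠ y) (hxz : x ≠ z) (hyz : y ≠ z) (hz : 1 ≤ dd W2 (q z)) :
    Gad W1 (dg H) (dd W1 (q x)) (dd W1 (q y)) := by
  exact gad11 h.s1 (h.qmem x) (h.qmem y) (h.q1 x) (h.q1 y) (h.nj hxy hxz hyz hz)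

theorem Side2.g12 {H W1 W2 : Finset (Finset V)} {q : Fin 3 → Finset V} (h : Side2 H W1 W2 q)
    {x y z : Fin 3} (hxy : x ≠ y) (hxz : x ≠ z) (hyz : y ≠ z) (hx : 1 ≤ dd W2 (q x))
    (hy : 1 ≤ dd W2 (q y)) (hz : 1 ≤ dd W2 (q z)) :
    Gad W1 (dg H) (dd W1 (q x)) (dd W1 (q y) + dd W1 (q z)) := by
  exact gad12 h.c1 h.s1 (h.qmem x) (h.qmem y) (h.qmem z) (h.q1 x) (h.q1 y) (h.q1 z)
    (h.nj hxy hxz hyz hz) (h.nj hxz hxy hyz.symm hy) (h.nj hyz hxy.symm hxz.symm hx)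

theorem twoT {H W1 W2 : Finset (Finset V)} {q : Fin 3 → Finset V} (h : Side2 H W1 W2 q)
    {g1 g2 s : ℕ} (h1 : ∀ p r, Gad W1 (dg H) p r → gainT p r ≤ g1)
    (h2 : ∀ p r, Gad W2 (dg H) p r → gainT p r ≤ g2) (hs : s ≤ 1)
    (h4 : ∀ x, 4 ≤ dd W1 (q x) + dd W2 (q x) + s) : 3 ≤ g1 + g2 + 2 * s := by
  have c := fun x => sides_mem ((sides_dd h.sep _).trans_eq (h.cc.u5 _ (h.qmem x))) (h4 x)
  refine (sides_chk s (by omega) _ (c 0) _ (c 1) _ (c 2) h.n1 h.symm.n1).trans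
    (add_le_add_left (add_le_add ?_ ?_) _)
  · exact sides_le (a := fun x => dd W1 (q x)) (b := fun x => dd W2 (q x))
      (fun x y z a b c d => h1 _ _ (h.g11 a b c d))
      fun x y z a b c d e f => h1 _ _ (h.g12 a b c d e f)
  · exact sides_le (a := fun x => dd W2 (q x)) (b := fun x => dd W1 (q x))
      (fun x y z a b c d => h2 _ _ (h.symm.g11 a b c d))
      fun x y z a b c d e f => h2 _ _ (h.symm.g12 a b c d e f)

theorem Side3.shadow {H : Finset (Finset V)} {W : Fin 3 → Finset (Finset V)}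
    {q : Fin 4 → Finset V} (h : Side3 H W q) :
    Shadow (fun i x => dd (W i) (q x)) (fun i x y => NJ (W i) (q x) (q y)) := by
  have hn := h.cc.u5.ne
  refine ⟨fun i j k x y z w hij hik hjk hxy hxz hxw hyz hyw hzw hz hw => ?_, fun i => ?_,
    fun i j hij => ?_⟩
  · have s1 := insert_subset (h.qmem z) (h.wsub j)
    have s2 := insert_subset (h.qmem w) (h.wsub k)
    refine nj_of_cover hn (h.wsub i) (union_subset s1 s2) (h.qmem x) (h.qmem y) (fun e he => ?_)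
      ((tau_union_le (hn.mono s1) (hn.mono s2)).trans
        (add_le_add (absorb (h.wcc j) hz) (absorb (h.wcc k) hw))) ?_
    · rcases h.all e he with ⟨l, a⟩ | ⟨v, rfl⟩
      · rcases sides_three i j k l hij hik hjk with rfl | rfl | rfl
        · exact .inr (.inr (.inl a))
        · exact .inr (.inr (.inr (mem_union_left _ (mem_insert_of_mem a))))
        · exact .inr (.inr (.inr (mem_union_right _ (mem_insert_of_mem a))))
      · rcases sides_four x y z w v hxy hxz hxw hyz hyw hzw with rfl | rfl | rfl | rfl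
        · exact .inl rfl
        · exact .inr (.inl rfl)
        · exact .inr (.inr (.inr (mem_union_left _ (mem_insert_self _ _))))
        · exact .inr (.inr (.inr (mem_union_right _ (mem_insert_self _ _))))
    · exact (sides_sum (fun i => tau (W i)) hij hik hjk).trans_lt h.lt
  · refine (nl1 (N := (univ.filter fun x => 1 ≤ dd (W i) (q x)).image q) h.cc (h.wcc i) (h.wsub i)
      ⟨q 0, h.qmem 0, h.qout 0 i⟩ fun e he h1 h2 => ?_).trans card_image_le
    rcases h.all e he with ⟨l, a⟩ | ⟨v, rfl⟩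
    · have hl : i ≠ l := fun b => h1 (b ▸ a)
      exact absurd h2 (by rw [dd_sep (h.sep i l hl) a]; omega)
    · exact mem_image_of_mem _ (mem_filter.2 ⟨mem_univ _, h2⟩)
  · refine (nl2 (N := (univ.filter fun x => 1 ≤ dd (W i) (q x) ∨ 1 ≤ dd (W j) (q x)).image q) h.cc
      (h.wcc i) (h.wcc j) (h.wsub i) (h.wsub j) (h.sep i j hij)
      ⟨q 0, h.qmem 0, h.qout 0 i, h.qout 0 j⟩ fun e he h1 h1' h2 => ?_).trans card_image_le
    rcases h.all e he with ⟨l, a⟩ | ⟨v, rfl⟩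
    · have hl : i ≠ l := fun b => h1 (b ▸ a)
      have hl' : j ≠ l := fun b => h1' (b ▸ a)
      exact absurd h2 (by rw [dd_sep (h.sep i l hl) a, dd_sep (h.sep j l hl') a]; omega)
    · exact mem_image_of_mem _ (mem_filter.2 ⟨mem_univ _, h2⟩)

theorem Side3.gad {H : Finset (Finset V)} {W : Fin 3 → Finset (Finset V)}
    {q : Fin 4 → Finset V} (h : Side3 H W q)
    (h4 : ∀ x, 4 ≤ dd (W 0) (q x) + dd (W 1) (q x) + dd (W 2) (q x)) :
    ∃ i, Gad (W i) (dg H) 2 2 := by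
  obtain ⟨i, ⟨x, y, -, h1, h2, h3⟩ | ⟨x, y, z, -, -, -, h1, h2, h3, h5, h6, h7⟩⟩ :=
    abs3 h.shadow h4
  · exact ⟨i, (gad11 (h.wsub i) (h.qmem x) (h.qmem y) (h.qout x i) (h.qout y i) h1).mono h2 h3⟩
  · exact ⟨i, (gad12 (h.wcc i) (h.wsub i) (h.qmem x) (h.qmem y) (h.qmem z) (h.qout x i)
      (h.qout y i) (h.qout z i) h1 h2 h3).mono h5 (Nat.add_le_add h6 h7)⟩

theorem Side3.sideHyp {H : Finset (Finset V)} {W : Fin 3 → Finset (Finset V)}
    {q : Fin 4 → Finset V} (h : Side3 H W q) (h0 : (cov (W 0)).card = 5) {g1 g2 : ℕ}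
    (h1 : ∀ p r, Gad (W 1) (dg H) p r → gainT p r ≤ g1)
    (h2 : ∀ p r, Gad (W 2) (dg H) p r → gainT p r ≤ g2)
    (s0 : dd (W 0) (q 0) + dd (W 1) (q 0) + dd (W 2) (q 0) = 4)
    (s1 : dd (W 0) (q 1) + dd (W 1) (q 1) + dd (W 2) (q 1) = 4)
    (s2 : dd (W 0) (q 2) + dd (W 1) (q 2) + dd (W 2) (q 2) = 4)
    (s3 : dd (W 0) (q 3) + dd (W 1) (q 3) + dd (W 2) (q 3) = 5) :
    SideHyp (fun i x => dd (W i) (q x)) (fun i x y => NJ (W i) (q x) (q y)) g1 g2 := by
  have e1 := fun i x y => gad11 (h.wsub i) (h.qmem x) (h.qmem y) (h.qout x i) (h.qout y i)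
  have e2 := fun i x y z => gad12 (h.wcc i) (h.wsub i) (h.qmem x) (h.qmem y) (h.qmem z)
    (h.qout x i) (h.qout y i) (h.qout z i)
  exact ⟨h.shadow, s0, s1, s2, s3, fun x y _ a => (nj_sum2 (h.wcc 0) a).trans_eq h0,
    fun x y z _ _ _ a b c => (nj_sum3 (h.wcc 0) a b c).trans_eq h0,
    fun x y _ a => h1 _ _ (e1 1 x y a), fun x y z _ _ _ a b c => h1 _ _ (e2 1 x y z a b c),
    fun x y _ a => h2 _ _ (e1 2 x y a), fun x y z _ _ _ a b c => h2 _ _ (e2 2 x y z a b c)⟩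

end Pool.Agent.Work.MP_d266e7_co.C5
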