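import Pool.Agent.Work.MP_d266e7_co.C5.Core

/-!
Counting at the single node `u`. For `v ∈ u`, `star H v ⊆ insert u (image q univ)` (`uW`, `uR`,
`all`), so `dg H v = 1 + #{x | v ∈ q x}`. If `ee {u} (dg H) ≤ 2`, some vertex of `u` has degree
three, and `noin` excludes vertices of `u` of degree one.
-/

namespace Pool.Agent.Work.MP_d266e7_co.C5

open Finset

variable {V : Type} [DecidableEq V]

/-- blocks of `u` through two hosts -/
def uc (u : Finset V) (q : Fin 6 → Finset V) (x y : Fin 6) : ℕ := (u ∩ q x ∩ q y).card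

/-- blocks of `u` through a host -/
def ud (u : Finset V) (q : Fin 6 → Finset V) (x : Fin 6) : ℕ := (u ∩ q x).card

/-- blocks of `u` of size two through a host -/
def us (H : Finset (Finset V)) (u : Finset V) (q : Fin 6 → Finset V) (x : Fin 6) : ℕ :=
  ((u ∩ q x).filter (fun v => dg H v = 2)).card

theorem uc_symm (u : Finset V) (q : Fin 6 → Finset V) (x y : Fin 6) : uc u q x y = uc u q y x := by
  unfold uc
  rw [inter_right_comm]

namespace UCtx

variable {H : Finset (Finset V)} {tv : Bool → V} {u : Finset V} {W R : Finset (Finset V)}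
  {q : Fin 6 → Finset V}

theorem ulema_star (h : UCtx H tv u W R q) {v : V} (hv : v ∈ u) :
    star H v = insert u ((univ.filter (fun x => v ∈ q x)).image q) := by
  ext e
  rw [mem_star, mem_insert, mem_image]
  constructor
  · rintro ⟨he, hve⟩
    rcases h.all e he with rfl | hW | hR | ⟨x, rfl⟩
    · exact Or.inl rfl
    · exact absurd (dd_pos.2 ⟨e, hW, v, hv, hve⟩) (by rw [h.uW]; omega)
    · exact absurd hve (disjoint_left.1 (h.uR e hR) hv)
    · exact Or.inr ⟨x, mem_filter.2 ⟨mem_univ _, hve⟩, rfl⟩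
  · rintro (rfl | ⟨x, hx, rfl⟩)
    · exact ⟨h.umem, hv⟩
    · exact ⟨h.qmem x, (mem_filter.1 hx).2⟩

theorem dg_eq (h : UCtx H tv u W R q) {v : V} (hv : v ∈ u) :
    dg H v = 1 + (univ.filter (fun x => v ∈ q x)).card := by
  rw [dg, h.ulema_star hv, card_insert_of_notMem, card_image_of_injective _ h.qinj, add_comm]
  intro k
  obtain ⟨x, -, hx⟩ := mem_image.1 k
  exact h.qu x hx

theorem ulema_no (h : UCtx H tv u W R q) {v w : V} (hv : v ∈ u) (hw : w ∈ u) (hvw : v ≠ w)
    (h3 : dg H w = 3) (hs : ∀ x, v ∈ q x → w ∈ q x) : False := by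
  refine h.noin v w (mem_cov.2 ⟨u, h.umem, hv⟩) hvw h3 ?_
  rw [h.ulema_star hv, h.ulema_star hw]
  exact insert_subset_insert _ (image_subset_image fun x hx =>
    mem_filter.2 ⟨mem_univ x, hs x (mem_filter.1 hx).2⟩)

theorem ulema_pair (h : UCtx H tv u W R q) {v : V} (hv : v ∈ u) {x y : Fin 6} (hxy : x ≠ y)
    (hx : v ∈ q x) (hy : v ∈ q y) : dg H v = 3 ∧ ∀ z, v ∈ q z → z = x ∨ z = y := by
  have h1 := h.dg_eq hv
  have h2 := h.d3 v
  have h3 : ({x, y} : Finset (Fin 6)) ⊆ univ.filter (fun z => v ∈ q z) := by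
    simp [insert_subset_iff, hx, hy]
  have h4 := card_le_card h3
  have h5 := card_pair hxy
  have h6 := eq_of_subset_of_card_le h3 (by omega)
  refine ⟨by omega, fun z hz => ?_⟩
  simpa using h6.ge (mem_filter.2 ⟨mem_univ z, hz⟩)

theorem uc_le (h : UCtx H tv u W R q) (x y : Fin 6) (hxy : x ≠ y) : uc u q x y ≤ 1 := by
  refine card_le_one.2 fun v hv w hw => by_contra fun hvw => ?_
  simp only [mem_inter] at hv hw
  refine h.ulema_no hv.1.1 hw.1.1 hvw (h.ulema_pair hw.1.1 hxy hw.1.2 hw.2).1 fun z hz => ?_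
  rcases (h.ulema_pair hv.1.1 hxy hv.1.2 hv.2).2 z hz with rfl | rfl
  exacts [hw.1.2, hw.2]

theorem ulema_dc (s : Finset V) (t : Finset (Fin 6)) (q : Fin 6 → Finset V) :
    ∑ y ∈ t, (s ∩ q y).card = ∑ v ∈ s, (t.filter (fun y => v ∈ q y)).card := by
  simp only [← filter_mem_eq_inter, card_filter]
  exact sum_comm

theorem ud_eq (h : UCtx H tv u W R q) (x : Fin 6) :
    ud u q x = us H u q x + ∑ y ∈ univ.erase x, uc u q x y := by
  unfold ud us uc
  rw [ulema_dc, card_filter, ← sum_add_distrib, card_eq_sum_ones]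
  refine sum_congr rfl fun v hv => ?_
  have h1 := h.dg_eq (mem_inter.1 hv).1
  have h2 := h.d3 v
  have h3 := card_erase_add_one (s := univ.filter (fun y => v ∈ q y))
    (mem_filter.2 ⟨mem_univ x, (mem_inter.1 hv).2⟩)
  rw [filter_erase]
  split_ifs <;> omega

theorem ulema_us (h : UCtx H tv u W R q) :
    ∑ x, us H u q x = ∑ v ∈ u, if dg H v = 2 then 1 else 0 := by
  unfold us
  simp only [← filter_inter]
  rw [ulema_dc, sum_filter]
  refine sum_congr rfl fun v hv => ?_
  have h1 := h.dg_eq hv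
  split_ifs <;> omega

theorem ulema_two (h : UCtx H tv u W R q) (he : ee {u} (dg H) ≤ 2) {v : V} (hv : v ∈ u) :
    2 ≤ dg H v := by
  by_contra h1
  rw [ee, cov_singleton] at he
  obtain ⟨w, hw, h3⟩ : ∃ w ∈ u, dg H w = 3 := by
    by_contra h2
    have h4 := card_nsmul_le_sum u (fun v => 3 - dg H v) 1 fun w hw =>
      Nat.sub_pos_of_lt (lt_of_le_of_ne (h.d3 w) fun k => h2 ⟨w, hw, k⟩)
    rw [h.u5 u h.umem] at h4
    exact absurd (h4.trans he) (by decide)
  have h5 := h.dg_eq hv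
  refine h.ulema_no hv hw (fun k => by rw [k] at h1; omega) h3 fun x hx => ?_
  have h6 : 0 < (univ.filter (fun x => v ∈ q x)).card :=
    card_pos.2 ⟨x, mem_filter.2 ⟨mem_univ x, hx⟩⟩
  omega

theorem us_sum (h : UCtx H tv u W R q) (he : ee {u} (dg H) ≤ 2) :
    ∑ x, us H u q x = ee {u} (dg H) := by
  rw [h.ulema_us, ee, cov_singleton]
  refine sum_congr rfl fun v hv => ?_
  have h1 := h.ulema_two he hv
  have h2 := h.d3 v
  split_ifs <;> omega

theorem tot (h : UCtx H tv u W R q) (he : ee {u} (dg H) ≤ 2) :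
    ∑ x, ud u q x + ∑ x, us H u q x = 10 := by
  unfold ud
  rw [h.ulema_us, ulema_dc, ← sum_add_distrib, sum_const_nat (m := 2), h.u5 u h.umem]
  intro v hv
  have h1 := h.ulema_two he hv
  have h2 := h.d3 v
  have h3 := h.dg_eq hv
  split_ifs <;> omega

theorem sip (h : UCtx H tv u W R q) (x y : Fin 6) (hxy : x ≠ y) (hs : 1 ≤ us H u q x) :
    uc u q x y = 0 := by
  obtain ⟨v, hv⟩ := card_pos.1 hs
  refine card_eq_zero.2 (eq_empty_of_forall_notMem fun w hw => ?_)
  simp only [mem_inter, mem_filter] at hv hw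
  have h1 := (h.ulema_pair hw.1.1 hxy hw.1.2 hw.2).1
  refine h.ulema_no hv.1.1 hw.1.1 (fun k => by rw [k] at hv; omega) h1 fun z hz => ?_
  by_contra k
  have h2 := (h.ulema_pair hv.1.1 (fun e : z = x => k (e ▸ hw.1.2)) hz hv.1.2).1
  omega

theorem four (h : UCtx H tv u W R q) (x : Fin 6) :
    ud u q x + dd W (q x) + dl tv u W q x = 4 := by
  have h1 := card_sdiff_add_card_inter (q x) (insert (tv (side x)) (u ∪ cov W))
  have h2 : Disjoint (q x ∩ u) (q x ∩ cov W) :=
    (disjoint_iff_inter_eq_empty.2 (card_eq_zero.1 h.uW)).mono inter_subset_right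
      inter_subset_right
  rw [inter_insert_of_mem (h.qt x), card_insert_of_notMem (by simp [h.tu, h.tW]),
    inter_union_distrib_left, card_union_of_disjoint h2, h.u5 _ (h.qmem x), inter_comm] at h1
  unfold ud dd dl
  omega

end UCtx

end Pool.Agent.Work.MP_d266e7_co.C5
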