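import Pool.Agent.Work.MP_d266e7_co.C5.Bad6
import Pool.Agent.Work.MP_d266e7_co.C5.Quad

/-!
The bound `UB`. Degrees at most three: `ee_eq`, `gplus`, `gallai`, `bad_false`, omega
(`2 tau = m + 1` forces `e ≥ 9`; `2 tau = m` uses `bad_false`; `2 tau < m` is direct).
Step at `t` of degree four: as in `gb_step`, with `Fam.ee_eq`; the outside vertices contribute at
most `2 s` (`t` contributes zero, the others have degree at least one). If `a = s = 0`, every host
has `∑ dd = 4` (`Fam.five`); `|F| ≤ 3`; one piece is trivial, two pieces `quad2_of`, `quad2`,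
three pieces `exists_enum`, `side3_mk`, `Side3.gad`, `gainQ_le`.
-/

namespace Pool.Agent.Work.MP_d266e7_co.C5

open Finset

variable {V : Type} [DecidableEq V]

theorem ub_three [Infinite V] {H : Finset (Finset V)} (h : CC H) (h3 : ∀ v, dg H v ≤ 3) :
    UB H := by
  have h1 := ee_eq h.u5 h3
  have h2 : GB H := gplus h h3
  have h4 := gallai h.u5.ne h.crit h.conn
  have h5 : 2 * tau H = H.card → 70 * H.card ≤ 41 * (cov H).card + 10 := fun e =>
    not_lt.1 fun c => bad_false ⟨h, h3, e, c⟩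
  unfold GB at h2
  unfold UB
  by_cases c : H.card = 1 <;> by_cases c' : tau H = 1 <;> omega

/-- slack of the bound for a piece, measured with the degrees of `H` -/
noncomputable def ulevel_slack (H W : Finset (Finset V)) : ℕ :=
  53 * W.card + 44 * (cov W).card + 10 - (256 * tau W + ee W (dg H))

theorem ulevel_sum {F : Finset (Finset (Finset V))} {H : Finset (Finset V)}
    (h : ∀ W ∈ F, 256 * tau W + ee W (dg H) ≤ 53 * W.card + 44 * (cov W).card + 10) :
    256 * ∑ W ∈ F, tau W + ∑ W ∈ F, ee W (dg H) + ∑ W ∈ F, ulevel_slack H W =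
      53 * ∑ W ∈ F, W.card + 44 * ∑ W ∈ F, (cov W).card + 10 * F.card := by
  induction F using Finset.induction_on with
  | empty => simp
  | insert W F hW ih =>
    have h1 := ih fun Z hZ => h Z (mem_insert_of_mem hZ)
    have h2 := h W (mem_insert_self _ _)
    have h3 : ulevel_slack H W =
      53 * W.card + 44 * (cov W).card + 10 - (256 * tau W + ee W (dg H)) := rfl
    simp only [sum_insert hW, card_insert_of_notMem hW]
    omega

theorem ulevel_out {H : Finset (Finset V)} {S : Finset V} {t : V} (hS : S ⊆ cov H) (ht : t ∈ S)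
    (h4 : dg H t = 4) : ∑ v ∈ S, (3 - dg H v) + 2 ≤ 2 * S.card := by
  have h1 : ∑ v ∈ S.erase t, (3 - dg H v) ≤ (S.erase t).card * 2 :=
    sum_le_card_nsmul _ _ 2 fun v hv => by
      have := dg_pos.2 (hS (mem_of_mem_erase hv))
      omega
  have h2 := card_erase_add_one ht
  rw [← add_sum_erase S _ ht, h4]
  omega

theorem ub_step [Infinite V] {H : Finset (Finset V)} {k : ℕ} (hU : IHU V k)
    (hk : H.card ≤ k + 1) (h : CC H) (h4 : ∀ v, dg H v ≤ 4) {t : V} (ht : dg H t = 4) :
    UB H := by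
  have ht1 : 1 ≤ dg H t := by omega
  obtain ⟨F, hF0, hτ⟩ := exists_step h ht1
  have hF : Fam H F := hF0.mono sdiff_subset Subset.rfl
  have c1 := step_card hF0
  have c2 := hF.card_eq
  have c3 := hF.cov_eq
  have c4 := hF.ee_eq (dg H)
  have hto := step_out ht1 hF0
  have c5 := ulevel_out sdiff_subset hto ht
  have c7 : F.card + 1 ≤ (H \ un F).card := by
    obtain ⟨x, hx⟩ := card_pos.1 (show 0 < (H \ un F).card by omega)
    exact nl_all h hF ⟨x, mem_sdiff.1 hx⟩
  have hW : ∀ W ∈ F, W.card + 3 ≤ k := fun W hW => by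
    have := single_le_sum (f := fun Z : Finset (Finset V) => Z.card)
      (fun _ _ => Nat.zero_le _) hW
    omega
  have hb : ∀ W ∈ F, 256 * tau W + ee W (dg H) ≤ 53 * W.card + 44 * (cov W).card + 10 :=
    fun W hWF => by
      have a1 : UB W := hU W (by have := hW W hWF; omega) (hF.cc W hWF)
        fun v => (dg_mono (hF.sub W hWF) v).trans (h4 v)
      have a2 : ee W (dg H) ≤ ee W (dg W) := ee_mono fun v _ => dg_mono (hF.sub W hWF) v
      unfold UB at a1
      omega
  have c8 := ulevel_sum hb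
  unfold UB
  by_contra hcon
  have hcase : ((H \ star H t) \ un F).card = 0 ∧ (H \ un F).card = 4 ∧
      (cov H \ cov (un F)).card = 1 ∧ (F.card = 2 ∨ F.card = 3) := by omega
  obtain ⟨f0, f2, f3, f1⟩ := hcase
  have h5 : ∀ x ∈ H \ un F, ∑ W ∈ F, dd W x = 4 := fun x hx => by
    have a1 := gplus_out hF h.u5 (mem_sdiff.1 hx).1
    have a2 := hF.five (h.u5 x (mem_sdiff.1 hx).1)
    have a3 : t ∈ x := by
      by_contra c
      exact card_ne_zero_of_mem (mem_sdiff.2 ⟨mem_sdiff.2 ⟨(mem_sdiff.1 hx).1,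
        fun e => c (mem_star.1 e).2⟩, (mem_sdiff.1 hx).2⟩) f0
    have a4 := card_ne_zero_of_mem (mem_sdiff.2 ⟨a3, (mem_sdiff.1 hto).2⟩)
    omega
  rcases f1 with f1 | f1
  · obtain ⟨W1, W2, hne, hFe⟩ := card_eq_two.1 f1
    have m1 : W1 ∈ F := hFe ▸ mem_insert_self _ _
    have m2 : W2 ∈ F := hFe ▸ mem_insert_of_mem (mem_singleton_self _)
    have hs : ∀ f : Finset (Finset V) → ℕ, ∑ W ∈ F, f W = f W1 + f W2 := fun f => by
      rw [hFe, sum_pair hne]
    rw [hs] at hτ c2 c3 c4
    obtain ⟨q, hq, hq'⟩ := quad2_of h hF hFe hne f2 (by omega)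
    have := quad2 hU hq (hW W1 m1) (hW W2 m2) h4 fun x => (hs _).symm.trans (h5 _ (hq' x))
    omega
  · obtain ⟨W, w1, w2, w3⟩ := exists_enum f1
    obtain ⟨q, q1, q2, q3⟩ := exists_enum f2
    have hs := sum_three w1 w2 w3
    have h33 := side3_mk h hF w1 w2 w3 q1 q2 q3 (by rw [hs] at hτ; omega)
    obtain ⟨i, hi⟩ := h33.gad fun x => ((hs _).symm.trans (h5 _ (q2 x))).ge
    have a1 := gainQ_le hU (by have := hW _ (w2 i); omega) (hF.cc _ (w2 i)) h4
      (fun v _ => dg_mono (hF.sub _ (w2 i)) v) hi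
    have a2 : ulevel_slack H (W i) =
      53 * (W i).card + 44 * (cov (W i)).card + 10 - (256 * tau (W i) + ee (W i) (dg H)) := rfl
    have a3 := single_le_sum (f := ulevel_slack H) (fun _ _ => Nat.zero_le _) (w2 i)
    omega

theorem ihu [Infinite V] (k : ℕ) : IHU V k := by
  induction k with
  | zero =>
    intro X hk h _
    have := card_pos.2 h.ne
    omega
  | succ k ih =>
    intro X hk h h4
    by_cases c : ∃ t, dg X t = 4
    · obtain ⟨t, ht⟩ := c
      exact ub_step ih hk h h4 ht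
    · refine ub_three h fun v => ?_
      have a1 := h4 v
      have a2 : dg X v ≠ 4 := fun e => c ⟨v, e⟩
      omega

end Pool.Agent.Work.MP_d266e7_co.C5
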